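import Pool.Agent.Y933.KG.Mob2

/-!
# The exponential sums over all algebraic numbers of given degree and height (helper933)
-/

set_option autoImplicit false

namespace Pool.Agent.Y933.KG

open Finset Polynomial Filter
open Pool.Agent.H469R2.NK (e norm_e e_add)
open Pool.Agent.Y933.KD.VdC (ev_le)

lemma sum_sq (H : ℕ) (hH : 1 ≤ H) : ∑ g ∈ Finset.Icc 1 H, ((g : ℝ) ^ 2)⁻¹ ≤ 2 := by
  have h1 : Finset.Icc 1 H = insert 1 (Finset.Ioc 1 H) := by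
    ext g
    rw [Finset.mem_Icc, Finset.mem_insert, Finset.mem_Ioc]
    omega
  rw [h1, Finset.sum_insert (by simp)]
  have h2 := sum_Ioc_inv_sq_le_sub (α := ℝ) one_ne_zero hH
  have h3 : (0 : ℝ) ≤ (H : ℝ)⁻¹ := by positivity
  push_cast at h2 ⊢
  norm_num at h2 ⊢
  linarith

/-- **the exponential sums over the real algebraic numbers of degree `q + 2`, ordered by height** -/
theorem alg_hat (q K : ℕ) (hK : 1 ≤ K) (δ1 : ℝ) (hδ1 : 0 < δ1) :
    ∃ κ : ℝ, 0 < κ ∧ ∃ ρ : ℝ, 0 < ρ ∧ ∃ H0 : ℕ, ∀ H : ℕ, H0 ≤ H → (Alg (q + 2) H).Nonempty ∧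
      ∀ G : ℝ[X], 1 ≤ G.natDegree → G.natDegree ≤ q + 1 →
      (∀ i, 1 ≤ i → |G.coeff i| ≤ (H : ℝ) ^ κ) → (H : ℝ) ^ (-κ) ≤ |G.leadingCoeff| →
      ∀ θ : ℝ, (H : ℝ) ^ δ1 ≤ |θ| → |θ| ≤ (H : ℝ) ^ (K : ℝ) →
      ∀ s : Finset ℝ, (∀ x, x ∈ s ↔ x ∈ Alg (q + 2) H) →
      ‖∑ x ∈ s, e (θ * G.eval x)‖ ≤ s.card * (H : ℝ) ^ (-ρ) := by
  classical
  obtain ⟨κ0, hκ0, ρ0, hρ0, hρ01, Cc, hCc, H0, hH0⟩ := tot_sum q (3 * K) (by omega) δ1 hδ1
  obtain ⟨Cq, hCq, halg⟩ := alg_le q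
  obtain ⟨ρ1, hρ1⟩ : ∃ ρ1 : ℝ, ρ1 = min ρ0 (1 / 2) := ⟨_, rfl⟩
  have hρ1p : 0 < ρ1 := by rw [hρ1]; exact lt_min hρ0 (by norm_num)
  have hρ1a : ρ1 ≤ ρ0 := by rw [hρ1]; exact min_le_left _ _
  have hρ1b : ρ1 ≤ 1 / 2 := by rw [hρ1]; exact min_le_right _ _
  obtain ⟨C1, hC1⟩ : ∃ C1 : ℝ, C1 = 3 ^ (q + 3) * (q + 2) := ⟨_, rfl⟩
  have hC10 : 0 ≤ C1 := by rw [hC1]; positivity
  have hqR : (0 : ℝ) ≤ q := Nat.cast_nonneg q
  obtain ⟨H1, hH1⟩ := eventually_atTop.1 (ev_le (2 * (Cc + C1) + Cq) (ρ1 / 2) (by positivity))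
  obtain ⟨H2, hH2⟩ := eventually_atTop.1 (Alg_many q (ρ1 / 4) (by positivity))
  obtain ⟨H3, hH3⟩ := eventually_atTop.1 (ev_le ((H0 : ℝ) + 2) (1 / 6) (by positivity))
  refine ⟨κ0 / 3, by positivity, ρ1 / 4, by positivity, max (max H1 H2) (max H3 1),
    fun H hH => ?_⟩
  have hHa : H1 ≤ H := le_of_max_le_left (le_of_max_le_left hH)
  have hHb : H2 ≤ H := le_of_max_le_right (le_of_max_le_left hH)
  have hHc : H3 ≤ H := le_of_max_le_left (le_of_max_le_right hH)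
  have hH1' : 1 ≤ H := le_of_max_le_right (le_of_max_le_right hH)
  have hHR : (1 : ℝ) ≤ H := by exact_mod_cast hH1'
  have hHp : (0 : ℝ) < H := by linarith
  refine ⟨?_, ?_⟩
  · rw [Set.nonempty_iff_ne_empty]
    intro h
    have h1 := hH2 H hHb
    rw [h, Set.ncard_empty, Nat.cast_zero] at h1
    have h2 : 0 < (H : ℝ) ^ ((q : ℝ) + 3 - ρ1 / 4) := by positivity
    linarith
  intro G hG1 hG2 hG3 hG4 θ hθ1 hθ2 s hs
  have hncard : (Alg (q + 2) H).ncard = s.card := by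
    rw [← Set.ncard_coe_finset]
    congr 1
    ext x
    rw [Finset.mem_coe, hs]
  have hmany := hH2 H hHb
  rw [hncard] at hmany
  have hbig := hH3 H hHc
  have hH0p : (0 : ℝ) ≤ H0 := Nat.cast_nonneg _
  have h16 : 1 ≤ (H : ℝ) ^ ((1 : ℝ) / 6) := Real.one_le_rpow hHR (by norm_num)
  -- the integral part of the square root
  have hsq : (H : ℝ) ^ ((1 : ℝ) / 3) ≤ ((Nat.sqrt H : ℕ) : ℝ) := by
    have h1 : (H : ℝ) ^ ((1 : ℝ) / 2) < (Nat.sqrt H : ℕ) + 1 := by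
      rw [← Real.sqrt_eq_rpow]
      exact Real.real_sqrt_lt_nat_sqrt_succ
    have h2 : (H : ℝ) ^ ((1 : ℝ) / 2) = (H : ℝ) ^ ((1 : ℝ) / 3) * (H : ℝ) ^ ((1 : ℝ) / 6) := by
      rw [← Real.rpow_add hHp]
      norm_num
    have h3 : 1 ≤ (H : ℝ) ^ ((1 : ℝ) / 3) := Real.one_le_rpow hHR (by norm_num)
    nlinarith
  have hHH0 : (H0 : ℝ) ≤ (H : ℝ) ^ ((1 : ℝ) / 3) := by
    have h2 : (H : ℝ) ^ ((1 : ℝ) / 3) = (H : ℝ) ^ ((1 : ℝ) / 6) * (H : ℝ) ^ ((1 : ℝ) / 6) := by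
      rw [← Real.rpow_add hHp]
      norm_num
    rw [h2]
    nlinarith
  have hterm : ∀ g ∈ Finset.Icc 1 H, ‖∑ p ∈ Om q (H / g), e (θ * G.eval p.2.2)‖ ≤
      (Cc + C1) * (H : ℝ) ^ ((q : ℝ) + 3 - ρ1) * ((g : ℝ) ^ 2)⁻¹ := by
    intro g hg
    rw [Finset.mem_Icc] at hg
    obtain ⟨hg1, hg2⟩ := hg
    have hgR : (1 : ℝ) ≤ g := by exact_mod_cast hg1
    have hgp : (0 : ℝ) < g := by linarith
    have hh1 : 1 ≤ H / g := (Nat.one_le_div_iff hg1).2 hg2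
    have hhR : (1 : ℝ) ≤ ((H / g : ℕ) : ℝ) := by exact_mod_cast hh1
    have hhle : ((H / g : ℕ) : ℝ) ≤ (H : ℝ) / g := Nat.cast_div_le
    have hhH : ((H / g : ℕ) : ℝ) ≤ H := by
      have : H / g ≤ H := Nat.div_le_self _ _
      exact_mod_cast this
    have hginv : ∀ t : ℝ, 2 ≤ t → ((H : ℝ) / g) ^ t ≤ (H : ℝ) ^ t * ((g : ℝ) ^ 2)⁻¹ := by
      intro t ht
      rw [Real.div_rpow hHp.le hgp.le, div_eq_mul_inv]
      apply mul_le_mul_of_nonneg_left _ (by positivity)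
      apply inv_anti₀ (by positivity)
      rw [← Real.rpow_natCast]
      exact Real.rpow_le_rpow_of_exponent_le hgR (by exact_mod_cast ht)
    rcases le_or_gt g (Nat.sqrt H) with hgs | hgs
    · have h1 : Nat.sqrt H ≤ H / g := by
        rw [Nat.le_div_iff_mul_le (by omega)]
        calc Nat.sqrt H * g ≤ Nat.sqrt H * Nat.sqrt H := Nat.mul_le_mul_left _ hgs
          _ ≤ H := Nat.sqrt_le H
      have h2 : (H : ℝ) ^ ((1 : ℝ) / 3) ≤ ((H / g : ℕ) : ℝ) := by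
        refine hsq.trans ?_
        exact_mod_cast h1
      have h3 : H0 ≤ H / g := by
        have : (H0 : ℝ) ≤ ((H / g : ℕ) : ℝ) := hHH0.trans h2
        exact_mod_cast this
      have h4 : ∀ t : ℝ, 0 ≤ t → (H : ℝ) ^ (t / 3) ≤ ((H / g : ℕ) : ℝ) ^ t := by
        intro t ht
        calc (H : ℝ) ^ (t / 3) = ((H : ℝ) ^ ((1 : ℝ) / 3)) ^ t := by
              rw [← Real.rpow_mul hHp.le]
              congr 1
              ring
          _ ≤ _ := Real.rpow_le_rpow (by positivity) h2 ht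
      have h5 := hH0 (H / g) h3 G hG1 hG2 (fun i hi => (hG3 i hi).trans (h4 κ0 hκ0.le))
        (le_trans ?_ hG4) θ (le_trans ?_ hθ1) (hθ2.trans ?_)
      · refine h5.trans ?_
        calc Cc * ((H / g : ℕ) : ℝ) ^ ((q : ℝ) + 3 - ρ0) ≤
              Cc * ((H : ℝ) / g) ^ ((q : ℝ) + 3 - ρ0) := by
              apply mul_le_mul_of_nonneg_left _ hCc
              exact Real.rpow_le_rpow (by positivity) hhle (by linarith)
          _ ≤ Cc * ((H : ℝ) ^ ((q : ℝ) + 3 - ρ0) * ((g : ℝ) ^ 2)⁻¹) := by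
              apply mul_le_mul_of_nonneg_left _ hCc
              exact hginv _ (by linarith)
          _ ≤ (Cc + C1) * ((H : ℝ) ^ ((q : ℝ) + 3 - ρ1) * ((g : ℝ) ^ 2)⁻¹) := by
              have : (H : ℝ) ^ ((q : ℝ) + 3 - ρ0) ≤ (H : ℝ) ^ ((q : ℝ) + 3 - ρ1) :=
                Real.rpow_le_rpow_of_exponent_le hHR (by linarith)
              gcongr
              linarith
          _ = _ := by ring
      · rw [Real.rpow_neg (by positivity), Real.rpow_neg hHp.le]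
        exact inv_anti₀ (by positivity) (h4 κ0 hκ0.le)
      · exact Real.rpow_le_rpow (by positivity) hhH hδ1.le
      · refine le_trans (le_of_eq ?_) (h4 _ (Nat.cast_nonneg _))
        congr 1
        push_cast
        ring
    · have h1 : (H : ℝ) ^ ((1 : ℝ) / 2) ≤ g := by
        have h2 : (H : ℝ) ^ ((1 : ℝ) / 2) < (Nat.sqrt H : ℕ) + 1 := by
          rw [← Real.sqrt_eq_rpow]
          exact Real.real_sqrt_lt_nat_sqrt_succ
        have h3 : ((Nat.sqrt H : ℕ) : ℝ) + 1 ≤ g := by exact_mod_cast hgs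
        linarith
      have h2 : ‖∑ p ∈ Om q (H / g), e (θ * G.eval p.2.2)‖ ≤ ((Om q (H / g)).card : ℝ) := by
        refine (norm_sum_le _ _).trans (le_of_eq ?_)
        rw [Finset.sum_congr rfl fun p _ => norm_e _, Finset.sum_const, nsmul_eq_mul, mul_one]
      refine h2.trans ((card_Om_le q (H / g) hh1).trans ?_)
      rw [← hC1]
      calc C1 * ((H / g : ℕ) : ℝ) ^ (q + 3) ≤ C1 * ((H : ℝ) / g) ^ (q + 3) := by gcongr
        _ = C1 * ((H : ℝ) ^ (q + 3) * ((g : ℝ) ^ q * (g * (g : ℝ) ^ 2))⁻¹) := by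
            rw [div_pow, div_eq_mul_inv]
            congr 3
            ring
        _ ≤ C1 * ((H : ℝ) ^ (q + 3) * (1 * ((H : ℝ) ^ ((1 : ℝ) / 2) * (g : ℝ) ^ 2))⁻¹) := by
            apply mul_le_mul_of_nonneg_left _ hC10
            apply mul_le_mul_of_nonneg_left _ (by positivity)
            apply inv_anti₀ (by positivity)
            apply mul_le_mul (one_le_pow₀ hgR) _ (by positivity) (by positivity)
            exact mul_le_mul_of_nonneg_right h1 (by positivity)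
        _ = C1 * (((H : ℝ) ^ (q + 3) * ((H : ℝ) ^ ((1 : ℝ) / 2))⁻¹) * ((g : ℝ) ^ 2)⁻¹) := by
            rw [one_mul, mul_inv]
            ring
        _ ≤ C1 * ((H : ℝ) ^ ((q : ℝ) + 3 - ρ1) * ((g : ℝ) ^ 2)⁻¹) := by
            have e1 : (H : ℝ) ^ (q + 3) * ((H : ℝ) ^ ((1 : ℝ) / 2))⁻¹ ≤
                (H : ℝ) ^ ((q : ℝ) + 3 - ρ1) := by
              rw [← Real.rpow_neg hHp.le, ← Real.rpow_natCast (H : ℝ) (q + 3), ← Real.rpow_add hHp]
              apply Real.rpow_le_rpow_of_exponent_le hHR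
              push_cast
              linarith
            gcongr
        _ ≤ (Cc + C1) * ((H : ℝ) ^ ((q : ℝ) + 3 - ρ1) * ((g : ℝ) ^ 2)⁻¹) := by
            apply mul_le_mul_of_nonneg_right _ (by positivity)
            linarith
        _ = _ := by ring
  have h1 := halg H hH1' (fun x => e (θ * G.eval x)) (fun x => (norm_e _).le) s hs
  have h2 : ∑ g ∈ Finset.Icc 1 H, ‖∑ p ∈ Om q (H / g), e (θ * G.eval p.2.2)‖ ≤
      (Cc + C1) * (H : ℝ) ^ ((q : ℝ) + 3 - ρ1) * 2 := by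
    refine (Finset.sum_le_sum hterm).trans ?_
    rw [← Finset.mul_sum]
    apply mul_le_mul_of_nonneg_left (sum_sq H hH1') (by positivity)
  have h3 : (H : ℝ) ^ (q + 2) * Real.sqrt H ≤ (H : ℝ) ^ ((q : ℝ) + 3 - ρ1) := by
    rw [Real.sqrt_eq_rpow, ← Real.rpow_natCast (H : ℝ) (q + 2), ← Real.rpow_add hHp]
    apply Real.rpow_le_rpow_of_exponent_le hHR
    push_cast
    linarith
  have h4 : ‖∑ x ∈ s, e (θ * G.eval x)‖ ≤
      (2 * (Cc + C1) + Cq) * (H : ℝ) ^ ((q : ℝ) + 3 - ρ1) := by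
    have h5 : Cq * ((H : ℝ) ^ (q + 2) * Real.sqrt H) ≤ Cq * (H : ℝ) ^ ((q : ℝ) + 3 - ρ1) :=
      mul_le_mul_of_nonneg_left h3 hCq
    have h6 := h1.trans (add_le_add h2 h5)
    refine h6.trans (le_of_eq ?_)
    ring
  refine h4.trans ?_
  calc (2 * (Cc + C1) + Cq) * (H : ℝ) ^ ((q : ℝ) + 3 - ρ1) ≤
        (H : ℝ) ^ (ρ1 / 2) * (H : ℝ) ^ ((q : ℝ) + 3 - ρ1) := by
        apply mul_le_mul_of_nonneg_right (hH1 H hHa) (by positivity)
    _ = (H : ℝ) ^ ((q : ℝ) + 3 - ρ1 / 4) * (H : ℝ) ^ (-(ρ1 / 4)) := by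
        rw [← Real.rpow_add hHp, ← Real.rpow_add hHp]
        congr 1
        ring
    _ ≤ _ := by gcongr

end Pool.Agent.Y933.KG
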