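import Pool.Agent.Y933.KG.Elt

/-!
# Many algebraic numbers of given degree and height (helper933)
-/

set_option autoImplicit false

namespace Pool.Agent.Y933.KG

open Finset Polynomial Filter
open Pool.Agent.Y933.KD.VdC (ev_le)

/-- the real algebraic numbers of degree `d` and height at most `H` -/
def Alg (d H : ℕ) : Set ℝ :=
  {x | ∃ P : ℤ[X], Irreducible P ∧ P.natDegree = d ∧ (∀ i, |P.coeff i| ≤ H) ∧ aeval x P = 0}

/-- the numbers are roots of the polynomials of the family -/
lemma Alg_sub (q H : ℕ) {x : ℝ} (hx : x ∈ Alg (q + 2) H) : ∃ p ∈ Om q H, p.2.2 = x := by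
  classical
  obtain ⟨P, hP1, hP2, hP3, hP4⟩ := hx
  set a : Fin (q + 2) → ℤ := fun i => P.coeff ((i : ℕ) + 1) with ha
  have h1 : pol q a (P.coeff 0) = P.map (Int.castRingHom ℝ) := by
    ext n
    rw [coeff_map, eq_intCast]
    rcases Nat.eq_zero_or_pos n with rfl | hn
    · rw [pol_coeff_zero]
    · rcases le_or_gt n (q + 2) with h | h
      · have h2 := pol_coeff_succ q a (P.coeff 0) ⟨n - 1, by omega⟩
        simp only [ha] at h2
        rw [show n - 1 + 1 = n by omega] at h2
        exact h2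
      · rw [pol_coeff_big q a _ h, coeff_eq_zero_of_natDegree_lt (by omega), Int.cast_zero]
  refine ⟨⟨a, P.coeff 0, x⟩, ?_, rfl⟩
  unfold Om
  rw [Finset.mem_sigma]
  refine ⟨mem_Av.2 fun i => hP3 _, ?_⟩
  rw [Finset.mem_sigma]
  refine ⟨?_, ?_⟩
  · rw [Finset.mem_Icc, ← abs_le]
    exact hP3 0
  · simp only
    rw [Multiset.mem_toFinset, mem_roots, IsRoot, h1, eval_map]
    · rw [aeval_def] at hP4
      exact hP4
    · rw [h1]
      intro h
      have h2 : P = 0 := by
        apply Polynomial.map_injective (Int.castRingHom ℝ) (RingHom.injective_int _)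
        rw [h, Polynomial.map_zero]
      exact hP1.ne_zero h2

lemma Alg_finite (q H : ℕ) : (Alg (q + 2) H).Finite := by
  classical
  refine Set.Finite.subset ((Om q H).image (fun p => p.2.2)).finite_toSet fun x hx => ?_
  obtain ⟨p, hp, hpx⟩ := Alg_sub q H hx
  rw [Finset.mem_coe, Finset.mem_image]
  exact ⟨p, hp, hpx⟩

/-- a number is a root of at most one irreducible polynomial with positive leading coefficient -/
lemma pol_unique {P Q : ℤ[X]} (hP : Irreducible P) (hQ : Irreducible Q) (hP0 : 0 < P.leadingCoeff)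
    (hQ0 : 0 < Q.leadingCoeff) (hPd : P.natDegree ≠ 0) (hQd : Q.natDegree ≠ 0) {x : ℝ}
    (hPx : aeval x P = 0) (hQx : aeval x Q = 0) : P = Q := by
  have key : ∀ P : ℤ[X], Irreducible P → P.natDegree ≠ 0 → aeval x P = 0 →
      Associated (minpoly ℚ x) (P.map (Int.castRingHom ℚ)) := by
    intro P hP hPd hPx
    have hprim : P.IsPrimitive := hP.isPrimitive hPd
    have hirr : Irreducible (P.map (Int.castRingHom ℚ)) :=
      (IsPrimitive.Int.irreducible_iff_irreducible_map_cast hprim).1 hP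
    have h1 : aeval x (P.map (Int.castRingHom ℚ)) = 0 := by
      have h2 : (Int.castRingHom ℚ) = algebraMap ℤ ℚ := rfl
      rw [h2, aeval_map_algebraMap]
      exact hPx
    have h2 : minpoly ℚ x ∣ P.map (Int.castRingHom ℚ) := minpoly.dvd ℚ x h1
    have h3 : ¬ IsUnit (minpoly ℚ x) := minpoly.not_isUnit ℚ x
    rcases hirr.dvd_iff.1 h2 with h4 | h4
    · exact absurd h4 h3
    · exact h4.symm
  have hPr : P.IsPrimitive := hP.isPrimitive hPd
  have hQr : Q.IsPrimitive := hQ.isPrimitive hQd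
  have h1 := (key P hP hPd hPx).symm.trans (key Q hQ hQd hQx)
  have h2 : P ∣ Q := (IsPrimitive.Int.dvd_iff_map_cast_dvd_map_cast P Q hPr).2 h1.dvd
  have h3 : Q ∣ P := (IsPrimitive.Int.dvd_iff_map_cast_dvd_map_cast Q P hQr).2 h1.symm.dvd
  have h4 : Associated P Q := associated_of_dvd_dvd h2 h3
  obtain ⟨u, hu⟩ := h4
  obtain ⟨r, hr, hru⟩ := Polynomial.isUnit_iff.1 u.isUnit
  rw [← hru] at hu
  have h5 : Q.leadingCoeff = P.leadingCoeff * r := by
    rw [← hu, leadingCoeff_mul, leadingCoeff_C]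
  rcases Int.isUnit_iff.1 hr with rfl | rfl
  · rw [← hu, C_1, mul_one]
  · rw [h5] at hQ0
    linarith

/-- the polynomials `p X ^ (q + 2) + 2 v_q X ^ (q + 1) + ⋯ + 2 v_0 X - (4 u + 2)` -/
noncomputable def ep (q : ℕ) (p : ℕ) (u : ℕ) (v : Fin (q + 1) → ℕ) : ℤ[X] :=
  C (p : ℤ) * X ^ (q + 2) + (∑ i : Fin (q + 1), C (2 * (v i : ℤ)) * X ^ ((i : ℕ) + 1) +
    C (-(4 * (u : ℤ) + 2)))

lemma ep_coeff_top (q p u : ℕ) (v : Fin (q + 1) → ℕ) : (ep q p u v).coeff (q + 2) = p := by
  unfold ep
  rw [coeff_add, coeff_add, finsetSum_coeff, coeff_C_mul, coeff_X_pow, if_pos rfl, mul_one,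
    coeff_C, if_neg (by omega), add_zero, Finset.sum_eq_zero, add_zero]
  intro i _
  rw [coeff_C_mul, coeff_X_pow, if_neg (by omega), mul_zero]

lemma ep_coeff_mid (q p u : ℕ) (v : Fin (q + 1) → ℕ) (i : Fin (q + 1)) :
    (ep q p u v).coeff ((i : ℕ) + 1) = 2 * v i := by
  unfold ep
  rw [coeff_add, coeff_add, finsetSum_coeff, coeff_C_mul, coeff_X_pow, if_neg (by omega), mul_zero,
    coeff_C, if_neg (by omega), add_zero, zero_add, Finset.sum_eq_single i]
  · rw [coeff_C_mul, coeff_X_pow, if_pos rfl, mul_one]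
  · intro j _ hj
    rw [coeff_C_mul, coeff_X_pow, if_neg, mul_zero]
    intro h
    apply hj
    ext
    omega
  · intro h
    exact absurd (Finset.mem_univ i) h

lemma ep_coeff_zero (q p u : ℕ) (v : Fin (q + 1) → ℕ) :
    (ep q p u v).coeff 0 = -(4 * (u : ℤ) + 2) := by
  unfold ep
  rw [coeff_add, coeff_add, finsetSum_coeff, coeff_C_mul, coeff_X_pow, if_neg (by omega), mul_zero,
    coeff_C_zero, zero_add, Finset.sum_eq_zero, zero_add]
  intro i _
  rw [coeff_C_mul, coeff_X_pow, if_neg (by omega), mul_zero]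

lemma ep_coeff_big (q p u : ℕ) (v : Fin (q + 1) → ℕ) {n : ℕ} (hn : q + 2 < n) :
    (ep q p u v).coeff n = 0 := by
  unfold ep
  rw [coeff_add, coeff_add, finsetSum_coeff, coeff_C_mul, coeff_X_pow, if_neg (by omega), mul_zero,
    coeff_C, if_neg (by omega), add_zero, zero_add]
  refine Finset.sum_eq_zero fun i _ => ?_
  rw [coeff_C_mul, coeff_X_pow, if_neg (by omega), mul_zero]

lemma ep_natDegree {q p u : ℕ} {v : Fin (q + 1) → ℕ} (hp : p ≠ 0) :
    (ep q p u v).natDegree = q + 2 := by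
  refine le_antisymm (natDegree_le_iff_coeff_eq_zero.2 fun _ hn => ep_coeff_big q p u v hn)
    (le_natDegree_of_ne_zero ?_)
  rw [ep_coeff_top]
  exact_mod_cast hp

/-- the polynomials are irreducible -/
lemma ep_irreducible {q p u U : ℕ} {v : Fin (q + 1) → ℕ} (hp : p.Prime) (hu : u < U)
    (hU : 8 * U ≤ p) : Irreducible (ep q p u v) := by
  have hp2 : p ≠ 2 := by omega
  have hp0 : p ≠ 0 := hp.ne_zero
  have hdeg := ep_natDegree (q := q) (u := u) (v := v) hp0
  have hP : (Ideal.span {(2 : ℤ)}).IsPrime := by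
    rw [Ideal.span_singleton_prime (by norm_num)]
    exact Int.prime_two
  have hlead : (ep q p u v).leadingCoeff = p := by
    rw [leadingCoeff, hdeg, ep_coeff_top]
  refine irreducible_of_eisenstein_criterion hP ?_ ?_ ?_ ?_ ?_
  · rw [hlead, Ideal.mem_span_singleton]
    intro h
    have h2 : (2 : ℕ) ∣ p := by exact_mod_cast h
    exact hp2 ((Nat.prime_dvd_prime_iff_eq Nat.prime_two hp).1 h2).symm
  · intro n hn
    have hn' : n < q + 2 := by
      rw [degree_eq_natDegree, hdeg] at hn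
      · exact_mod_cast hn
      · intro h
        rw [h, natDegree_zero] at hdeg
        omega
    rw [Ideal.mem_span_singleton]
    rcases Nat.eq_zero_or_pos n with rfl | hn0
    · rw [ep_coeff_zero]
      exact ⟨-(2 * (u : ℤ) + 1), by ring⟩
    · have h1 := ep_coeff_mid q p u v ⟨n - 1, by omega⟩
      simp only at h1
      rw [show n - 1 + 1 = n by omega] at h1
      rw [h1]
      exact Dvd.intro _ rfl
  · rw [← natDegree_pos_iff_degree_pos, hdeg]
    omega
  · rw [ep_coeff_zero, Ideal.span_singleton_pow, Ideal.mem_span_singleton]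
    rintro ⟨k, hk⟩
    omega
  · intro r hr
    rw [C_dvd_iff_dvd_coeff] at hr
    have h1 := hr (q + 2)
    rw [ep_coeff_top] at h1
    have h2 := hr 0
    rw [ep_coeff_zero] at h2
    have h3 : r.natAbs ∣ p := by
      have := Int.natAbs_dvd_natAbs.2 h1
      simpa using this
    rcases (Nat.dvd_prime hp).1 h3 with h4 | h4
    · exact Int.isUnit_iff_natAbs_eq.2 h4
    · exfalso
      have h5 : r.natAbs ∣ 4 * u + 2 := by
        have := Int.natAbs_dvd_natAbs.2 h2
        rw [Int.natAbs_neg] at this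
        have e1 : (4 * (u : ℤ) + 2).natAbs = 4 * u + 2 := by omega
        rwa [e1] at this
      rw [h4] at h5
      have := Nat.le_of_dvd (by omega) h5
      omega

end Pool.Agent.Y933.KG
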