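import Mathlib

/-!
# The derivatives of the inverse function of a polynomial (helper933)
-/

set_option autoImplicit false

namespace Pool.Agent.Y933.KG

open Finset Polynomial

/-- the numerators of the derivatives of `F ∘ P⁻¹` -/
noncomputable def Nm (P F : ℝ[X]) : ℕ → ℝ[X]
  | 0 => derivative F
  | j + 1 => derivative (Nm P F j) * derivative P -
      C (2 * (j : ℝ) + 1) * (Nm P F j * derivative (derivative P))

/-- the leading coefficients -/
noncomputable def nu (e s : ℕ) (f a : ℝ) (j : ℕ) : ℝ :=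
  (f * (s + 1)) * ∏ i ∈ range j, (((e : ℝ) + 2) * a * (s + 1 - ((i : ℝ) + 1) * (e + 2)))

lemma coeff_term {p q : ℝ[X]} {m n : ℕ} (hp : p.natDegree ≤ m) (hq : q.natDegree ≤ n + 1) :
    (derivative p * q).coeff (m + n) = m * p.coeff m * q.coeff (n + 1) ∧
      (derivative p * q).natDegree ≤ m + n := by
  rcases Nat.eq_zero_or_pos m with rfl | hm
  · have h1 : derivative p = 0 := by
      rw [Polynomial.eq_C_of_natDegree_le_zero hp, derivative_C]
    rw [h1, zero_mul]
    simp
  · obtain ⟨m, rfl⟩ : ∃ m', m = m' + 1 := ⟨m - 1, by omega⟩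
    have hp' : (derivative p).natDegree ≤ m := (natDegree_derivative_le p).trans (by omega)
    have h1 := coeff_mul_add_eq_of_natDegree_le hp' hq
    constructor
    · rw [show m + 1 + n = m + (n + 1) by ring, h1, coeff_derivative]
      push_cast
      ring
    · exact natDegree_mul_le.trans (by omega)

lemma Nm_deg {P F : ℝ[X]} {e s : ℕ} (hP : P.natDegree ≤ e + 2) (hF : F.natDegree ≤ s + 1)
    (j : ℕ) : (Nm P F j).natDegree ≤ s + j * e ∧
      (Nm P F j).coeff (s + j * e) = nu e s (F.coeff (s + 1)) (P.coeff (e + 2)) j := by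
  have hP1 : (derivative P).natDegree ≤ e + 1 := (natDegree_derivative_le P).trans (by omega)
  have hP2 : (derivative (derivative P)).natDegree ≤ e :=
    (natDegree_derivative_le _).trans (by omega)
  induction j with
  | zero =>
    simp only [Nm, nu, zero_mul, add_zero, range_zero, prod_empty, mul_one]
    exact ⟨(natDegree_derivative_le F).trans (by omega), by rw [coeff_derivative]⟩
  | succ j ih =>
    obtain ⟨h1, h2⟩ := ih
    obtain ⟨h3, h4⟩ := coeff_term h1 hP1
    have h5 := coeff_mul_add_eq_of_natDegree_le h1 hP2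
    have h6 : (Nm P F j * derivative (derivative P)).natDegree ≤ s + j * e + e :=
      natDegree_mul_le.trans (by omega)
    have h7 : (C (2 * (j : ℝ) + 1) * (Nm P F j * derivative (derivative P))).natDegree ≤
        s + j * e + e := (natDegree_C_mul_le _ _).trans h6
    rw [show s + (j + 1) * e = s + j * e + e by ring]
    constructor
    · exact (natDegree_sub_le _ _).trans (max_le h4 h7)
    · show (derivative (Nm P F j) * derivative P -
        C (2 * (j : ℝ) + 1) * (Nm P F j * derivative (derivative P))).coeff (s + j * e + e) = _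
      rw [coeff_sub, coeff_C_mul, h3, h5, h2, coeff_derivative, coeff_derivative, coeff_derivative]
      unfold nu
      rw [prod_range_succ]
      push_cast
      ring

lemma abs_nu {e s : ℕ} (hs : s ≤ e) (f a : ℝ) (j : ℕ) : |f| * |a| ^ j ≤ |nu e s f a j| := by
  unfold nu
  rw [abs_mul, abs_prod]
  have hsR : (0 : ℝ) ≤ s := Nat.cast_nonneg s
  have hse : (s : ℝ) ≤ e := by exact_mod_cast hs
  have h0 : |f| ≤ |f * ((s : ℝ) + 1)| := by
    rw [abs_mul, abs_of_nonneg (by positivity : (0 : ℝ) ≤ (s : ℝ) + 1)]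
    have := abs_nonneg f
    nlinarith
  have h1 : |a| ^ j ≤ ∏ i ∈ range j, |((e : ℝ) + 2) * a * (s + 1 - ((i : ℝ) + 1) * (e + 2))| := by
    rw [← Finset.card_range j, ← prod_const, Finset.card_range]
    refine prod_le_prod (fun _ _ => abs_nonneg _) fun i _ => ?_
    have he : (0 : ℝ) ≤ e := Nat.cast_nonneg e
    have hi : (0 : ℝ) ≤ i := Nat.cast_nonneg i
    have h2 : 1 ≤ ((i : ℝ) + 1) * (e + 2) - (s + 1) := by nlinarith
    have h3 : (1 : ℝ) ≤ (e : ℝ) + 2 := by linarith
    have h4 : |((e : ℝ) + 2) * a * (s + 1 - ((i : ℝ) + 1) * (e + 2))| =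
        ((e : ℝ) + 2) * |a| * (((i : ℝ) + 1) * (e + 2) - (s + 1)) := by
      have e1 : |(s : ℝ) + 1 - ((i : ℝ) + 1) * (e + 2)| = ((i : ℝ) + 1) * (e + 2) - (s + 1) := by
        rw [abs_sub_comm, abs_of_nonneg (by linarith)]
      rw [abs_mul, abs_mul, abs_of_nonneg (by linarith : (0 : ℝ) ≤ (e : ℝ) + 2), e1]
    rw [h4]
    have h5 := abs_nonneg a
    have h6 : |a| ≤ ((e : ℝ) + 2) * |a| := by nlinarith
    nlinarith
  exact mul_le_mul h0 h1 (by positivity) (abs_nonneg _)

/-- upper bounds -/
lemma Nm_up (j : ℕ) : ∀ i : ℕ, ∃ Cc : ℝ, 0 ≤ Cc ∧ ∀ (P F : ℝ[X]) (x Φ Λ : ℝ), 0 ≤ Φ → 0 ≤ Λ →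
    (∀ r, 1 ≤ r → |(derivative^[r] P).eval x| ≤ Λ) →
    (∀ r, 1 ≤ r → |(derivative^[r] F).eval x| ≤ Φ) →
    |(derivative^[i] (Nm P F j)).eval x| ≤ Cc * (Φ * Λ ^ j) := by
  induction j with
  | zero =>
    intro i
    refine ⟨1, zero_le_one, fun P F x Φ Λ hΦ hΛ h hF => ?_⟩
    have h1 := hF (i + 1) (by omega)
    rw [Function.iterate_succ_apply] at h1
    simpa [Nm] using h1
  | succ j ih =>
    intro i
    choose Cc hCc0 hCc using ih
    refine ⟨(∑ k ∈ range i.succ, (i.choose k : ℝ) * Cc (i - k + 1)) +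
      (2 * j + 1) * ∑ k ∈ range i.succ, (i.choose k : ℝ) * Cc (i - k), ?_, ?_⟩
    · have h1 : 0 ≤ ∑ k ∈ range i.succ, (i.choose k : ℝ) * Cc (i - k + 1) :=
        sum_nonneg fun k _ => mul_nonneg (Nat.cast_nonneg _) (hCc0 _)
      have h2 : 0 ≤ ∑ k ∈ range i.succ, (i.choose k : ℝ) * Cc (i - k) :=
        sum_nonneg fun k _ => mul_nonneg (Nat.cast_nonneg _) (hCc0 _)
      positivity
    · intro P F x Φ Λ hΦ hΛ h hF
      have hA : |(derivative^[i] (derivative (Nm P F j) * derivative P)).eval x| ≤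
          (∑ k ∈ range i.succ, (i.choose k : ℝ) * Cc (i - k + 1)) * (Φ * Λ ^ (j + 1)) := by
        rw [iterate_derivative_mul, eval_finsetSum, sum_mul]
        refine (abs_sum_le_sum_abs _ _).trans (sum_le_sum fun k _ => ?_)
        rw [nsmul_eq_mul, eval_mul, eval_natCast, eval_mul, abs_mul, abs_mul,
          ← Function.iterate_succ_apply, ← Function.iterate_succ_apply]
        have h1 := hCc (i - k + 1) P F x Φ Λ hΦ hΛ h hF
        have h2 := h (k + 1) (by omega)
        have h3 : |((i.choose k : ℕ) : ℝ)| = (i.choose k : ℝ) := abs_of_nonneg (Nat.cast_nonneg _)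
        rw [h3]
        have h4 := hCc0 (i - k + 1)
        calc (i.choose k : ℝ) * (|(derivative^[(i - k).succ] (Nm P F j)).eval x| *
              |(derivative^[k.succ] P).eval x|)
            ≤ (i.choose k : ℝ) * ((Cc (i - k + 1) * (Φ * Λ ^ j)) * Λ) := by
              gcongr
          _ = _ := by ring
      have hB : |(derivative^[i] (Nm P F j * derivative (derivative P))).eval x| ≤
          (∑ k ∈ range i.succ, (i.choose k : ℝ) * Cc (i - k)) * (Φ * Λ ^ (j + 1)) := by
        rw [iterate_derivative_mul, eval_finsetSum, sum_mul]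
        refine (abs_sum_le_sum_abs _ _).trans (sum_le_sum fun k _ => ?_)
        rw [nsmul_eq_mul, eval_mul, eval_natCast, eval_mul, abs_mul, abs_mul,
          ← Function.iterate_succ_apply, ← Function.iterate_succ_apply]
        have h1 := hCc (i - k) P F x Φ Λ hΦ hΛ h hF
        have h2 := h (k + 2) (by omega)
        have h3 : |((i.choose k : ℕ) : ℝ)| = (i.choose k : ℝ) := abs_of_nonneg (Nat.cast_nonneg _)
        rw [h3]
        have h4 := hCc0 (i - k)
        calc (i.choose k : ℝ) * (|(derivative^[i - k] (Nm P F j)).eval x| *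
              |(derivative^[k.succ.succ] P).eval x|)
            ≤ (i.choose k : ℝ) * ((Cc (i - k) * (Φ * Λ ^ j)) * Λ) := by
              gcongr
          _ = _ := by ring
      show |(derivative^[i] (derivative (Nm P F j) * derivative P -
        C (2 * (j : ℝ) + 1) * (Nm P F j * derivative (derivative P)))).eval x| ≤ _
      rw [iterate_derivative_sub, iterate_derivative_C_mul, eval_sub, eval_mul, eval_C]
      refine (abs_sub _ _).trans ?_
      rw [abs_mul, abs_of_nonneg (by positivity : (0 : ℝ) ≤ 2 * (j : ℝ) + 1)]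
      have h5 : (0 : ℝ) ≤ 2 * (j : ℝ) + 1 := by positivity
      calc _ ≤ (∑ k ∈ range i.succ, (i.choose k : ℝ) * Cc (i - k + 1)) * (Φ * Λ ^ (j + 1)) +
            (2 * (j : ℝ) + 1) * ((∑ k ∈ range i.succ, (i.choose k : ℝ) * Cc (i - k)) *
              (Φ * Λ ^ (j + 1))) := by gcongr
        _ = _ := by ring

/-- the derivatives of `F ∘ g` for the inverse function `g` -/
noncomputable def ph (P F : ℝ[X]) (g : ℝ → ℝ) : ℕ → ℝ → ℝ
  | 0, t => F.eval (g t)
  | j + 1, t => (Nm P F j).eval (g t) / ((derivative P).eval (g t)) ^ (2 * j + 1)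

lemma ph_der {P F : ℝ[X]} {g : ℝ → ℝ} {t : ℝ} (h0 : (derivative P).eval (g t) ≠ 0)
    (hg : HasDerivAt g (((derivative P).eval (g t))⁻¹) t) (m : ℕ) :
    HasDerivAt (ph P F g m) (ph P F g (m + 1) t) t := by
  cases m with
  | zero =>
    have e1 : ph P F g (0 + 1) t = (derivative F).eval (g t) * ((derivative P).eval (g t))⁻¹ := by
      simp [ph, Nm, div_eq_mul_inv]
    rw [e1]
    exact (F.hasDerivAt (g t)).comp t hg
  | succ j =>
    have h1 := ((Nm P F j).hasDerivAt (g t)).comp t hg
    have h2 := (((derivative P).hasDerivAt (g t)).comp t hg).pow (2 * j + 1)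
    have h3 := h1.div h2 (pow_ne_zero _ h0)
    have e1 : ph P F g (j + 1 + 1) t =
        ((derivative (Nm P F j)).eval (g t) * ((derivative P).eval (g t))⁻¹ *
          ((eval · (derivative P)) ∘ g) t ^ (2 * j + 1) -
        ((eval · (Nm P F j)) ∘ g) t * (((2 * j + 1 : ℕ) : ℝ) *
          ((eval · (derivative P)) ∘ g) t ^ (2 * j + 1 - 1) *
            ((derivative (derivative P)).eval (g t) * ((derivative P).eval (g t))⁻¹))) /
        (((eval · (derivative P)) ∘ g) t ^ (2 * j + 1)) ^ 2 := by
      simp only [ph, Nm, Function.comp, eval_sub, eval_mul, eval_C, Nat.add_sub_cancel]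
      rw [div_eq_div_iff (pow_ne_zero _ h0) (pow_ne_zero _ (pow_ne_zero _ h0))]
      set p := (derivative P).eval (g t)
      push_cast
      field_simp
      ring
    rw [e1]
    exact h3

/-- a lower bound for a polynomial away from the real parts of its roots -/
lemma root_avoid (q : ℝ[X]) :
    ∃ E : Finset ℝ, E.card ≤ q.natDegree ∧ ∀ x ρ : ℝ, 0 ≤ ρ → (∀ e ∈ E, ρ ≤ |x - e|) →
      |q.leadingCoeff| * ρ ^ q.natDegree ≤ |q.eval x| := by
  classical
  set Q : ℂ[X] := q.map (algebraMap ℝ ℂ) with hQ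
  refine ⟨(Q.roots.map Complex.re).toFinset, ?_, ?_⟩
  · refine (Multiset.toFinset_card_le _).trans ?_
    rw [Multiset.card_map]
    exact (card_roots' Q).trans natDegree_map_le
  · intro x ρ hρ hE
    have h2 : Q.eval (x : ℂ) = ((q.eval x : ℝ) : ℂ) := by
      rw [hQ, eval_map_algebraMap]
      exact aeval_algebraMap_apply_eq_algebraMap_eval x q
    have h3 : Q.leadingCoeff = ((q.leadingCoeff : ℝ) : ℂ) := by
      rw [hQ, leadingCoeff_map]
      rfl
    have h4 : Multiset.card Q.roots = q.natDegree := by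
      rw [← (IsAlgClosed.splits Q).natDegree_eq_card_roots, hQ, natDegree_map]
    have h1 := (IsAlgClosed.splits Q).eval_eq_prod_roots (x : ℂ)
    have h5 : |q.eval x| = ‖Q.eval (x : ℂ)‖ := by
      rw [h2, Complex.norm_real, Real.norm_eq_abs]
    rw [h5, h1, h3, norm_mul, Complex.norm_real, Real.norm_eq_abs]
    refine mul_le_mul_of_nonneg_left ?_ (abs_nonneg _)
    rw [← h4]
    have h6 : ∀ s : Multiset ℂ, (∀ z ∈ s, ρ ≤ |x - z.re|) →
        ρ ^ Multiset.card s ≤ ‖(s.map (fun z => (x : ℂ) - z)).prod‖ := by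
      intro s
      induction s using Multiset.induction_on with
      | empty => intro _; simp
      | cons z s ih =>
        intro h
        rw [Multiset.map_cons, Multiset.prod_cons, norm_mul, Multiset.card_cons, pow_succ, mul_comm]
        have h7 := h z (Multiset.mem_cons_self z s)
        have h8 := ih (fun w hw => h w (Multiset.mem_cons_of_mem hw))
        have h9 : |x - z.re| ≤ ‖(x : ℂ) - z‖ := by
          have := Complex.abs_re_le_norm ((x : ℂ) - z)
          simpa using this
        have h10 : 0 ≤ ρ ^ Multiset.card s := by positivity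
        exact mul_le_mul (h7.trans h9) h8 h10 (norm_nonneg _)
    refine h6 _ fun z hz => hE _ ?_
    rw [Multiset.mem_toFinset]
    exact Multiset.mem_map_of_mem _ hz

end Pool.Agent.Y933.KG
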