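import Pool.Agent.Y933.KG.Nrm

/-!
# Normality of all elements of small height of the field generated by a root (helper933)
-/

set_option autoImplicit false

namespace Pool.Agent.Y933.KG

open Finset Polynomial Filter MeasureTheory
open Pool.Agent.Y933.KD.VdC (ev_le)

/-- the integral polynomials of degree at most `n` with coefficients at most `T` -/
noncomputable def Fs (n : ℕ) (T : ℤ) : Finset ℤ[X] :=
  open Classical in (Fintype.piFinset fun _ : Fin (n + 1) => Finset.Icc (-T) T).image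
    fun v => ∑ i : Fin (n + 1), C (v i) * X ^ (i : ℕ)

lemma mem_Fs {n : ℕ} {T : ℤ} {f : ℤ[X]} (hf : f.natDegree ≤ n) (hT : ∀ i, |f.coeff i| ≤ T) :
    f ∈ Fs n T := by
  classical
  unfold Fs
  rw [Finset.mem_image]
  refine ⟨fun i => f.coeff i, ?_, ?_⟩
  · rw [Fintype.mem_piFinset]
    intro i
    rw [Finset.mem_Icc, ← abs_le]
    exact hT i
  · rw [Fin.sum_univ_eq_sum_range (fun i => C (f.coeff i) * X ^ i) (n + 1)]
    exact (f.as_sum_range_C_mul_X_pow' (by omega)).symm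

lemma card_Fs (n : ℕ) {T : ℤ} (hT : 0 ≤ T) : ((Fs n T).card : ℝ) ≤ (2 * (T : ℝ) + 1) ^ (n + 1) := by
  classical
  have h1 : (Fs n T).card ≤ (Finset.Icc (-T) T).card ^ (n + 1) := by
    unfold Fs
    refine Finset.card_image_le.trans ?_
    rw [Fintype.card_piFinset_const]
  have h2 : (((Finset.Icc (-T) T).card : ℕ) : ℝ) = 2 * (T : ℝ) + 1 := by
    have h3 : (((Finset.Icc (-T) T).card : ℕ) : ℤ) = 2 * T + 1 := by
      rw [Int.card_Icc, Int.toNat_of_nonneg (by omega)]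
      ring
    exact_mod_cast h3
  calc ((Fs n T).card : ℝ) ≤ (((Finset.Icc (-T) T).card ^ (n + 1) : ℕ) : ℝ) := by exact_mod_cast h1
    _ = _ := by push_cast; rw [h2]

open Classical in
theorem elements (q w : ℕ) (A : ℝ) {ε : ℝ} (hε : 0 < ε) (B : ℕ) :
    ∃ c : ℝ, 0 < c ∧ ∃ κ : ℝ, 0 < κ ∧ ∃ H0 : ℕ, ∀ H : ℕ, H0 ≤ H →
      (((Om q H).filter (fun p => ¬ ∀ (f : ℤ[X]) (m : ℕ), 1 ≤ f.natDegree → f.natDegree ≤ q + 1 →
        (∀ i, |(f.coeff i : ℝ)| ≤ (H : ℝ) ^ κ) → 1 ≤ m → (m : ℝ) ≤ (H : ℝ) ^ κ →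
        ∀ b, 2 ≤ b → b ≤ B → Nc b w (A * Real.log H) (ε * Real.log H)
          (aeval p.2.2 f / m))).card : ℝ) ≤ (Om q H).card * (H : ℝ) ^ (-c) := by
  obtain ⟨c0, hc0, κ0, hκ0, H1, hH1⟩ := all_bases q w A hε B
  have hqR : (0 : ℝ) ≤ q := Nat.cast_nonneg q
  set κ : ℝ := min κ0 (c0 / (2 * (q + 3))) with hκ
  have hκ1 : 0 < κ := lt_min hκ0 (by positivity)
  have hκ2 : κ * (q + 3) ≤ c0 / 2 := by
    have h1 : κ ≤ c0 / (2 * (q + 3)) := min_le_right _ _
    calc κ * (q + 3) ≤ c0 / (2 * (q + 3)) * (q + 3) := by gcongr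
      _ = c0 / 2 := by field_simp
  obtain ⟨H2, hH2⟩ := eventually_atTop.1 (ev_le ((3 : ℝ) ^ (q + 2)) (c0 / 4) (by positivity))
  refine ⟨c0 / 4, by positivity, κ, hκ1, max (max H1 H2) 1, fun H hH => ?_⟩
  have hHa : H1 ≤ H := le_of_max_le_left (le_of_max_le_left hH)
  have hHb : H2 ≤ H := le_of_max_le_right (le_of_max_le_left hH)
  have hHR : (1 : ℝ) ≤ H := by exact_mod_cast le_of_max_le_right hH
  have hHp : (0 : ℝ) < H := by linarith
  set T : ℝ := (H : ℝ) ^ κ with hT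
  have hT1 : 1 ≤ T := Real.one_le_rpow hHR hκ1.le
  set V : Finset (ℤ[X] × ℕ) := (Fs (q + 1) ⌊T⌋) ×ˢ (Finset.Icc 1 ⌊T⌋₊) with hV
  set bad : ℤ[X] × ℕ → Finset (Σ _ : (Fin (q + 2) → ℤ), Σ _ : ℤ, ℝ) := fun z =>
    (Om q H).filter (fun p => 1 ≤ z.1.natDegree ∧ z.1.natDegree ≤ q + 1 ∧
      (∀ i, |(z.1.coeff i : ℝ)| ≤ T) ∧ 1 ≤ z.2 ∧ (z.2 : ℝ) ≤ T ∧
      ¬ ∀ b, 2 ≤ b → b ≤ B → Nc b w (A * Real.log H) (ε * Real.log H)
        (aeval p.2.2 z.1 / z.2)) with hbad
  have hsub : (Om q H).filter (fun p => ¬ ∀ (f : ℤ[X]) (m : ℕ), 1 ≤ f.natDegree →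
      f.natDegree ≤ q + 1 → (∀ i, |(f.coeff i : ℝ)| ≤ T) → 1 ≤ m → (m : ℝ) ≤ T →
      ∀ b, 2 ≤ b → b ≤ B → Nc b w (A * Real.log H) (ε * Real.log H) (aeval p.2.2 f / m)) ⊆
      V.biUnion bad := by
    intro p hp
    rw [Finset.mem_filter] at hp
    obtain ⟨hp1, hp2⟩ := hp
    push Not at hp2
    obtain ⟨f, m, hf1, hf2, hf3, hm1, hm2, b, hb1, hb2, hb3⟩ := hp2
    rw [Finset.mem_biUnion]
    refine ⟨(f, m), ?_, ?_⟩
    · rw [hV, Finset.mem_product]
      constructor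
      · refine mem_Fs hf2 fun i => Int.le_floor.2 ?_
        push_cast
        exact hf3 i
      · rw [Finset.mem_Icc]
        exact ⟨hm1, Nat.le_floor hm2⟩
    · rw [hbad]
      simp only [Finset.mem_filter]
      exact ⟨hp1, hf1, hf2, hf3, hm1, hm2, fun hcon => hb3 (hcon b hb1 hb2)⟩
  have hone : ∀ z ∈ V, ((bad z).card : ℝ) ≤ (Om q H).card * (H : ℝ) ^ (-c0) := by
    intro z _
    by_cases hz : 1 ≤ z.1.natDegree ∧ z.1.natDegree ≤ q + 1 ∧
      (∀ i, |(z.1.coeff i : ℝ)| ≤ T) ∧ 1 ≤ z.2 ∧ (z.2 : ℝ) ≤ T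
    · obtain ⟨hz1, hz2, hz3, hz4, hz5⟩ := hz
      have hm0 : (0 : ℝ) < z.2 := by exact_mod_cast (by omega : 0 < z.2)
      have hm1 : (1 : ℝ) ≤ z.2 := by exact_mod_cast hz4
      set G : ℝ[X] := C (1 / (z.2 : ℝ)) * z.1.map (Int.castRingHom ℝ) with hG
      have hGc : ∀ i, G.coeff i = (z.1.coeff i : ℝ) / z.2 := by
        intro i
        rw [hG, coeff_C_mul, coeff_map]
        simp only [eq_intCast]
        ring
      have hGdeg : G.natDegree = z.1.natDegree := by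
        rw [hG, natDegree_C_mul (by positivity), natDegree_map_eq_of_injective
          (RingHom.injective_int (Int.castRingHom ℝ))]
      have hTκ : T ≤ (H : ℝ) ^ κ0 := Real.rpow_le_rpow_of_exponent_le hHR (min_le_left _ _)
      have key := hH1 H hHa G (by rw [hGdeg]; exact hz1) (by rw [hGdeg]; exact hz2)
        (by
          intro i _
          rw [hGc, abs_div, abs_of_pos hm0]
          refine le_trans ?_ hTκ
          exact (div_le_self (abs_nonneg _) hm1).trans (hz3 i))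
        (by
          rw [leadingCoeff, hGdeg, hGc, abs_div, abs_of_pos hm0]
          have h1 : (1 : ℝ) ≤ |(z.1.coeff z.1.natDegree : ℝ)| := by
            have h2 : z.1.coeff z.1.natDegree ≠ 0 := by
              rw [coeff_natDegree, Ne, leadingCoeff_eq_zero]
              intro h
              rw [h, natDegree_zero] at hz1
              omega
            have h3 : (1 : ℤ) ≤ |z.1.coeff z.1.natDegree| := Int.one_le_abs h2
            exact_mod_cast h3
          calc (H : ℝ) ^ (-κ0) ≤ (H : ℝ) ^ (-κ) :=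
                Real.rpow_le_rpow_of_exponent_le hHR (by linarith [min_le_left κ0 (c0 / (2 * (q + 3)))])
            _ = T⁻¹ := by rw [Real.rpow_neg hHp.le]
            _ ≤ (z.2 : ℝ)⁻¹ := by gcongr
            _ = 1 / z.2 := by rw [one_div]
            _ ≤ _ := by gcongr)
      refine le_trans (Nat.cast_le.2 (Finset.card_le_card fun p hp => ?_)) key
      rw [hbad] at hp
      simp only [Finset.mem_filter] at hp
      rw [Finset.mem_filter]
      refine ⟨hp.1, fun hcon => hp.2.2.2.2.2.2 fun b hb1 hb2 => ?_⟩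
      have h1 := hcon b hb1 hb2
      have h2 : G.eval p.2.2 = aeval p.2.2 z.1 / z.2 := by
        rw [hG, eval_mul, eval_C, eval_map, aeval_def]
        have : (algebraMap ℤ ℝ) = Int.castRingHom ℝ := rfl
        rw [this]
        ring
      rwa [h2] at h1
    · have h1 : bad z = ∅ := by
        rw [hbad]
        simp only
        rw [Finset.filter_eq_empty_iff]
        rintro p _ ⟨h2, h3, h4, h5, h6, _⟩
        exact hz ⟨h2, h3, h4, h5, h6⟩
      rw [h1, Finset.card_empty, Nat.cast_zero]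
      positivity
  have hVcard : ((V.card : ℕ) : ℝ) ≤ 3 ^ (q + 2) * T ^ (q + 3) := by
    rw [hV, Finset.card_product, Nat.card_Icc, Nat.add_sub_cancel]
    push_cast
    have h1 := card_Fs (q + 1) (Int.floor_nonneg.2 (by linarith : (0 : ℝ) ≤ T))
    have h2 := Nat.floor_le (by linarith : (0 : ℝ) ≤ T)
    have h3 := Int.floor_le T
    have h0 : (0 : ℝ) ≤ (⌊T⌋ : ℝ) := by exact_mod_cast Int.floor_nonneg.2 (by linarith : (0 : ℝ) ≤ T)
    calc ((Fs (q + 1) ⌊T⌋).card : ℝ) * (⌊T⌋₊ : ℝ) ≤ (2 * (⌊T⌋ : ℝ) + 1) ^ (q + 1 + 1) * T := by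
          gcongr
      _ ≤ (3 * T) ^ (q + 1 + 1) * T := by
          have : 2 * (⌊T⌋ : ℝ) + 1 ≤ 3 * T := by linarith
          gcongr
      _ = _ := by ring
  calc _ ≤ ((V.biUnion bad).card : ℝ) := by exact_mod_cast Finset.card_le_card hsub
    _ ≤ ∑ z ∈ V, ((bad z).card : ℝ) := by exact_mod_cast Finset.card_biUnion_le
    _ ≤ ∑ _z ∈ V, ((Om q H).card * (H : ℝ) ^ (-c0)) := sum_le_sum hone
    _ = (V.card : ℝ) * ((Om q H).card * (H : ℝ) ^ (-c0)) := by rw [sum_const, nsmul_eq_mul]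
    _ ≤ (3 ^ (q + 2) * T ^ (q + 3)) * ((Om q H).card * (H : ℝ) ^ (-c0)) := by gcongr
    _ ≤ ((H : ℝ) ^ (c0 / 4) * (H : ℝ) ^ (c0 / 2)) * ((Om q H).card * (H : ℝ) ^ (-c0)) := by
        have h1 := hH2 H hHb
        have h2 : T ^ (q + 3) ≤ (H : ℝ) ^ (c0 / 2) := by
          rw [hT, ← Real.rpow_natCast, ← Real.rpow_mul hHp.le]
          apply Real.rpow_le_rpow_of_exponent_le hHR
          push_cast
          exact hκ2
        gcongr
    _ = (Om q H).card * ((H : ℝ) ^ (c0 / 4) * (H : ℝ) ^ (c0 / 2) * (H : ℝ) ^ (-c0)) := by ring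
    _ = _ := by
        rw [← Real.rpow_add hHp, ← Real.rpow_add hHp]
        congr 2
        ring

end Pool.Agent.Y933.KG
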