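import Pool.Agent.Y933.KG.Tot
import Pool.Agent.Y933.KD.Roots

/-!
# The laws of the real roots of all integral polynomials of height at most `H` (helper933)
-/

set_option autoImplicit false

namespace Pool.Agent.Y933.KG

open Finset Polynomial Filter MeasureTheory
open Pool.Agent.Y933.KD.VdC (ev_le)
open Pool.Agent.Y933.KD (unif unif_prob integral_unif hat Good size_freq)

lemma card_Om (q H : ℕ) : (Om q H).card =
    ∑ a ∈ Av q H, ∑ c ∈ Finset.Icc (-(H : ℤ)) H, (by classical exact (pol q a c).roots.toFinset.card) := by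
  classical
  unfold Om
  rw [Finset.card_sigma]
  refine sum_congr rfl fun a _ => ?_
  rw [Finset.card_sigma]

lemma card_Om_le (q H : ℕ) (hH : 1 ≤ H) : ((Om q H).card : ℝ) ≤
    3 ^ (q + 3) * (q + 2) * (H : ℝ) ^ (q + 3) := by
  classical
  have hHR : (1 : ℝ) ≤ H := by exact_mod_cast hH
  have h1 : (Om q H).card ≤ (2 * H + 1) ^ (q + 2) * ((2 * H + 1) * (q + 2)) := by
    rw [card_Om]
    calc _ ≤ ∑ _a ∈ Av q H, ∑ _c ∈ Finset.Icc (-(H : ℤ)) H, (q + 2) :=
          sum_le_sum fun a _ => sum_le_sum fun c _ => roots_card q a c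
      _ = _ := by
          rw [sum_const, sum_const, card_Icc_H, card_Av, smul_eq_mul, smul_eq_mul]
  calc ((Om q H).card : ℝ) ≤ (2 * (H : ℝ) + 1) ^ (q + 2) * ((2 * H + 1) * (q + 2)) := by
        exact_mod_cast h1
    _ ≤ (3 * (H : ℝ)) ^ (q + 2) * ((3 * H) * (q + 2)) := by
        have : 2 * (H : ℝ) + 1 ≤ 3 * H := by linarith
        gcongr
    _ = _ := by ring

lemma card_Om_ge (q H : ℕ) (hH : 2 ≤ H) : (H : ℝ) ^ (q + 3) / 8 ≤ ((Om q H).card : ℝ) := by
  classical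
  set S : Finset (Fin (q + 2) → ℤ) := Fintype.piFinset fun i : Fin (q + 2) =>
    if i = Fin.last (q + 1) then Finset.Icc (((H / 2 : ℕ) : ℤ) + 1) H else Finset.Icc (0 : ℤ) H with hS
  set T : Finset ℤ := Finset.Icc (-((H / 2 : ℕ) : ℤ)) (-1) with hT
  have hSsub : S ⊆ Av q H := by
    intro a ha
    rw [mem_Av]
    intro i
    rw [hS, Fintype.mem_piFinset] at ha
    have := ha i
    split_ifs at this with hi
    · rw [Finset.mem_Icc] at this
      rw [abs_le]; constructor <;> omega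
    · rw [Finset.mem_Icc] at this
      rw [abs_le]; constructor <;> omega
  have hTsub : T ⊆ Finset.Icc (-(H : ℤ)) H := by
    intro c hc
    rw [hT, Finset.mem_Icc] at hc
    rw [Finset.mem_Icc]
    constructor <;> omega
  have hroot : ∀ a ∈ S, ∀ c ∈ T, 1 ≤ (pol q a c).roots.toFinset.card := by
    intro a ha c hc
    rw [hS, Fintype.mem_piFinset] at ha
    rw [hT, Finset.mem_Icc] at hc
    have h0 : (pol q a c).eval 0 < 0 := by
      rw [← coeff_zero_eq_eval_zero, pol_coeff_zero]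
      have : c < 0 := by omega
      exact_mod_cast this
    have h1 : 0 < (pol q a c).eval 1 := by
      have h2 : (pol q a c).eval 1 = ((∑ i, a i + c : ℤ) : ℝ) := by
        unfold pol
        rw [eval_add, eval_C, eval_finsetSum]
        push_cast
        congr 1
        refine sum_congr rfl fun i _ => ?_
        rw [eval_mul, eval_C, eval_pow, eval_X, one_pow, mul_one]
      rw [h2]
      have h3 : a (Fin.last (q + 1)) ≤ ∑ i, a i := by
        refine Finset.single_le_sum (f := a) (fun i _ => ?_) (Finset.mem_univ _)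
        have := ha i
        split_ifs at this with hi
        · rw [Finset.mem_Icc] at this; omega
        · rw [Finset.mem_Icc] at this; omega
      have h4 := ha (Fin.last (q + 1))
      rw [if_pos rfl, Finset.mem_Icc] at h4
      have : 0 < ∑ i, a i + c := by omega
      exact_mod_cast this
    obtain ⟨x, _, hx⟩ := intermediate_value_Icc (zero_le_one' ℝ)
      (f := fun x => (pol q a c).eval x) (pol q a c).continuous.continuousOn ⟨h0.le, h1.le⟩
    refine Finset.card_pos.2 ⟨x, ?_⟩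
    rw [Multiset.mem_toFinset, mem_roots]
    · exact hx
    · intro h
      rw [h, eval_zero] at h0
      exact lt_irrefl _ h0
  have hcount : S.card * T.card ≤ (Om q H).card := by
    rw [card_Om]
    calc S.card * T.card = ∑ _a ∈ S, ∑ _c ∈ T, 1 := by simp
      _ ≤ ∑ a ∈ S, ∑ c ∈ T, (pol q a c).roots.toFinset.card :=
          sum_le_sum fun a ha => sum_le_sum fun c hc => hroot a ha c hc
      _ ≤ ∑ a ∈ S, ∑ c ∈ Finset.Icc (-(H : ℤ)) H, (pol q a c).roots.toFinset.card :=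
          sum_le_sum fun a _ => Finset.sum_le_sum_of_subset hTsub
      _ ≤ _ := Finset.sum_le_sum_of_subset hSsub
  have hScard : S.card = (H + 1) ^ (q + 1) * (H - H / 2) := by
    rw [hS, Fintype.card_piFinset, Fin.prod_univ_castSucc]
    simp only [Fin.castSucc_ne_last, if_false, if_true]
    rw [Finset.prod_const, Finset.card_univ, Fintype.card_fin, Int.card_Icc, Int.card_Icc]
    congr 1
    congr 1
    omega
  have hTcard : T.card = H / 2 := by
    rw [hT, Int.card_Icc]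
    omega
  rw [hScard, hTcard] at hcount
  have h5 : (H : ℝ) / 2 ≤ ((H - H / 2 : ℕ) : ℝ) := by
    have : H ≤ 2 * (H - H / 2) := by omega
    have : (H : ℝ) ≤ 2 * ((H - H / 2 : ℕ) : ℝ) := by exact_mod_cast this
    linarith
  have h6 : (H : ℝ) / 4 ≤ ((H / 2 : ℕ) : ℝ) := by
    have : H ≤ 4 * (H / 2) := by omega
    have : (H : ℝ) ≤ 4 * ((H / 2 : ℕ) : ℝ) := by exact_mod_cast this
    linarith
  have h7 : (((H + 1) ^ (q + 1) * (H - H / 2) * (H / 2) : ℕ) : ℝ) ≤ ((Om q H).card : ℝ) := by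
    exact_mod_cast hcount
  refine le_trans ?_ h7
  calc (H : ℝ) ^ (q + 3) / 8 = (H : ℝ) ^ (q + 1) * ((H : ℝ) / 2) * ((H : ℝ) / 4) := by ring
    _ ≤ ((H : ℝ) + 1) ^ (q + 1) * ((H - H / 2 : ℕ) : ℝ) * ((H / 2 : ℕ) : ℝ) := by
        gcongr
        linarith
    _ = _ := by push_cast; ring

/-- the laws of `b ^ n G(x)` for the real roots `x` of the polynomials of height at most `H`, where
`n` is about `δ₀ log H` and the polynomial `G` has degree `1, …, q + 1` and small coefficients -/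
def SA (q b : ℕ) (δ₀ κ : ℝ) (H : ℕ) : Set (Measure ℝ) :=
  {P | 2 ≤ H ∧ ∃ G : ℝ[X], 1 ≤ G.natDegree ∧ G.natDegree ≤ q + 1 ∧
    (∀ i, 1 ≤ i → |G.coeff i| ≤ (H : ℝ) ^ κ) ∧ (H : ℝ) ^ (-κ) ≤ |G.leadingCoeff| ∧
    P = unif (Om q H) (fun p => (b : ℝ) ^ ⌈δ₀ * Real.log H⌉₊ * G.eval p.2.2)}

lemma SA_mono {q b : ℕ} {δ₀ κ κ' : ℝ} (h : κ' ≤ κ) (H : ℕ) : SA q b δ₀ κ' H ⊆ SA q b δ₀ κ H := by
  rintro P ⟨h2, G, h3, h4, h5, h6, h7⟩
  have hH : (1 : ℝ) ≤ H := by exact_mod_cast (by omega : 1 ≤ H)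
  refine ⟨h2, G, h3, h4, fun i hi => (h5 i hi).trans ?_, le_trans ?_ h6, h7⟩
  · exact Real.rpow_le_rpow_of_exponent_le hH h
  · exact Real.rpow_le_rpow_of_exponent_le hH (by linarith)

lemma Om_nonempty (q H : ℕ) (hH : 2 ≤ H) : (Om q H).Nonempty := by
  rw [← Finset.card_pos]
  have h1 := card_Om_ge q H hH
  have h2 : (0 : ℝ) < (H : ℝ) ^ (q + 3) / 8 := by
    have : (0 : ℝ) < H := by exact_mod_cast (by omega : 0 < H)
    positivity
  have h3 := h2.trans_le h1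
  exact_mod_cast h3

lemma SA_prob (q b : ℕ) (δ₀ κ : ℝ) (H : ℕ) (_hH : 1 ≤ H) (P : Measure ℝ)
    (hP : P ∈ SA q b δ₀ κ H) : IsProbabilityMeasure P := by
  obtain ⟨h2, G, _, _, _, _, rfl⟩ := hP
  exact unif_prob (Om_nonempty q H h2) _

theorem good_alg (q b : ℕ) (hb : 2 ≤ b) {δ₀ : ℝ} (hδ₀ : 0 < δ₀) (B k : ℕ) (A : ℝ) :
    ∃ κ : ℝ, 0 < κ ∧ Good B k A (SA q b δ₀ κ) := by
  have hbR : (2 : ℝ) ≤ b := by exact_mod_cast hb
  have hlb : 0 < Real.log b := Real.log_pos (by linarith)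
  set W : ℝ := 1 + 1 + A * Real.log B + (1 + δ₀ * Real.log b) with hW
  set K : ℕ := ⌈W⌉₊ + 1 with hK
  set δ1 : ℝ := δ₀ * Real.log b with hδ1
  have hδ10 : 0 < δ1 := by positivity
  obtain ⟨κ, hκ, ρ, hρ, hρ1, Cc, hCc, H0, hH0⟩ := tot_sum q K (by omega) δ1 hδ10
  obtain ⟨H1, hH1⟩ := eventually_atTop.1 (ev_le (8 * Cc) (ρ / 2) (by positivity))
  refine ⟨κ, hκ, ρ / 2, by positivity, max (max H0 H1) (max (max k b) 2), ?_⟩
  intro H hH P hP bb n h hbb hn hh hne
  obtain ⟨h2, G, hG1, hG2, hG3, hG4, rfl⟩ := hP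
  have hHH0 : H0 ≤ H := le_of_max_le_left (le_of_max_le_left hH)
  have hHH1 : H1 ≤ H := le_of_max_le_right (le_of_max_le_left hH)
  have hHk : k ≤ H := le_of_max_le_left (le_of_max_le_left (le_of_max_le_right hH))
  have hHb : b ≤ H := le_of_max_le_right (le_of_max_le_left (le_of_max_le_right hH))
  have hHR : (2 : ℝ) ≤ H := by exact_mod_cast h2
  have hH1R : (1 : ℝ) ≤ H := by linarith
  have hHp : (0 : ℝ) < H := by linarith
  have hlogH : 0 < Real.log H := Real.log_pos (by linarith)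
  set l : ℤ := ∑ i, h i * (bb i : ℤ) ^ n i with hl
  have hl1 : (1 : ℝ) ≤ |(l : ℝ)| := by
    have : (1 : ℤ) ≤ |l| := Int.one_le_abs hne
    exact_mod_cast this
  have hl2 : |(l : ℝ)| ≤ (H : ℝ) ^ (1 + 1 + A * Real.log B) := by
    refine (size_freq (by omega) hHk bb n h hbb hn hh).trans ?_
    apply Real.rpow_le_rpow_of_exponent_le hH1R
    linarith
  set n0 : ℕ := ⌈δ₀ * Real.log H⌉₊ with hn0
  have hb1 : (H : ℝ) ^ δ1 ≤ (b : ℝ) ^ n0 := by
    have e1 : (H : ℝ) ^ δ1 = (b : ℝ) ^ (δ₀ * Real.log H) := by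
      rw [Real.rpow_def_of_pos hHp, Real.rpow_def_of_pos (by linarith), hδ1]
      congr 1
      ring
    rw [e1, ← Real.rpow_natCast]
    exact Real.rpow_le_rpow_of_exponent_le (by linarith) (Nat.le_ceil _)
  have hb2 : (b : ℝ) ^ n0 ≤ (H : ℝ) ^ (1 + δ1) := by
    have h3 : (n0 : ℝ) ≤ δ₀ * Real.log H + 1 := (Nat.ceil_lt_add_one (by positivity)).le
    calc (b : ℝ) ^ n0 = (b : ℝ) ^ ((n0 : ℕ) : ℝ) := (Real.rpow_natCast _ _).symm
      _ ≤ (b : ℝ) ^ (δ₀ * Real.log H + 1) := Real.rpow_le_rpow_of_exponent_le (by linarith) h3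
      _ = (H : ℝ) ^ δ1 * b := by
          rw [Real.rpow_add (by linarith), Real.rpow_one, Real.rpow_def_of_pos hHp,
            Real.rpow_def_of_pos (by linarith), hδ1]
          congr 2
          ring
      _ ≤ (H : ℝ) ^ δ1 * (H : ℝ) ^ (1 : ℝ) := by
          rw [Real.rpow_one]
          have : (b : ℝ) ≤ H := by exact_mod_cast hHb
          gcongr
      _ = _ := by rw [← Real.rpow_add hHp, add_comm]
  have hθ1 : (H : ℝ) ^ δ1 ≤ |(l : ℝ) * (b : ℝ) ^ n0| := by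
    rw [abs_mul, abs_of_nonneg (by positivity : (0 : ℝ) ≤ (b : ℝ) ^ n0)]
    have : 0 ≤ (b : ℝ) ^ n0 := by positivity
    nlinarith
  have hθ2 : |(l : ℝ) * (b : ℝ) ^ n0| ≤ (H : ℝ) ^ (K : ℝ) := by
    rw [abs_mul, abs_of_nonneg (by positivity : (0 : ℝ) ≤ (b : ℝ) ^ n0)]
    calc |(l : ℝ)| * (b : ℝ) ^ n0 ≤ (H : ℝ) ^ (1 + 1 + A * Real.log B) * (H : ℝ) ^ (1 + δ1) := by
          gcongr
      _ = (H : ℝ) ^ W := by rw [← Real.rpow_add hHp, hW, hδ1]
      _ ≤ (H : ℝ) ^ (K : ℝ) := by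
          apply Real.rpow_le_rpow_of_exponent_le hH1R
          rw [hK]
          push_cast
          linarith [Nat.le_ceil W]
  have key := hH0 H hHH0 G hG1 hG2 hG3 hG4 _ hθ1 hθ2
  unfold hat
  rw [integral_unif]
  have hcard := card_Om_ge q H h2
  have hcard0 : (0 : ℝ) < ((Om q H).card : ℝ) := by
    exact_mod_cast (Om_nonempty q H h2).card_pos
  have e1 : ∑ p ∈ Om q H, Pool.Agent.Y933.KD.e (l * ((b : ℝ) ^ n0 * G.eval p.2.2)) =
      ∑ p ∈ Om q H, Pool.Agent.H469R2.NK.e ((l : ℝ) * (b : ℝ) ^ n0 * G.eval p.2.2) := by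
    refine sum_congr rfl fun p _ => ?_
    rw [← mul_assoc]
    rfl
  rw [e1, norm_mul, norm_div, norm_one, Complex.norm_natCast]
  rw [one_div, inv_mul_le_iff₀ hcard0]
  refine key.trans ?_
  have h8 := hH1 H hHH1
  calc Cc * (H : ℝ) ^ ((q : ℝ) + 3 - ρ) ≤ ((H : ℝ) ^ (ρ / 2) / 8) * (H : ℝ) ^ ((q : ℝ) + 3 - ρ) := by
        gcongr
        linarith
    _ = (H : ℝ) ^ (q + 3) / 8 * (H : ℝ) ^ (-(ρ / 2)) := by
        rw [← Real.rpow_natCast (H : ℝ) (q + 3)]
        have e2 : (H : ℝ) ^ (ρ / 2) * (H : ℝ) ^ ((q : ℝ) + 3 - ρ) =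
            (H : ℝ) ^ (((q + 3 : ℕ) : ℝ)) * (H : ℝ) ^ (-(ρ / 2)) := by
          rw [← Real.rpow_add hHp, ← Real.rpow_add hHp]
          congr 1
          push_cast
          ring
        calc (H : ℝ) ^ (ρ / 2) / 8 * (H : ℝ) ^ ((q : ℝ) + 3 - ρ) =
              ((H : ℝ) ^ (ρ / 2) * (H : ℝ) ^ ((q : ℝ) + 3 - ρ)) / 8 := by ring
          _ = _ := by rw [e2]; ring
    _ ≤ ((Om q H).card : ℝ) * (H : ℝ) ^ (-(ρ / 2)) := by gcongr

end Pool.Agent.Y933.KG
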