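import Pool.Agent.Y933.KG.Pm
import Pool.Agent.Y933.KG.Der

/-!
# Exponential sums over the points where a polynomial takes integral values (helper933)
-/

set_option autoImplicit false

namespace Pool.Agent.Y933.KG

open Finset Polynomial
open Pool.Agent.H469R2.NK (e norm_e e_add)

lemma inv_fun (P : ℝ[X]) {x1 x2 r : ℝ} (h12 : x1 ≤ x2) (hr : 0 < r)
    (h0 : ∀ x ∈ Set.Ioo (x1 - r) (x2 + r), (derivative P).eval x ≠ 0) :
    ∃ g : ℝ → ℝ, (∀ x ∈ Set.Icc x1 x2, g (P.eval x) = x) ∧
      ∀ t ∈ Set.uIcc (P.eval x1) (P.eval x2), g t ∈ Set.Icc x1 x2 ∧ P.eval (g t) = t ∧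
        HasDerivAt g (((derivative P).eval (g t))⁻¹) t := by
  set J : Set ℝ := Set.Ioo (x1 - r) (x2 + r) with hJ
  have hsub : Set.Icc x1 x2 ⊆ J := fun x hx => ⟨by linarith [hx.1], by linarith [hx.2]⟩
  have hinj : Set.InjOn (fun x => P.eval x) J := by
    have key : ∀ a ∈ J, ∀ b ∈ J, a < b → P.eval a ≠ P.eval b := by
      intro a ha b hb hab heq
      obtain ⟨c, hc, hc0⟩ := exists_hasDerivAt_eq_zero (f := fun x => P.eval x)
        (f' := fun x => (derivative P).eval x) hab P.continuous.continuousOn heq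
        (fun x _ => P.hasDerivAt x)
      exact h0 c ⟨ha.1.trans hc.1, hc.2.trans hb.2⟩ hc0
    intro a ha b hb hab
    rcases lt_trichotomy a b with h | h | h
    · exact absurd hab (key a ha b hb h)
    · exact h
    · exact absurd hab.symm (key b hb a ha h)
  set g : ℝ → ℝ := Function.invFunOn (fun x => P.eval x) J with hg
  have hgl : ∀ x ∈ J, g (P.eval x) = x := fun x hx => hinj.leftInvOn_invFunOn hx
  refine ⟨g, fun x hx => hgl x (hsub hx), ?_⟩
  intro t ht
  obtain ⟨x, hx, hxt⟩ := intermediate_value_uIcc (f := fun x => P.eval x)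
    (P.continuous.continuousOn) ht
  rw [Set.uIcc_of_le h12] at hx
  simp only at hxt
  have hxJ := hsub hx
  have h1 : g t = x := by rw [← hxt]; exact hgl x hxJ
  refine ⟨h1 ▸ hx, h1 ▸ hxt, ?_⟩
  rw [h1, ← hxt]
  have h2 : HasStrictDerivAt (fun x => P.eval x) ((derivative P).eval x) x := P.hasStrictDerivAt x
  refine (h2.to_local_left_inverse (h0 x hxJ) ?_).hasDerivAt
  exact Filter.eventually_of_mem (isOpen_Ioo.mem_nhds hxJ) hgl

/-- the sum over the points of an interval where `P` takes integral values -/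
theorem comp_sum (K : ℕ) (hK0 : 1 ≤ K) (μ : ℝ) (hμ : 0 < μ) (hμ1 : μ ≤ 1 / 4) :
    ∃ ρ : ℝ, 0 < ρ ∧ ∃ M0 : ℕ, ∀ M : ℕ, M0 ≤ M → ∀ (P F : ℝ[X]) (X : Finset ℝ) (lo hi r : ℝ),
      0 < lo → 0 < r → X.card ≤ M →
      (∀ x ∈ X, ∃ c : ℤ, P.eval x = c) →
      (∀ x1 ∈ X, ∀ x2 ∈ X, ∀ x, x1 ≤ x → x ≤ x2 → (∃ c : ℤ, P.eval x = c) → x ∈ X) →
      (∀ x1 ∈ X, ∀ x2 ∈ X, x1 ≤ x2 → ∀ x, x1 - r < x → x < x2 + r →
        (derivative P).eval x ≠ 0) →
      (∀ x1 ∈ X, ∀ x2 ∈ X, ∀ x, x1 ≤ x → x ≤ x2 →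
        lo ≤ |(Nm P F K).eval x / ((derivative P).eval x) ^ (2 * K + 1)| ∧
        |(Nm P F K).eval x / ((derivative P).eval x) ^ (2 * K + 1)| ≤ hi ∧
        (Nm P F (K + 1)).eval x ≠ 0) →
      ∀ θ : ℝ, θ ≠ 0 → hi ≤ lo * (M : ℝ) ^ (μ / 4) → |θ| * lo ≤ (M : ℝ) ^ (-μ) →
      (M : ℝ) ^ (-((K : ℝ) + 1) + μ) ≤ |θ| * lo →
      ‖∑ x ∈ X, e (θ * F.eval x)‖ ≤ 2 + (M : ℝ) ^ (1 - ρ) := by
  classical
  obtain ⟨ρ, hρ, M0, hM0⟩ := core_pm K hK0 μ hμ hμ1
  refine ⟨ρ, hρ, M0, ?_⟩
  intro M hM P F X lo hi r hlo hr hcard hint hclo hder hsz θ hθ hhi hup hlow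
  have hMp : (0 : ℝ) ≤ (M : ℝ) ^ (1 - ρ) := by positivity
  rcases le_or_gt X.card 2 with hX | hX
  · calc ‖∑ x ∈ X, e (θ * F.eval x)‖ ≤ ∑ x ∈ X, ‖e (θ * F.eval x)‖ := norm_sum_le _ _
      _ = X.card := by simp [norm_e]
      _ ≤ 2 := by exact_mod_cast hX
      _ ≤ _ := by linarith
  · have hne : X.Nonempty := Finset.card_pos.1 (by omega)
    set x1 := X.min' hne with hx1
    set x2 := X.max' hne with hx2
    have hx1m : x1 ∈ X := X.min'_mem hne
    have hx2m : x2 ∈ X := X.max'_mem hne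
    have h12 : x1 ≤ x2 := X.min'_le _ hx2m
    have hmem : ∀ x, x ∈ X ↔ x1 ≤ x ∧ x ≤ x2 ∧ ∃ c : ℤ, P.eval x = c := by
      intro x
      constructor
      · intro hx
        exact ⟨X.min'_le _ hx, X.le_max' _ hx, hint x hx⟩
      · rintro ⟨h1, h2, h3⟩
        exact hclo x1 hx1m x2 hx2m x h1 h2 h3
    obtain ⟨c1, hc1⟩ := hint x1 hx1m
    obtain ⟨c2, hc2⟩ := hint x2 hx2m
    obtain ⟨g, hg1, hg2⟩ := inv_fun P h12 hr
      (fun x hx => hder x1 hx1m x2 hx2m h12 x hx.1 hx.2)
    set cm : ℤ := min c1 c2 with hcm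
    set cM : ℤ := max c1 c2 with hcM
    have hcmM : cm ≤ cM := min_le_max
    have huI : ∀ t : ℝ, t ∈ Set.Icc (cm : ℝ) cM → t ∈ Set.uIcc (P.eval x1) (P.eval x2) := by
      intro t ht
      rw [hc1, hc2, Set.uIcc, Set.mem_Icc]
      rw [hcm, hcM] at ht
      push_cast at ht
      exact ht
    -- the points are the values of `g`
    set L2 : ℕ := (cM - cm).toNat + 1 with hL2
    have hL2' : ((L2 : ℤ)) = cM - cm + 1 := by
      rw [hL2]
      push_cast
      rw [Int.toNat_of_nonneg (by omega)]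
    have himg : X = (range L2).image (fun n : ℕ => g ((cm : ℝ) + n)) := by
      ext x
      rw [hmem, Finset.mem_image]
      constructor
      · rintro ⟨h1, h2, c, hc⟩
        have hmono : P.eval x ∈ Set.uIcc (P.eval x1) (P.eval x2) := by
          by_contra hcon
          -- otherwise there are two points with the same value
          have hxx : x ∈ Set.Icc x1 x2 := ⟨h1, h2⟩
          rw [Set.mem_uIcc] at hcon
          push Not at hcon
          have hinj : ∀ a ∈ Set.Icc x1 x2, ∀ b ∈ Set.Icc x1 x2, P.eval a = P.eval b → a = b := by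
            intro a ha b hb hab
            rw [← hg1 a ha, ← hg1 b hb, hab]
          have hiv1 : Set.uIcc (P.eval x1) (P.eval x) ⊆ (fun y => P.eval y) '' Set.uIcc x1 x :=
            intermediate_value_uIcc P.continuous.continuousOn
          have hiv2 : Set.uIcc (P.eval x) (P.eval x2) ⊆ (fun y => P.eval y) '' Set.uIcc x x2 :=
            intermediate_value_uIcc P.continuous.continuousOn
          rw [Set.uIcc_of_le h1] at hiv1
          rw [Set.uIcc_of_le h2] at hiv2
          -- the position of the value of `x`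
          have hcase : P.eval x2 ∈ Set.uIcc (P.eval x1) (P.eval x) ∨
              P.eval x1 ∈ Set.uIcc (P.eval x) (P.eval x2) := by
            rw [Set.mem_uIcc, Set.mem_uIcc]
            rcases le_total (P.eval x1) (P.eval x2) with h3 | h3
            · rcases le_total (P.eval x1) (P.eval x) with h4 | h4
              · have := hcon.1 h4
                exact Or.inl (Or.inl ⟨h3, this.le⟩)
              · exact Or.inr (Or.inl ⟨h4, h3⟩)
            · rcases le_total (P.eval x2) (P.eval x) with h4 | h4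
              · have := hcon.2 h4
                exact Or.inr (Or.inr ⟨h3, this.le⟩)
              · exact Or.inl (Or.inr ⟨h4, h3⟩)
          rcases hcase with h3 | h3
          · obtain ⟨y, hy, hy2⟩ := hiv1 h3
            have h4 := hinj y ⟨hy.1, hy.2.trans h2⟩ x2 ⟨h12, le_rfl⟩ hy2
            have h5 : x = x2 := le_antisymm h2 (h4 ▸ hy.2)
            rw [h5] at hcon
            rcases le_total (P.eval x1) (P.eval x2) with h6 | h6
            · exact absurd (hcon.1 h6) (lt_irrefl _)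
            · exact absurd (hcon.2 le_rfl) (not_lt.2 h6)
          · obtain ⟨y, hy, hy2⟩ := hiv2 h3
            have h4 := hinj y ⟨h1.trans hy.1, hy.2⟩ x1 ⟨le_rfl, h12⟩ hy2
            have h5 : x = x1 := le_antisymm (h4 ▸ hy.1) h1
            rw [h5] at hcon
            rcases le_total (P.eval x1) (P.eval x2) with h6 | h6
            · exact absurd (hcon.1 le_rfl) (not_lt.2 h6)
            · exact absurd (hcon.2 h6) (lt_irrefl _)
        have hcc : cm ≤ c ∧ c ≤ cM := by
          rw [hc, hc1, hc2, Set.uIcc, Set.mem_Icc] at hmono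
          obtain ⟨h3, h4⟩ := hmono
          rw [hcm, hcM]
          constructor
          · exact_mod_cast h3
          · exact_mod_cast h4
        refine ⟨(c - cm).toNat, ?_, ?_⟩
        · rw [Finset.mem_range]
          omega
        · have h3 : (((c - cm).toNat : ℕ) : ℝ) = (c : ℝ) - cm := by
            have : (((c - cm).toNat : ℕ) : ℤ) = c - cm := Int.toNat_of_nonneg (by omega)
            exact_mod_cast this
          simp only [h3]
          rw [add_sub_cancel, ← hc]
          exact hg1 x ⟨h1, h2⟩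
      · rintro ⟨n, hn, rfl⟩
        rw [Finset.mem_range] at hn
        have h3 : (cm : ℝ) + n ∈ Set.Icc (cm : ℝ) cM := by
          constructor
          · have : (0 : ℝ) ≤ n := Nat.cast_nonneg n
            linarith
          · have : cm + (n : ℤ) ≤ cM := by omega
            exact_mod_cast this
        obtain ⟨h4, h5, _⟩ := hg2 _ (huI _ h3)
        exact ⟨h4.1, h4.2, cm + n, by rw [h5]; push_cast; rfl⟩
    have hginj : Set.InjOn (fun n : ℕ => g ((cm : ℝ) + n)) (range L2 : Finset ℕ) := by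
      intro n hn m hm hnm
      have hh : ∀ k : ℕ, k ∈ (range L2 : Finset ℕ) → P.eval (g ((cm : ℝ) + k)) = (cm : ℝ) + k := by
        intro k hk
        rw [Finset.mem_range] at hk
        have h3 : (cm : ℝ) + k ∈ Set.Icc (cm : ℝ) cM := by
          constructor
          · have : (0 : ℝ) ≤ k := Nat.cast_nonneg k
            linarith
          · have : cm + (k : ℤ) ≤ cM := by omega
            exact_mod_cast this
        exact (hg2 _ (huI _ h3)).2.1
      have h3 := hh n hn
      have h4 := hh m hm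
      simp only at hnm
      rw [hnm, h4] at h3
      have h5 : (m : ℝ) = n := by linarith
      exact_mod_cast h5.symm
    have hcardX : X.card = L2 := by
      rw [himg, Finset.card_image_of_injOn hginj, Finset.card_range]
    obtain ⟨L, hL⟩ : ∃ L, L2 = L + 2 := ⟨L2 - 2, by omega⟩
    have hsum : ∑ x ∈ X, e (θ * F.eval x) = e (θ * F.eval (g ((cm : ℝ) + (0 : ℕ)))) +
        ∑ n ∈ range L, e (θ * F.eval (g ((cm : ℝ) + 1 + n))) + e (θ * F.eval (g ((cm : ℝ) + ((L + 1 : ℕ) : ℝ)))) := by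
      rw [himg, Finset.sum_image hginj, hL, Finset.sum_range_succ, Finset.sum_range_succ']
      rw [add_comm (∑ n ∈ range L, _)]
      congr 2
      refine sum_congr rfl fun n _ => ?_
      congr 4
      push_cast
      ring
    have key := hM0 M hM (cm : ℝ) (cM : ℝ) lo hi (ph P F g) hlo
      (by
        intro m t ht
        obtain ⟨h4, h5, h6⟩ := hg2 t (huI t ht)
        refine ph_der ?_ h6 m
        exact hder x1 hx1m x2 hx2m h12 _ (by linarith [h4.1]) (by linarith [h4.2]))
      (by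
        intro t ht
        obtain ⟨h4, _, _⟩ := hg2 t (huI t ht)
        exact (hsz x1 hx1m x2 hx2m _ h4.1 h4.2).1)
      (by
        intro t ht
        obtain ⟨h4, _, _⟩ := hg2 t (huI t ht)
        exact (hsz x1 hx1m x2 hx2m _ h4.1 h4.2).2.1)
      (by
        intro t ht
        obtain ⟨h4, _, _⟩ := hg2 t (huI t ht)
        have h7 := (hsz x1 hx1m x2 hx2m _ h4.1 h4.2).2.2
        have h8 := hder x1 hx1m x2 hx2m h12 (g t) (by linarith [h4.1]) (by linarith [h4.2])
        exact div_ne_zero h7 (pow_ne_zero _ h8))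
      θ ((cm : ℝ) + 1) L (by omega) le_rfl
      (by
        have h3 : cm + 1 + (L : ℤ) ≤ cM := by omega
        exact_mod_cast h3)
      hθ hhi hup hlow
    rw [hsum]
    have h9 : ‖∑ n ∈ range L, e (θ * F.eval (g ((cm : ℝ) + 1 + n)))‖ ≤ (M : ℝ) ^ (1 - ρ) := key
    calc _ ≤ ‖e (θ * F.eval (g ((cm : ℝ) + (0 : ℕ))))‖ + ‖∑ n ∈ range L, e (θ * F.eval (g ((cm : ℝ) + 1 + n)))‖ +
          ‖e (θ * F.eval (g ((cm : ℝ) + ((L + 1 : ℕ) : ℝ))))‖ := norm_add₃_le
      _ ≤ 1 + (M : ℝ) ^ (1 - ρ) + 1 := by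
          rw [norm_e, norm_e]
          linarith
      _ = _ := by ring

end Pool.Agent.Y933.KG
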