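import Pool.Agent.Y933.KG.Red

/-!
# Sums over all algebraic numbers of given degree and height (helper933)
-/

set_option autoImplicit false

namespace Pool.Agent.Y933.KG

open Finset Polynomial

/-- the integral polynomial `c + a 0 X + ⋯ + a (q + 1) X ^ (q + 2)` -/
noncomputable def polZ (q : ℕ) (a : Fin (q + 2) → ℤ) (c : ℤ) : ℤ[X] :=
  ∑ i : Fin (q + 2), C (a i) * X ^ ((i : ℕ) + 1) + C c

lemma polZ_map (q : ℕ) (a : Fin (q + 2) → ℤ) (c : ℤ) :
    (polZ q a c).map (Int.castRingHom ℝ) = pol q a c := by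
  unfold polZ pol
  rw [Polynomial.map_add, Polynomial.map_sum, map_C]
  congr 1
  refine sum_congr rfl fun i _ => ?_
  rw [Polynomial.map_mul, Polynomial.map_pow, map_X, map_C]
  rfl

lemma polZ_cast (q : ℕ) (a : Fin (q + 2) → ℤ) (c : ℤ) (n : ℕ) :
    (((polZ q a c).coeff n : ℤ) : ℝ) = (pol q a c).coeff n := by
  rw [← polZ_map, coeff_map]
  rfl

lemma pz_zero (q : ℕ) (a : Fin (q + 2) → ℤ) (c : ℤ) : (polZ q a c).coeff 0 = c := by
  have h := polZ_cast q a c 0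
  rw [pol_coeff_zero] at h
  exact_mod_cast h

lemma pz_succ (q : ℕ) (a : Fin (q + 2) → ℤ) (c : ℤ) (i : Fin (q + 2)) :
    (polZ q a c).coeff ((i : ℕ) + 1) = a i := by
  have h := polZ_cast q a c ((i : ℕ) + 1)
  rw [pol_coeff_succ] at h
  exact_mod_cast h

lemma pz_big (q : ℕ) (a : Fin (q + 2) → ℤ) (c : ℤ) {n : ℕ} (hn : q + 2 < n) :
    (polZ q a c).coeff n = 0 := by
  have h := polZ_cast q a c n
  rw [pol_coeff_big q a c hn] at h
  exact_mod_cast h

lemma pz_cases (q : ℕ) (a : Fin (q + 2) → ℤ) (c : ℤ) (p : ℤ → Prop) (h0 : p 0) (hc : p c)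
    (ha : ∀ i, p (a i)) (n : ℕ) : p ((polZ q a c).coeff n) := by
  rcases Nat.eq_zero_or_pos n with rfl | hn
  · rw [pz_zero]; exact hc
  · rcases le_or_gt n (q + 2) with h | h
    · have h1 := pz_succ q a c ⟨n - 1, by omega⟩
      simp only at h1
      rw [show n - 1 + 1 = n by omega] at h1
      rw [h1]
      exact ha _
    · rw [pz_big q a c h]; exact h0

lemma pz_of {q : ℕ} (P : ℤ[X]) (hP : P.natDegree ≤ q + 2) :
    polZ q (fun i => P.coeff ((i : ℕ) + 1)) (P.coeff 0) = P := by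
  ext n
  rcases Nat.eq_zero_or_pos n with rfl | hn
  · rw [pz_zero]
  · rcases le_or_gt n (q + 2) with h | h
    · have h1 := pz_succ q (fun i => P.coeff ((i : ℕ) + 1)) (P.coeff 0) ⟨n - 1, by omega⟩
      simp only at h1
      rw [show n - 1 + 1 = n by omega] at h1
      exact h1
    · rw [pz_big q _ _ h, coeff_eq_zero_of_natDegree_lt (by omega)]

lemma pz_inj {q : ℕ} {a a' : Fin (q + 2) → ℤ} {c c' : ℤ} (h : polZ q a c = polZ q a' c') :
    a = a' ∧ c = c' := by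
  refine ⟨?_, ?_⟩
  · funext i
    rw [← pz_succ q a c i, h, pz_succ]
  · rw [← pz_zero q a c, h, pz_zero]

lemma pz_natDegree_le (q : ℕ) (a : Fin (q + 2) → ℤ) (c : ℤ) : (polZ q a c).natDegree ≤ q + 2 :=
  natDegree_le_iff_coeff_eq_zero.2 fun _ hn => pz_big q a c hn

lemma pz_natDegree (q : ℕ) {a : Fin (q + 2) → ℤ} (c : ℤ) (h0 : a (Fin.last (q + 1)) ≠ 0) :
    (polZ q a c).natDegree = q + 2 := by
  refine le_antisymm (pz_natDegree_le q a c) (le_natDegree_of_ne_zero ?_)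
  have := pz_succ q a c (Fin.last (q + 1))
  rw [Fin.val_last] at this
  rw [this]
  exact h0

lemma pz_lead (q : ℕ) {a : Fin (q + 2) → ℤ} (c : ℤ) (h0 : a (Fin.last (q + 1)) ≠ 0) :
    (polZ q a c).leadingCoeff = a (Fin.last (q + 1)) := by
  rw [leadingCoeff, pz_natDegree q c h0]
  have := pz_succ q a c (Fin.last (q + 1))
  rw [Fin.val_last] at this
  exact this

lemma pz_ne_iff (q : ℕ) (a : Fin (q + 2) → ℤ) (c : ℤ) : pol q a c ≠ 0 ↔ polZ q a c ≠ 0 := by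
  rw [← polZ_map, Ne, Polynomial.map_eq_zero_iff (RingHom.injective_int _)]

lemma pz_aeval (q : ℕ) (a : Fin (q + 2) → ℤ) (c : ℤ) (x : ℝ) :
    aeval x (polZ q a c) = (pol q a c).eval x := by
  rw [← polZ_map, eval_map, aeval_def]
  rfl

lemma mem_Om {q H : ℕ} {p : Σ _ : (Fin (q + 2) → ℤ), Σ _ : ℤ, ℝ} : p ∈ Om q H ↔
    (∀ i, |p.1 i| ≤ (H : ℤ)) ∧ |p.2.1| ≤ (H : ℤ) ∧ pol q p.1 p.2.1 ≠ 0 ∧
      (pol q p.1 p.2.1).eval p.2.2 = 0 := by
  classical
  unfold Om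
  rw [Finset.mem_sigma, mem_Av, Finset.mem_sigma, Finset.mem_Icc, ← abs_le, Multiset.mem_toFinset]
  constructor
  · rintro ⟨h1, h2, h3⟩
    refine ⟨h1, h2, ?_, ?_⟩
    · intro h
      rw [h] at h3
      simp at h3
    · by_cases h : pol q p.1 p.2.1 = 0
      · rw [h, eval_zero]
      · exact (mem_roots h).1 h3
  · rintro ⟨h1, h2, h3, h4⟩
    exact ⟨h1, h2, (mem_roots h3).2 h4⟩

/-- the greatest common divisor of the coefficients -/
noncomputable def NN (q : ℕ) (p : Σ _ : (Fin (q + 2) → ℤ), Σ _ : ℤ, ℝ) : ℕ :=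
  (polZ q p.1 p.2.1).content.natAbs

lemma dvd_NN {q : ℕ} (p : Σ _ : (Fin (q + 2) → ℤ), Σ _ : ℤ, ℝ) (g : ℕ) :
    g ∣ NN q p ↔ (∀ i, (g : ℤ) ∣ p.1 i) ∧ (g : ℤ) ∣ p.2.1 := by
  unfold NN
  rw [← Int.natCast_dvd, dvd_content_iff_C_dvd, C_dvd_iff_dvd_coeff]
  constructor
  · intro h
    refine ⟨fun i => ?_, ?_⟩
    · have := h ((i : ℕ) + 1)
      rwa [pz_succ] at this
    · have := h 0
      rwa [pz_zero] at this
  · rintro ⟨h1, h2⟩ n
    exact pz_cases q p.1 p.2.1 (fun z => (g : ℤ) ∣ z) (dvd_zero _) h2 h1 n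

lemma NN_ne {q H : ℕ} {p : Σ _ : (Fin (q + 2) → ℤ), Σ _ : ℤ, ℝ} (hp : p ∈ Om q H) :
    NN q p ≠ 0 ∧ NN q p ≤ H := by
  obtain ⟨h1, h2, h3, h4⟩ := mem_Om.1 hp
  rw [pz_ne_iff] at h3
  have h5 : (polZ q p.1 p.2.1).content ≠ 0 := by
    rw [Ne, content_eq_zero_iff]
    exact h3
  refine ⟨by unfold NN; exact Int.natAbs_ne_zero.2 h5, ?_⟩
  obtain ⟨n, hn⟩ : ∃ n, (polZ q p.1 p.2.1).coeff n ≠ 0 := by
    by_contra hcon
    push Not at hcon
    apply h3
    ext n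
    rw [hcon n, coeff_zero]
  have h6 : (polZ q p.1 p.2.1).content ∣ (polZ q p.1 p.2.1).coeff n := content_dvd_coeff n
  have h7 := pz_cases q p.1 p.2.1 (fun z => |z| ≤ (H : ℤ)) (by simp) h2 h1 n
  have h8 : NN q p ≤ ((polZ q p.1 p.2.1).coeff n).natAbs := by
    unfold NN
    exact Nat.le_of_dvd (Int.natAbs_pos.2 hn) (Int.natAbs_dvd_natAbs.2 h6)
  rw [Int.abs_eq_natAbs] at h7
  have h9 : ((polZ q p.1 p.2.1).coeff n).natAbs ≤ H := by exact_mod_cast h7
  omega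

lemma mob_sum {n H : ℕ} (hn : n ≠ 0) (hnH : n ≤ H) :
    ∑ g ∈ (Finset.Icc 1 H).filter (fun g => g ∣ n), ArithmeticFunction.moebius g =
      if n = 1 then 1 else 0 := by
  have h1 : (Finset.Icc 1 H).filter (fun g => g ∣ n) = n.divisors := by
    ext g
    rw [Finset.mem_filter, Finset.mem_Icc, Nat.mem_divisors]
    constructor
    · rintro ⟨_, h⟩
      exact ⟨h, hn⟩
    · rintro ⟨h, _⟩
      exact ⟨⟨Nat.pos_of_dvd_of_pos h (Nat.pos_of_ne_zero hn),
        (Nat.le_of_dvd (Nat.pos_of_ne_zero hn) h).trans hnH⟩, h⟩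
  rw [h1, ← ArithmeticFunction.coe_mul_zeta_apply, ArithmeticFunction.moebius_mul_coe_zeta,
    ArithmeticFunction.one_apply]

lemma pol_scale (q : ℕ) (a : Fin (q + 2) → ℤ) (c g : ℤ) :
    pol q (fun i => g * a i) (g * c) = C (g : ℝ) * pol q a c := by
  unfold pol
  rw [mul_add, Finset.mul_sum, ← C_mul]
  push_cast
  congr 1
  refine sum_congr rfl fun i _ => ?_
  rw [C_mul, mul_assoc]

lemma sum_scale (q H g : ℕ) (hg : 1 ≤ g) (F : ℝ → ℂ) :
    ∑ p ∈ (Om q H).filter (fun p => g ∣ NN q p), F p.2.2 = ∑ p ∈ Om q (H / g), F p.2.2 := by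
  classical
  symm
  have hgZ : (0 : ℤ) < g := by exact_mod_cast hg
  have hgR : ((g : ℤ) : ℝ) ≠ 0 := by
    have : (g : ℤ) ≠ 0 := hgZ.ne'
    exact_mod_cast this
  have hle : ∀ z : ℤ, |z| ≤ ((H / g : ℕ) : ℤ) ↔ |(g : ℤ) * z| ≤ (H : ℤ) := by
    intro z
    rw [abs_mul, abs_of_pos hgZ, Int.abs_eq_natAbs, mul_comm]
    constructor
    · intro h
      have h1 : z.natAbs ≤ H / g := by exact_mod_cast h
      rw [Nat.le_div_iff_mul_le (by omega)] at h1
      exact_mod_cast h1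
    · intro h
      have h1 : z.natAbs * g ≤ H := by exact_mod_cast h
      have h2 := (Nat.le_div_iff_mul_le (by omega : 0 < g)).2 h1
      exact_mod_cast h2
  refine Finset.sum_nbij (fun p => ⟨fun i => (g : ℤ) * p.1 i, (g : ℤ) * p.2.1, p.2.2⟩) ?_ ?_ ?_ ?_
  · intro p hp
    obtain ⟨h1, h2, h3, h4⟩ := mem_Om.1 hp
    rw [Finset.mem_filter]
    refine ⟨mem_Om.2 ⟨fun i => (hle _).1 (h1 i), (hle _).1 h2, ?_, ?_⟩, ?_⟩
    · simp only
      rw [pol_scale]
      exact mul_ne_zero (by rw [Ne, C_eq_zero]; exact hgR) h3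
    · simp only
      rw [pol_scale, eval_mul, h4, mul_zero]
    · rw [dvd_NN]
      exact ⟨fun i => Dvd.intro _ rfl, Dvd.intro _ rfl⟩
  · intro p _ p' _ h
    obtain ⟨a, c, x⟩ := p
    obtain ⟨a', c', x'⟩ := p'
    simp only at h
    have e1 : (fun i => (g : ℤ) * a i) = fun i => (g : ℤ) * a' i :=
      congrArg (fun z : (Σ _ : (Fin (q + 2) → ℤ), Σ _ : ℤ, ℝ) => z.1) h
    have e2 : (g : ℤ) * c = g * c' :=
      congrArg (fun z : (Σ _ : (Fin (q + 2) → ℤ), Σ _ : ℤ, ℝ) => z.2.1) h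
    have e3 : x = x' := congrArg (fun z : (Σ _ : (Fin (q + 2) → ℤ), Σ _ : ℤ, ℝ) => z.2.2) h
    have e4 : a = a' := by
      funext i
      exact mul_left_cancel₀ hgZ.ne' (congrFun e1 i)
    have e5 : c = c' := mul_left_cancel₀ hgZ.ne' e2
    rw [e3, e4, e5]
  · intro p hp
    rw [Finset.mem_coe, Finset.mem_filter] at hp
    obtain ⟨hp1, hp2⟩ := hp
    obtain ⟨h1, h2, h3, h4⟩ := mem_Om.1 hp1
    rw [dvd_NN] at hp2
    obtain ⟨h5, c', hc'⟩ := hp2
    choose a' ha' using h5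
    obtain ⟨a, c, x⟩ := p
    simp only at h1 h2 h3 h4 hc' ha'
    have e1 : a = fun i => (g : ℤ) * a' i := funext ha'
    subst e1
    subst hc'
    rw [pol_scale] at h3 h4
    rw [Set.mem_image]
    refine ⟨⟨a', c', x⟩, ?_, rfl⟩
    rw [Finset.mem_coe, mem_Om]
    refine ⟨fun i => (hle _).2 (h1 i), (hle _).2 h2, ?_, ?_⟩
    · intro h
      apply h3
      simp only at h
      rw [h, mul_zero]
    · rw [eval_mul, eval_C] at h4
      exact (mul_eq_zero.1 h4).resolve_left hgR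
  · intro p _
    rfl

lemma sum_prim (q H : ℕ) (F : ℝ → ℂ) :
    ∑ p ∈ (Om q H).filter (fun p => NN q p = 1), F p.2.2 =
      ∑ g ∈ Finset.Icc 1 H, ((ArithmeticFunction.moebius g : ℤ) : ℂ) * ∑ p ∈ Om q (H / g), F p.2.2 := by
  classical
  have h1 : ∀ g ∈ Finset.Icc 1 H, ((ArithmeticFunction.moebius g : ℤ) : ℂ) *
      ∑ p ∈ Om q (H / g), F p.2.2 = ∑ p ∈ Om q H,
        (if g ∣ NN q p then ((ArithmeticFunction.moebius g : ℤ) : ℂ) else 0) * F p.2.2 := by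
    intro g hg
    rw [Finset.mem_Icc] at hg
    rw [← sum_scale q H g hg.1, Finset.mul_sum, Finset.sum_filter]
    refine sum_congr rfl fun p _ => ?_
    split_ifs <;> simp
  rw [Finset.sum_congr rfl h1, Finset.sum_comm, Finset.sum_filter]
  refine sum_congr rfl fun p hp => ?_
  rw [← Finset.sum_mul]
  obtain ⟨h2, h3⟩ := NN_ne hp
  have h4 := mob_sum h2 h3
  rw [Finset.sum_filter] at h4
  have h5 : ∑ g ∈ Finset.Icc 1 H, (if g ∣ NN q p then ((ArithmeticFunction.moebius g : ℤ) : ℂ) else 0) =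
      ((∑ g ∈ Finset.Icc 1 H, (if g ∣ NN q p then ArithmeticFunction.moebius g else 0) : ℤ) : ℂ) := by
    push_cast
    refine sum_congr rfl fun g _ => ?_
    split_ifs <;> simp
  rw [h5, h4]
  split_ifs <;> simp

lemma irr_neg {P : ℤ[X]} (h : Irreducible P) : Irreducible (-P) :=
  (Associated.neg_left (Associated.refl P)).symm.irreducible h

lemma pz_neg (q : ℕ) (a : Fin (q + 2) → ℤ) (c : ℤ) : polZ q (-a) (-c) = -polZ q a c := by
  unfold polZ
  rw [neg_add, ← Finset.sum_neg_distrib, C_neg]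
  congr 1
  refine sum_congr rfl fun i _ => ?_
  rw [Pi.neg_apply, C_neg, neg_mul]

/-- the elements of the family which belong to irreducible polynomials of full degree, with the
given sign of the leading coefficient -/
lemma sign_sum (q H : ℕ) (F : ℝ → ℂ) (σ : ℤ) (hσ : σ = 1 ∨ σ = -1) (s : Finset ℝ)
    (hs : ∀ x, x ∈ s ↔ x ∈ Alg (q + 2) H)
    [DecidablePred fun p : (Σ _ : (Fin (q + 2) → ℤ), Σ _ : ℤ, ℝ) =>
      0 < σ * p.1 (Fin.last (q + 1)) ∧ Irreducible (polZ q p.1 p.2.1)] :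
    ∑ p ∈ (Om q H).filter (fun p => 0 < σ * p.1 (Fin.last (q + 1)) ∧
      Irreducible (polZ q p.1 p.2.1)), F p.2.2 = ∑ x ∈ s, F x := by
  have hσσ : σ * σ = 1 := by rcases hσ with rfl | rfl <;> norm_num
  have hne : ∀ z : ℤ, 0 < σ * z → z ≠ 0 := by
    rintro z hz rfl
    rw [mul_zero] at hz
    exact lt_irrefl _ hz
  have hirr : ∀ P : ℤ[X], Irreducible P → Irreducible (C σ * P) := by
    intro P hP
    rcases hσ with rfl | rfl
    · rwa [C_1, one_mul]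
    · rw [C_neg, C_1, neg_mul, one_mul]
      exact irr_neg hP
  refine Finset.sum_nbij (fun p => p.2.2) ?_ ?_ ?_ ?_
  · intro p hp
    rw [Finset.mem_filter] at hp
    obtain ⟨hp1, hp2, hp3⟩ := hp
    obtain ⟨h1, h2, h3, h4⟩ := mem_Om.1 hp1
    rw [hs]
    refine ⟨polZ q p.1 p.2.1, hp3, pz_natDegree q _ (hne _ hp2), ?_, ?_⟩
    · intro i
      exact pz_cases q p.1 p.2.1 (fun z => |z| ≤ (H : ℤ)) (by simp) h2 h1 i
    · rw [pz_aeval]
      exact h4
  · intro p hp p' hp' h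
    rw [Finset.mem_coe, Finset.mem_filter] at hp hp'
    obtain ⟨hp1, hp2, hp3⟩ := hp
    obtain ⟨hp1', hp2', hp3'⟩ := hp'
    obtain ⟨h1, h2, h3, h4⟩ := mem_Om.1 hp1
    obtain ⟨h1', h2', h3', h4'⟩ := mem_Om.1 hp1'
    obtain ⟨a, c, x⟩ := p
    obtain ⟨a', c', x'⟩ := p'
    simp only at h hp2 hp3 hp2' hp3' h4 h4'
    subst h
    have hd : ∀ (a : Fin (q + 2) → ℤ) (c : ℤ), 0 < σ * a (Fin.last (q + 1)) →
        (C σ * polZ q a c).natDegree ≠ 0 ∧ 0 < (C σ * polZ q a c).leadingCoeff := by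
      intro a c ha
      refine ⟨?_, ?_⟩
      · rw [natDegree_C_mul (by rintro rfl; simp at hσσ), pz_natDegree q c (hne _ ha)]
        omega
      · rw [leadingCoeff_mul, leadingCoeff_C, pz_lead q c (hne _ ha)]
        exact ha
    have e1 := pol_unique (hirr _ hp3) (hirr _ hp3') (hd a c hp2).2 (hd a' c' hp2').2
      (hd a c hp2).1 (hd a' c' hp2').1 (x := x)
      (by rw [map_mul, pz_aeval, h4, mul_zero]) (by rw [map_mul, pz_aeval, h4', mul_zero])
    have e2 : polZ q a c = polZ q a' c' := by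
      have : C σ * (C σ * polZ q a c) = C σ * (C σ * polZ q a' c') := by rw [e1]
      rwa [← mul_assoc, ← mul_assoc, ← C_mul, hσσ, C_1, one_mul, one_mul] at this
    obtain ⟨e3, e4⟩ := pz_inj e2
    rw [e3, e4]
  · intro x hx
    rw [Finset.mem_coe, hs] at hx
    obtain ⟨P, hP1, hP2, hP3, hP4⟩ := hx
    obtain ⟨τ, hτ, hτ2⟩ : ∃ τ : ℤ, (τ = 1 ∨ τ = -1) ∧ 0 < σ * (τ * P.leadingCoeff) := by
      have hP0 : P.leadingCoeff ≠ 0 := leadingCoeff_ne_zero.2 hP1.ne_zero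
      rcases lt_or_gt_of_ne hP0 with h | h <;> rcases hσ with rfl | rfl
      · exact ⟨-1, Or.inr rfl, by linarith⟩
      · exact ⟨1, Or.inl rfl, by linarith⟩
      · exact ⟨1, Or.inl rfl, by linarith⟩
      · exact ⟨-1, Or.inr rfl, by linarith⟩
    have hτa : |τ| = 1 := by rcases hτ with rfl | rfl <;> norm_num
    have hQirr : Irreducible (C τ * P) := by
      rcases hτ with rfl | rfl
      · rwa [C_1, one_mul]
      · rw [C_neg, C_1, neg_mul, one_mul]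
        exact irr_neg hP1
    have hQd : (C τ * P).natDegree = q + 2 := by
      rw [natDegree_C_mul (by rintro rfl; simp at hτa), hP2]
    have hQH : ∀ i, |(C τ * P).coeff i| ≤ H := by
      intro i
      rw [coeff_C_mul, abs_mul, hτa, one_mul]
      exact hP3 i
    rw [Set.mem_image]
    refine ⟨⟨fun i => (C τ * P).coeff ((i : ℕ) + 1), (C τ * P).coeff 0, x⟩, ?_, rfl⟩
    have hof := pz_of (C τ * P) hQd.le
    rw [Finset.mem_coe, Finset.mem_filter]
    refine ⟨mem_Om.2 ⟨fun i => hQH _, hQH _, ?_, ?_⟩, ?_, ?_⟩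
    · simp only
      rw [pz_ne_iff, hof]
      exact hQirr.ne_zero
    · simp only
      rw [← pz_aeval, hof, map_mul, hP4, mul_zero]
    · simp only [Fin.val_last]
      rw [show q + 1 + 1 = q + 2 by ring, coeff_C_mul, ← hP2]
      exact hτ2
    · simp only
      rw [hof]
      exact hQirr
  · intro p _
    rfl

end Pool.Agent.Y933.KG
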