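import Pool.Agent.Y933.KG.Mob

/-!
# Sums over all algebraic numbers of given degree and height, 2 (helper933)
-/

set_option autoImplicit false

namespace Pool.Agent.Y933.KG

open Finset Polynomial Filter
open Pool.Agent.Y933.KD.VdC (ev_le)

open Classical in
lemma zero_card (q H : ℕ) :
    ((((Om q H).filter (fun p => p.1 (Fin.last (q + 1)) = 0)).card : ℕ) : ℝ) ≤
      3 * (q + 2) * (2 * (H : ℝ) + 1) ^ (q + 2) := by
  classical
  have h1 : (Om q H).filter (fun p => p.1 (Fin.last (q + 1)) = 0) ⊆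
      ((Av q H).filter (fun a => |(a (Fin.last (q + 1)) : ℝ)| < 1)).sigma fun a =>
        (Finset.Icc (-(H : ℤ)) H).sigma fun c => (pol q a c).roots.toFinset := by
    intro p hp
    rw [Finset.mem_filter] at hp
    obtain ⟨hp1, hp2⟩ := hp
    unfold Om at hp1
    rw [Finset.mem_sigma] at hp1 ⊢
    refine ⟨?_, ?_⟩
    · rw [Finset.mem_filter]
      refine ⟨hp1.1, ?_⟩
      rw [hp2]
      norm_num
    · convert hp1.2
  have h2 := Finset.card_le_card h1
  rw [Finset.card_sigma] at h2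
  have h3 : ∑ a ∈ (Av q H).filter (fun a => |(a (Fin.last (q + 1)) : ℝ)| < 1),
      ((Finset.Icc (-(H : ℤ)) H).sigma fun c => (pol q a c).roots.toFinset).card ≤
      ((Av q H).filter (fun a => |(a (Fin.last (q + 1)) : ℝ)| < 1)).card * ((2 * H + 1) * (q + 2)) := by
    refine Finset.sum_le_card_nsmul _ _ _ fun a _ => ?_
    rw [Finset.card_sigma]
    calc _ ≤ ∑ _c ∈ Finset.Icc (-(H : ℤ)) H, (q + 2) :=
          Finset.sum_le_sum fun c _ => roots_card q a c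
      _ = _ := by rw [sum_const, card_Icc_H, smul_eq_mul]
  have h4 := card_small q H 1 zero_le_one
  have h5 : ((((Om q H).filter (fun p => p.1 (Fin.last (q + 1)) = 0)).card : ℕ) : ℝ) ≤
      (((Av q H).filter (fun a => |(a (Fin.last (q + 1)) : ℝ)| < 1)).card : ℝ) *
        ((2 * H + 1) * (q + 2)) := by
    exact_mod_cast h2.trans h3
  refine h5.trans ?_
  calc _ ≤ ((2 * (H : ℝ) + 1) ^ (q + 1) * (2 * 1 + 1)) * ((2 * H + 1) * (q + 2)) := by gcongr
    _ = _ := by ring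

open Classical in
lemma red_card (q H : ℕ) :
    ((((Om q H).filter (fun p => p.1 (Fin.last (q + 1)) ≠ 0 ∧ NN q p = 1 ∧
      ¬ Irreducible (polZ q p.1 p.2.1))).card : ℕ) : ℝ) ≤
      (q + 2) * ((Rc (q + 2) (2 ^ (q + 2) * ((q + 3) * H))).card : ℝ) := by
  classical
  have h1 := Finset.card_le_mul_card_image_of_maps_to
    (s := (Om q H).filter (fun p => p.1 (Fin.last (q + 1)) ≠ 0 ∧ NN q p = 1 ∧
      ¬ Irreducible (polZ q p.1 p.2.1))) (t := Rc (q + 2) (2 ^ (q + 2) * ((q + 3) * H)))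
    (f := fun p => polZ q p.1 p.2.1) ?_ (q + 2) ?_
  · exact_mod_cast h1
  · intro p hp
    rw [Finset.mem_filter] at hp
    obtain ⟨hp1, hp2, hp3, hp4⟩ := hp
    obtain ⟨h1, h2, h3, h4⟩ := mem_Om.1 hp1
    have h6 := mem_Rc (n := q + 2) (H := H) (by omega) (pz_natDegree q p.2.1 hp2) (by
      rw [isPrimitive_iff_content_eq_one]
      have h7 : 0 ≤ (polZ q p.1 p.2.1).content := by
        exact Int.nonneg_of_normalize_eq_self normalize_content
      unfold NN at hp3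
      omega) (fun i => pz_cases q p.1 p.2.1 (fun z => |z| ≤ (H : ℤ)) (by simp) h2 h1 i) hp4
    have e1 : 2 ^ (q + 2) * ((q + 2 + 1) * H) = 2 ^ (q + 2) * ((q + 3) * H) := by ring
    rw [e1] at h6
    exact h6
  · intro P _
    rcases Finset.eq_empty_or_nonempty (((Om q H).filter (fun p => p.1 (Fin.last (q + 1)) ≠ 0 ∧
      NN q p = 1 ∧ ¬ Irreducible (polZ q p.1 p.2.1))).filter
        (fun p => polZ q p.1 p.2.1 = P)) with he | ⟨p0, hp0⟩
    · rw [he, Finset.card_empty]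
      exact Nat.zero_le _
    rw [Finset.mem_filter, Finset.mem_filter] at hp0
    obtain ⟨⟨hp1, _⟩, hp2⟩ := hp0
    obtain ⟨h1, h2, h3, h4⟩ := mem_Om.1 hp1
    refine le_trans ?_ (roots_card q p0.1 p0.2.1)
    refine Finset.card_le_card_of_injOn (fun p => p.2.2) ?_ ?_
    · intro p hp
      rw [Finset.mem_coe, Finset.mem_filter, Finset.mem_filter] at hp
      obtain ⟨⟨hp3, _⟩, hp4⟩ := hp
      obtain ⟨k1, k2, k3, k4⟩ := mem_Om.1 hp3
      have e1 : pol q p0.1 p0.2.1 = pol q p.1 p.2.1 := by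
        rw [← polZ_map, ← polZ_map, hp2, hp4]
      rw [Finset.mem_coe, Multiset.mem_toFinset, mem_roots h3, IsRoot, e1]
      exact k4
    · intro p hp p' hp' h
      rw [Finset.mem_coe, Finset.mem_filter] at hp hp'
      obtain ⟨a, c, x⟩ := p
      obtain ⟨a', c', x'⟩ := p'
      have e1 : polZ q a c = polZ q a' c' := hp.2.trans hp'.2.symm
      obtain ⟨e3, e4⟩ := pz_inj e1
      simp only at h
      rw [e3, e4, h]

open Classical in
/-- few elements of the family belong to primitive polynomials which are reducible or of smaller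
degree -/
lemma bad_card (q : ℕ) : ∃ Cq : ℝ, 0 ≤ Cq ∧ ∀ H : ℕ, 1 ≤ H →
    ((((Om q H).filter (fun p => NN q p = 1 ∧ ¬ (p.1 (Fin.last (q + 1)) ≠ 0 ∧
      Irreducible (polZ q p.1 p.2.1)))).card : ℕ) : ℝ) ≤ Cq * ((H : ℝ) ^ (q + 2) * Real.sqrt H) := by
  classical
  obtain ⟨C1, hC1⟩ : ∃ C1 : ℕ, C1 = 2 ^ (q + 2) * (q + 3) := ⟨_, rfl⟩
  refine ⟨3 * (q + 2) * 3 ^ (q + 2) +
    (q + 2) * ((q + 2) * (Real.sqrt C1 * (3 ^ (q + 4) * (C1 : ℝ) ^ (q + 2)))), by positivity, ?_⟩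
  intro H hH
  have hHR : (1 : ℝ) ≤ H := by exact_mod_cast hH
  have hsq : 1 ≤ Real.sqrt H := by
    rw [Real.one_le_sqrt]
    exact hHR
  have h1 : (Om q H).filter (fun p => NN q p = 1 ∧ ¬ (p.1 (Fin.last (q + 1)) ≠ 0 ∧
      Irreducible (polZ q p.1 p.2.1))) ⊆
      ((Om q H).filter (fun p => p.1 (Fin.last (q + 1)) = 0)) ∪
      ((Om q H).filter (fun p => p.1 (Fin.last (q + 1)) ≠ 0 ∧ NN q p = 1 ∧
      ¬ Irreducible (polZ q p.1 p.2.1))) := by
    intro p hp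
    rw [Finset.mem_filter] at hp
    rw [Finset.mem_union, Finset.mem_filter, Finset.mem_filter]
    by_cases h : p.1 (Fin.last (q + 1)) = 0
    · exact Or.inl ⟨hp.1, h⟩
    · right
      refine ⟨hp.1, h, hp.2.1, fun hirr => hp.2.2 ⟨h, hirr⟩⟩
  have h2 := (Finset.card_le_card h1).trans (Finset.card_union_le _ _)
  have h3 : ((((Om q H).filter (fun p => NN q p = 1 ∧ ¬ (p.1 (Fin.last (q + 1)) ≠ 0 ∧
      Irreducible (polZ q p.1 p.2.1)))).card : ℕ) : ℝ) ≤
      ((((Om q H).filter (fun p => p.1 (Fin.last (q + 1)) = 0)).card : ℕ) : ℝ) +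
      ((((Om q H).filter (fun p => p.1 (Fin.last (q + 1)) ≠ 0 ∧ NN q p = 1 ∧
      ¬ Irreducible (polZ q p.1 p.2.1))).card : ℕ) : ℝ) := by exact_mod_cast h2
  refine h3.trans ?_
  rw [add_mul]
  apply add_le_add
  · refine (zero_card q H).trans ?_
    have e1 : (2 * (H : ℝ) + 1) ^ (q + 2) ≤ (3 * (H : ℝ)) ^ (q + 2) := by
      apply pow_le_pow_left₀ (by positivity)
      linarith
    calc 3 * ((q : ℝ) + 2) * (2 * (H : ℝ) + 1) ^ (q + 2) ≤
          3 * ((q : ℝ) + 2) * (3 * (H : ℝ)) ^ (q + 2) := by gcongr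
      _ = 3 * ((q : ℝ) + 2) * 3 ^ (q + 2) * ((H : ℝ) ^ (q + 2) * 1) := by rw [mul_pow]; ring
      _ ≤ _ := by gcongr
  · refine (red_card q H).trans ?_
    have e2 := card_Rc (q + 2) (2 ^ (q + 2) * ((q + 3) * H))
    have e3 : 2 ^ (q + 2) * ((q + 3) * H) = C1 * H := by rw [hC1]; ring
    rw [e3] at e2 ⊢
    have e4 : ((Nat.sqrt (C1 * H) : ℕ) : ℝ) ≤ Real.sqrt C1 * Real.sqrt H := by
      rw [← Real.sqrt_mul (Nat.cast_nonneg _)]
      refine (Real.nat_sqrt_le_real_sqrt).trans (le_of_eq ?_)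
      push_cast
      rfl
    calc ((q : ℝ) + 2) * ((Rc (q + 2) (C1 * H)).card : ℝ) ≤ ((q : ℝ) + 2) *
          (((q + 2 : ℕ) : ℝ) * ((Nat.sqrt (C1 * H) : ℕ) * (3 ^ (q + 2 + 2) *
            ((C1 * H : ℕ) : ℝ) ^ (q + 2)))) := by gcongr
      _ ≤ ((q : ℝ) + 2) *
          (((q + 2 : ℕ) : ℝ) * ((Real.sqrt C1 * Real.sqrt H) * (3 ^ (q + 2 + 2) *
            ((C1 * H : ℕ) : ℝ) ^ (q + 2)))) := by gcongr
      _ = _ := by push_cast; ring

/-- **the sum over the algebraic numbers in terms of the sums over all roots** -/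
theorem alg_le (q : ℕ) : ∃ Cq : ℝ, 0 ≤ Cq ∧ ∀ H : ℕ, 1 ≤ H → ∀ F : ℝ → ℂ, (∀ x, ‖F x‖ ≤ 1) →
    ∀ s : Finset ℝ, (∀ x, x ∈ s ↔ x ∈ Alg (q + 2) H) →
    ‖∑ x ∈ s, F x‖ ≤ ∑ g ∈ Finset.Icc 1 H, ‖∑ p ∈ Om q (H / g), F p.2.2‖ +
      Cq * ((H : ℝ) ^ (q + 2) * Real.sqrt H) := by
  classical
  obtain ⟨Cq, hCq, hbad⟩ := bad_card q
  refine ⟨Cq, hCq, fun H hH F hF s hs => ?_⟩
  have h1 := sum_prim q H F
  have h2 : ∑ p ∈ (Om q H).filter (fun p => NN q p = 1), F p.2.2 =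
      2 * ∑ x ∈ s, F x + ∑ p ∈ (Om q H).filter (fun p => NN q p = 1 ∧
        ¬ (p.1 (Fin.last (q + 1)) ≠ 0 ∧ Irreducible (polZ q p.1 p.2.1))), F p.2.2 := by
    rw [← Finset.sum_filter_add_sum_filter_not ((Om q H).filter (fun p => NN q p = 1))
      (fun p => p.1 (Fin.last (q + 1)) ≠ 0 ∧ Irreducible (polZ q p.1 p.2.1)), Finset.filter_filter,
      Finset.filter_filter]
    congr 1
    rw [two_mul]
    nth_rewrite 1 [← sign_sum q H F 1 (Or.inl rfl) s hs]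
    rw [← sign_sum q H F (-1) (Or.inr rfl) s hs, ← Finset.sum_union]
    · refine Finset.sum_congr ?_ fun _ _ => rfl
      ext p
      rw [Finset.mem_filter, Finset.mem_union, Finset.mem_filter, Finset.mem_filter]
      constructor
      · rintro ⟨h3, h4, h5, h6⟩
        rcases lt_or_gt_of_ne h5 with h | h
        · exact Or.inr ⟨h3, by linarith, h6⟩
        · exact Or.inl ⟨h3, by linarith, h6⟩
      · have key : ∀ σ : ℤ, p ∈ Om q H → 0 < σ * p.1 (Fin.last (q + 1)) →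
            Irreducible (polZ q p.1 p.2.1) → p ∈ Om q H ∧ NN q p = 1 ∧
              p.1 (Fin.last (q + 1)) ≠ 0 ∧ Irreducible (polZ q p.1 p.2.1) := by
          intro σ h3 h4 h5
          have h6 : p.1 (Fin.last (q + 1)) ≠ 0 := by
            intro h
            rw [h, mul_zero] at h4
            exact lt_irrefl _ h4
          refine ⟨h3, ?_, h6, h5⟩
          have h7 := h5.isPrimitive (by rw [pz_natDegree q _ h6]; omega)
          rw [isPrimitive_iff_content_eq_one] at h7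
          unfold NN
          rw [h7]
          rfl
        rintro (⟨h3, h4, h5⟩ | ⟨h3, h4, h5⟩)
        · exact key 1 h3 h4 h5
        · exact key (-1) h3 h4 h5
    · rw [Finset.disjoint_left]
      intro p hp hp'
      rw [Finset.mem_filter] at hp hp'
      have := hp.2.1
      have := hp'.2.1
      linarith
  have h3 : ‖∑ p ∈ (Om q H).filter (fun p => NN q p = 1 ∧
        ¬ (p.1 (Fin.last (q + 1)) ≠ 0 ∧ Irreducible (polZ q p.1 p.2.1))), F p.2.2‖ ≤
      Cq * ((H : ℝ) ^ (q + 2) * Real.sqrt H) := by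
    refine (norm_sum_le _ _).trans (le_trans ?_ (hbad H hH))
    calc _ ≤ ∑ _p ∈ (Om q H).filter (fun p => NN q p = 1 ∧
        ¬ (p.1 (Fin.last (q + 1)) ≠ 0 ∧ Irreducible (polZ q p.1 p.2.1))), (1 : ℝ) :=
          Finset.sum_le_sum fun p _ => hF _
      _ = _ := by rw [Finset.sum_const, nsmul_eq_mul, mul_one]
  have h4 : ‖∑ p ∈ (Om q H).filter (fun p => NN q p = 1), F p.2.2‖ ≤
      ∑ g ∈ Finset.Icc 1 H, ‖∑ p ∈ Om q (H / g), F p.2.2‖ := by
    rw [h1]
    refine (norm_sum_le _ _).trans (Finset.sum_le_sum fun g _ => ?_)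
    rw [norm_mul]
    have h5 : ‖((ArithmeticFunction.moebius g : ℤ) : ℂ)‖ ≤ 1 := by
      rw [Complex.norm_intCast]
      exact_mod_cast ArithmeticFunction.abs_moebius_le_one
    calc _ ≤ 1 * ‖∑ p ∈ Om q (H / g), F p.2.2‖ := by gcongr
      _ = _ := one_mul _
  have h5 : 2 * ‖∑ x ∈ s, F x‖ = ‖∑ p ∈ (Om q H).filter (fun p => NN q p = 1), F p.2.2 -
      ∑ p ∈ (Om q H).filter (fun p => NN q p = 1 ∧
        ¬ (p.1 (Fin.last (q + 1)) ≠ 0 ∧ Irreducible (polZ q p.1 p.2.1))), F p.2.2‖ := by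
    rw [h2, add_sub_cancel_right, norm_mul]
    norm_num
  have h6 := norm_sub_le (∑ p ∈ (Om q H).filter (fun p => NN q p = 1), F p.2.2)
    (∑ p ∈ (Om q H).filter (fun p => NN q p = 1 ∧
        ¬ (p.1 (Fin.last (q + 1)) ≠ 0 ∧ Irreducible (polZ q p.1 p.2.1))), F p.2.2)
  have h7 : 0 ≤ ‖∑ x ∈ s, F x‖ := norm_nonneg _
  linarith

end Pool.Agent.Y933.KG
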