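import Pool.Agent.Y933.KG.Gd
import Pool.Agent.Y933.KD.Fam

/-!
# Normality of the real roots of almost all integral polynomials (helper933)
-/

set_option autoImplicit false

namespace Pool.Agent.Y933.KG

open Finset Polynomial Filter MeasureTheory
open Pool.Agent.Y933.KD.VdC (ev_le)
open Pool.Agent.Y933.KD (unif unif_prob wd normal_gen)

open Classical in
/-- all words of at most `w` digits have the right frequency in all windows of the first `L` digits
of `y` in base `b`, up to `E` -/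
def Nc (b w : ℕ) (L E : ℝ) (y : ℝ) : Prop :=
  ∀ k j s N : ℕ, 1 ≤ k → k ≤ w → j < b ^ k → (s : ℝ) + N ≤ L →
    |(((Finset.range N).filter (fun i => wd b k (s + i) y = j)).card : ℝ) - N / (b : ℝ) ^ k| ≤ E

lemma wd_shift (b k n0 i : ℕ) (y : ℝ) : wd b k i ((b : ℝ) ^ n0 * y) = wd b k (n0 + i) y := by
  unfold wd
  rw [← mul_assoc, ← pow_add, add_comm i n0]

lemma Nc_shift {b w n0 : ℕ} {L E E' : ℝ} (hb : 1 ≤ b) (hn0 : (n0 : ℝ) ≤ E') {y : ℝ}
    (h : Nc b w L E ((b : ℝ) ^ n0 * y)) (hE : 0 ≤ E) : Nc b w L (E' + E) y := by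
  classical
  intro k j s N hk hkw hj hsN
  have hbk : (1 : ℝ) ≤ (b : ℝ) ^ k := one_le_pow₀ (by exact_mod_cast hb)
  have hbk0 : (0 : ℝ) < (b : ℝ) ^ k := by linarith
  obtain ⟨t, ht1, ht2, ht3⟩ : ∃ t : ℕ, t ≤ N ∧ t ≤ n0 ∧ (t < N → n0 ≤ s + t) := by
    refine ⟨min N (n0 - s), min_le_left _ _, ?_, ?_⟩
    · exact (min_le_right _ _).trans (Nat.sub_le _ _)
    · intro h
      omega
  obtain ⟨N', rfl⟩ : ∃ N', N = t + N' := ⟨N - t, by omega⟩
  have hcard : ((Finset.range (t + N')).filter (fun i => wd b k (s + i) y = j)).card =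
      ((Finset.range t).filter (fun i => wd b k (s + i) y = j)).card +
      ((Finset.range N').filter (fun i => wd b k (s + t + i) y = j)).card := by
    simp only [Finset.card_filter]
    rw [Finset.sum_range_add]
    simp only [add_assoc]
  have h1 : |(((Finset.range t).filter (fun i => wd b k (s + i) y = j)).card : ℝ) -
      t / (b : ℝ) ^ k| ≤ E' := by
    have h2 : (((Finset.range t).filter (fun i => wd b k (s + i) y = j)).card : ℝ) ≤ t := by
      have := Finset.card_filter_le (Finset.range t) (fun i => wd b k (s + i) y = j)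
      rw [Finset.card_range] at this
      exact_mod_cast this
    have h3 : (t : ℝ) / (b : ℝ) ^ k ≤ t := div_le_self (Nat.cast_nonneg t) hbk
    have h4 : (0 : ℝ) ≤ (t : ℝ) / (b : ℝ) ^ k := by positivity
    have h5 : (0 : ℝ) ≤ (((Finset.range t).filter (fun i => wd b k (s + i) y = j)).card : ℝ) :=
      Nat.cast_nonneg _
    have h6 : (t : ℝ) ≤ n0 := by exact_mod_cast ht2
    rw [abs_le]
    constructor <;> linarith
  have h2 : |(((Finset.range N').filter (fun i => wd b k (s + t + i) y = j)).card : ℝ) -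
      N' / (b : ℝ) ^ k| ≤ E := by
    rcases Nat.eq_zero_or_pos N' with rfl | hN'
    · simpa using hE
    · obtain ⟨s', hs'⟩ : ∃ s', s + t = n0 + s' := ⟨s + t - n0, by
        have := ht3 (by omega); omega⟩
      have h3 := h k j s' N' hk hkw hj (by
        have h4 : (s' : ℝ) ≤ s + t := by
          have : s' ≤ s + t := by omega
          exact_mod_cast this
        push_cast at hsN
        linarith)
      have h5 : (Finset.range N').filter (fun i => wd b k (s' + i) ((b : ℝ) ^ n0 * y) = j) =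
          (Finset.range N').filter (fun i => wd b k (s + t + i) y = j) := by
        refine Finset.filter_congr fun i _ => ?_
        rw [wd_shift, hs', add_assoc]
      rw [h5] at h3
      exact h3
  rw [hcard]
  push_cast
  have e1 : (((Finset.range t).filter (fun i => wd b k (s + i) y = j)).card : ℝ) +
      (((Finset.range N').filter (fun i => wd b k (s + t + i) y = j)).card : ℝ) -
      ((t : ℝ) + N') / (b : ℝ) ^ k =
      ((((Finset.range t).filter (fun i => wd b k (s + i) y = j)).card : ℝ) - t / (b : ℝ) ^ k) +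
      ((((Finset.range N').filter (fun i => wd b k (s + t + i) y = j)).card : ℝ) -
        N' / (b : ℝ) ^ k) := by ring
  rw [e1]
  exact (abs_add_le _ _).trans (add_le_add h1 h2)

open Classical in
/-- one base -/
lemma one_base (q b : ℕ) (hb : 2 ≤ b) (w : ℕ) (A : ℝ) {ε : ℝ} (hε : 0 < ε) :
    ∃ c : ℝ, 0 < c ∧ ∃ κ : ℝ, 0 < κ ∧ ∃ H0 : ℕ, ∀ H : ℕ, H0 ≤ H → ∀ G : ℝ[X],
      1 ≤ G.natDegree → G.natDegree ≤ q + 1 → (∀ i, 1 ≤ i → |G.coeff i| ≤ (H : ℝ) ^ κ) →
      (H : ℝ) ^ (-κ) ≤ |G.leadingCoeff| →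
      (((Om q H).filter (fun p => ¬ Nc b w (A * Real.log H) (ε * Real.log H)
        (G.eval p.2.2))).card : ℝ) ≤ (Om q H).card * (H : ℝ) ^ (-c) := by
  obtain ⟨κ, hκ, hGood⟩ := good_alg q b hb (δ₀ := ε / 4) (by positivity) b 1 A
  obtain ⟨c, hc, M0, hM0⟩ := normal_gen (ι := Σ _ : (Fin (q + 2) → ℤ), Σ _ : ℤ, ℝ) (B := b) (w := w)
    (A := A) (ε := ε / 2) (by positivity) (SA_prob q b (ε / 4) κ) hGood
  obtain ⟨M1, hM1⟩ := eventually_atTop.1 ((Real.tendsto_log_atTop.comp
    tendsto_natCast_atTop_atTop).eventually_ge_atTop (4 / ε))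
  refine ⟨c, hc, κ, hκ, max (max M0 M1) 2, ?_⟩
  intro H hH G hG1 hG2 hG3 hG4
  have hH0 : M0 ≤ H := le_of_max_le_left (le_of_max_le_left hH)
  have hH1 : M1 ≤ H := le_of_max_le_right (le_of_max_le_left hH)
  have hH2 : 2 ≤ H := le_of_max_le_right hH
  have hlog : 4 / ε ≤ Real.log H := hM1 H hH1
  have h1 : 1 ≤ ε / 4 * Real.log H := by
    rw [div_le_iff₀ hε] at hlog
    linarith
  have hn0 : ((⌈ε / 4 * Real.log H⌉₊ : ℕ) : ℝ) ≤ ε / 2 * Real.log H := by
    have := Nat.ceil_lt_add_one (by linarith : (0 : ℝ) ≤ ε / 4 * Real.log H)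
    linarith
  have key := hM0 H hH0 (Om q H) (fun p => (b : ℝ) ^ ⌈ε / 4 * Real.log H⌉₊ * G.eval p.2.2)
    ⟨hH2, G, hG1, hG2, hG3, hG4, rfl⟩
  refine le_trans (Nat.cast_le.2 (Finset.card_le_card fun p hp => ?_)) key
  rw [Finset.mem_filter] at hp ⊢
  refine ⟨hp.1, fun hcon => hp.2 ?_⟩
  have h2 : Nc b w (A * Real.log H) (ε / 2 * Real.log H)
      ((b : ℝ) ^ ⌈ε / 4 * Real.log H⌉₊ * G.eval p.2.2) := by
    intro k j s N hk hkw hj hsN
    exact hcon b k j s N hb le_rfl hk hkw hj hsN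
  have h3 := Nc_shift (by omega) hn0 h2 (by linarith)
  have e1 : ε * Real.log H = ε / 2 * Real.log H + ε / 2 * Real.log H := by ring
  rw [e1]
  exact h3

open Classical in
/-- all bases up to `B` -/
lemma all_bases (q w : ℕ) (A : ℝ) {ε : ℝ} (hε : 0 < ε) (B : ℕ) :
    ∃ c : ℝ, 0 < c ∧ ∃ κ : ℝ, 0 < κ ∧ ∃ H0 : ℕ, ∀ H : ℕ, H0 ≤ H → ∀ G : ℝ[X],
      1 ≤ G.natDegree → G.natDegree ≤ q + 1 → (∀ i, 1 ≤ i → |G.coeff i| ≤ (H : ℝ) ^ κ) →
      (H : ℝ) ^ (-κ) ≤ |G.leadingCoeff| →
      (((Om q H).filter (fun p => ¬ ∀ b, 2 ≤ b → b ≤ B → Nc b w (A * Real.log H) (ε * Real.log H)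
        (G.eval p.2.2))).card : ℝ) ≤ (Om q H).card * (H : ℝ) ^ (-c) := by
  induction B with
  | zero =>
    refine ⟨1, one_pos, 1, one_pos, 0, fun H _ G _ _ _ _ => ?_⟩
    have : (Om q H).filter (fun p => ¬ ∀ b, 2 ≤ b → b ≤ 0 → Nc b w (A * Real.log H)
        (ε * Real.log H) (G.eval p.2.2)) = ∅ := by
      rw [Finset.filter_eq_empty_iff]
      intro p _ hcon
      exact hcon (fun b h1 h2 => by omega)
    rw [this, Finset.card_empty, Nat.cast_zero]
    positivity
  | succ B ih =>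
    obtain ⟨c1, hc1, κ1, hκ1, H1, h1⟩ := ih
    rcases lt_or_ge (B + 1) 2 with hB | hB
    · refine ⟨c1, hc1, κ1, hκ1, H1, fun H hH G hG1 hG2 hG3 hG4 => ?_⟩
      refine le_trans (Nat.cast_le.2 (Finset.card_le_card fun p hp => ?_))
        (h1 H hH G hG1 hG2 hG3 hG4)
      rw [Finset.mem_filter] at hp ⊢
      exact ⟨hp.1, fun hcon => hp.2 fun b hb2 hbB => by omega⟩
    · obtain ⟨c2, hc2, κ2, hκ2, H2, h2⟩ := one_base q (B + 1) hB w A hε
      obtain ⟨H3, hH3⟩ := eventually_atTop.1 (ev_le 2 (min c1 c2 / 2) (by positivity))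
      refine ⟨min c1 c2 / 2, by positivity, min κ1 κ2, lt_min hκ1 hκ2, max (max H1 H2) (max H3 1),
        fun H hH G hG1 hG2 hG3 hG4 => ?_⟩
      have hHa : H1 ≤ H := le_of_max_le_left (le_of_max_le_left hH)
      have hHb : H2 ≤ H := le_of_max_le_right (le_of_max_le_left hH)
      have hHc : H3 ≤ H := le_of_max_le_left (le_of_max_le_right hH)
      have hHR : (1 : ℝ) ≤ H := by exact_mod_cast le_of_max_le_right (le_of_max_le_right hH)
      have hHp : (0 : ℝ) < H := by linarith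
      have ha := h1 H hHa G hG1 hG2
        (fun i hi => (hG3 i hi).trans (Real.rpow_le_rpow_of_exponent_le hHR (min_le_left _ _)))
        (le_trans (Real.rpow_le_rpow_of_exponent_le hHR (by linarith [min_le_left κ1 κ2])) hG4)
      have hb := h2 H hHb G hG1 hG2
        (fun i hi => (hG3 i hi).trans (Real.rpow_le_rpow_of_exponent_le hHR (min_le_right _ _)))
        (le_trans (Real.rpow_le_rpow_of_exponent_le hHR (by linarith [min_le_right κ1 κ2])) hG4)
      have hsub : (Om q H).filter (fun p => ¬ ∀ b, 2 ≤ b → b ≤ B + 1 →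
          Nc b w (A * Real.log H) (ε * Real.log H) (G.eval p.2.2)) ⊆
          (Om q H).filter (fun p => ¬ ∀ b, 2 ≤ b → b ≤ B →
            Nc b w (A * Real.log H) (ε * Real.log H) (G.eval p.2.2)) ∪
          (Om q H).filter (fun p => ¬ Nc (B + 1) w (A * Real.log H) (ε * Real.log H)
            (G.eval p.2.2)) := by
        intro p hp
        rw [Finset.mem_union, Finset.mem_filter, Finset.mem_filter]
        rw [Finset.mem_filter] at hp
        by_contra hcon
        push Not at hcon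
        apply hp.2
        intro b hb2 hbB
        rcases Nat.lt_or_ge B b with h3 | h3
        · have : b = B + 1 := by omega
          rw [this]
          exact hcon.2 hp.1
        · exact hcon.1 hp.1 b hb2 h3
      have hcard := (Finset.card_le_card hsub).trans (Finset.card_union_le _ _)
      have hcard' : (((Om q H).filter (fun p => ¬ ∀ b, 2 ≤ b → b ≤ B + 1 →
          Nc b w (A * Real.log H) (ε * Real.log H) (G.eval p.2.2))).card : ℝ) ≤
          (Om q H).card * (H : ℝ) ^ (-c1) + (Om q H).card * (H : ℝ) ^ (-c2) := by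
        refine le_trans ?_ (add_le_add ha hb)
        exact_mod_cast hcard
      refine hcard'.trans ?_
      have h4 : (H : ℝ) ^ (-c1) ≤ (H : ℝ) ^ (-(min c1 c2)) :=
        Real.rpow_le_rpow_of_exponent_le hHR (by linarith [min_le_left c1 c2])
      have h5 : (H : ℝ) ^ (-c2) ≤ (H : ℝ) ^ (-(min c1 c2)) :=
        Real.rpow_le_rpow_of_exponent_le hHR (by linarith [min_le_right c1 c2])
      have h6 : 2 * (H : ℝ) ^ (-(min c1 c2)) ≤ (H : ℝ) ^ (-(min c1 c2 / 2)) := by
        calc 2 * (H : ℝ) ^ (-(min c1 c2)) ≤ (H : ℝ) ^ (min c1 c2 / 2) * (H : ℝ) ^ (-(min c1 c2)) := by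
              have := hH3 H hHc
              gcongr
          _ = _ := by
              rw [← Real.rpow_add hHp]
              congr 1
              ring
      have h7 : (0 : ℝ) ≤ ((Om q H).card : ℝ) := Nat.cast_nonneg _
      nlinarith

end Pool.Agent.Y933.KG
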