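import Pool.Agent.Y933.KG.Core

/-!
# The test without conditions on the signs of the derivatives (helper933)
-/

set_option autoImplicit false

namespace Pool.Agent.Y933.KG

open Finset Real Filter
open Pool.Agent.H469R2.NK (e norm_e e_add norm_sum_neg)
open Pool.Agent.TH915.PW (Hy)

lemma const_sign {A B : ℝ} {f : ℝ → ℝ} (hf : ContinuousOn f (Set.Icc A B))
    (h0 : ∀ t ∈ Set.Icc A B, f t ≠ 0) :
    (∀ t ∈ Set.Icc A B, 0 < f t) ∨ (∀ t ∈ Set.Icc A B, f t < 0) := by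
  by_contra hcon
  push Not at hcon
  obtain ⟨⟨t1, ht1, h1⟩, ⟨t2, ht2, h2⟩⟩ := hcon
  have h3 := isPreconnected_Icc.intermediate_value ht1 ht2 hf
  obtain ⟨t, ht, h4⟩ := h3 ⟨h1, h2⟩
  exact h0 t ht h4

/-- the derivatives of `σ φ(τ t)` for signs `σ, τ` -/
def Ref (σ τ : ℝ) (φ : ℕ → ℝ → ℝ) (m : ℕ) (t : ℝ) : ℝ := σ * (τ ^ m * φ m (τ * t))

lemma ref_der {A B : ℝ} {φ : ℕ → ℝ → ℝ}
    (hd : ∀ m, ∀ t ∈ Set.Icc A B, HasDerivAt (φ m) (φ (m + 1) t) t) (σ τ : ℝ) (m : ℕ) (t : ℝ)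
    (ht : τ * t ∈ Set.Icc A B) : HasDerivAt (Ref σ τ φ m) (Ref σ τ φ (m + 1) t) t := by
  have h1 : HasDerivAt (fun t : ℝ => τ * t) τ t := by
    simpa using (hasDerivAt_id t).const_mul τ
  have h2 := (hd m _ ht).comp t h1
  have h3 := (h2.const_mul (τ ^ m)).const_mul σ
  have e1 : Ref σ τ φ (m + 1) t = σ * (τ ^ m * (φ (m + 1) (τ * t) * τ)) := by
    unfold Ref
    rw [pow_succ]
    ring
  rw [e1]
  exact h3

lemma e_neg' (x : ℝ) : e (-x) = (starRingEnd ℂ) (e x) := by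
  unfold e
  rw [← Complex.exp_conj]
  congr 1
  rw [map_mul, Complex.conj_ofReal, Complex.conj_I]
  push_cast
  ring

lemma norm_sum_sign (θ : ℝ) (x : ℕ → ℝ) (L : ℕ) (σ : ℝ) (hσ : σ = 1 ∨ σ = -1) :
    ‖∑ n ∈ range L, e (θ * (σ * x n))‖ = ‖∑ n ∈ range L, e (θ * x n)‖ := by
  rcases hσ with rfl | rfl
  · simp only [one_mul]
  · rw [← Complex.norm_conj, map_sum]
    congr 1
    refine sum_congr rfl fun n _ => ?_
    rw [← e_neg']
    congr 1
    ring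

/-- the test without conditions on the signs -/
theorem core_pm (K : ℕ) (hK0 : 1 ≤ K) (μ : ℝ) (hμ : 0 < μ) (hμ1 : μ ≤ 1 / 4) :
    ∃ ρ : ℝ, 0 < ρ ∧ ∃ M0 : ℕ, ∀ M : ℕ, M0 ≤ M → ∀ (A B lo hi : ℝ) (φ : ℕ → ℝ → ℝ),
      0 < lo → (∀ m, ∀ t ∈ Set.Icc A B, HasDerivAt (φ m) (φ (m + 1) t) t) →
      (∀ t ∈ Set.Icc A B, lo ≤ |φ (K + 1) t|) → (∀ t ∈ Set.Icc A B, |φ (K + 1) t| ≤ hi) →
      (∀ t ∈ Set.Icc A B, φ (K + 2) t ≠ 0) →
      ∀ (θ u : ℝ) (L : ℕ), L ≤ M → A + 1 ≤ u → u + L ≤ B → θ ≠ 0 →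
      hi ≤ lo * (M : ℝ) ^ (μ / 4) → |θ| * lo ≤ (M : ℝ) ^ (-μ) →
      (M : ℝ) ^ (-((K : ℝ) + 1) + μ) ≤ |θ| * lo →
      ‖∑ n ∈ range L, e (θ * φ 0 (u + n))‖ ≤ (M : ℝ) ^ (1 - ρ) := by
  obtain ⟨ρ, hρ, M0, hM0⟩ := core_gen K hK0 μ hμ hμ1
  refine ⟨ρ, hρ, M0, ?_⟩
  intro M hM A B lo hi φ hlo hd h1 h2 h3 θ u L hL hu huL hθ hhi hup hlow
  have hc : ∀ m, ContinuousOn (φ m) (Set.Icc A B) := fun m t ht =>
    (hd m t ht).continuousAt.continuousWithinAt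
  have hne : ∀ t ∈ Set.Icc A B, φ (K + 1) t ≠ 0 := by
    intro t ht h
    have := h1 t ht
    rw [h, abs_zero] at this
    linarith
  -- the signs
  obtain ⟨s1, hs1, hs1'⟩ : ∃ s1 : ℝ, (s1 = 1 ∨ s1 = -1) ∧ ∀ t ∈ Set.Icc A B, 0 < s1 * φ (K + 1) t := by
    rcases const_sign (hc (K + 1)) hne with h | h
    · exact ⟨1, Or.inl rfl, fun t ht => by rw [one_mul]; exact h t ht⟩
    · exact ⟨-1, Or.inr rfl, fun t ht => by have := h t ht; linarith⟩
  obtain ⟨s2, hs2, hs2'⟩ : ∃ s2 : ℝ, (s2 = 1 ∨ s2 = -1) ∧ ∀ t ∈ Set.Icc A B, 0 < s2 * φ (K + 2) t := by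
    rcases const_sign (hc (K + 2)) h3 with h | h
    · exact ⟨1, Or.inl rfl, fun t ht => by rw [one_mul]; exact h t ht⟩
    · exact ⟨-1, Or.inr rfl, fun t ht => by have := h t ht; linarith⟩
  -- a reduction to a positive `θ`
  have hsgn : ∀ y : ℕ → ℝ, ‖∑ n ∈ range L, e (θ * y n)‖ = ‖∑ n ∈ range L, e (|θ| * y n)‖ := by
    intro y
    rcases abs_choice θ with h | h
    · rw [h]
    · rw [h, ← norm_sum_sign θ y L (-1) (Or.inr rfl)]
      congr 1
      refine sum_congr rfl fun n _ => ?_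
      congr 1
      ring
  rw [hsgn]
  have hθ' : 0 < |θ| := abs_pos.2 hθ
  -- the reflection
  set τ : ℝ := -(s1 * s2) with hτ
  have hτ2 : τ = 1 ∨ τ = -1 := by
    rcases hs1 with rfl | rfl <;> rcases hs2 with rfl | rfl <;> simp [hτ]
  have hττ : τ * τ = 1 := by rcases hτ2 with h | h <;> rw [h] <;> norm_num
  have hτp : ∀ m : ℕ, τ ^ m = 1 ∨ τ ^ m = -1 := by
    intro m
    rcases hτ2 with h | h
    · left; rw [h, one_pow]
    · rw [h]; exact neg_one_pow_eq_or ℝ m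
  set σ : ℝ := s1 * τ ^ (K + 1) with hσ
  have hσ2 : σ = 1 ∨ σ = -1 := by
    rcases hs1 with h | h <;> rcases hτp (K + 1) with h' | h' <;> simp [hσ, h, h']
  have hs11 : s1 * s1 = 1 := by rcases hs1 with rfl | rfl <;> norm_num
  have hs22 : s2 * s2 = 1 := by rcases hs2 with rfl | rfl <;> norm_num
  have hpp : τ ^ (K + 1) * τ ^ (K + 1) = 1 := by
    rw [← mul_pow, hττ, one_pow]
  have hR1 : ∀ t, Ref σ τ φ (K + 1) t = s1 * φ (K + 1) (τ * t) := by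
    intro t
    unfold Ref
    rw [hσ]
    calc s1 * τ ^ (K + 1) * (τ ^ (K + 1) * φ (K + 1) (τ * t)) =
        s1 * (τ ^ (K + 1) * τ ^ (K + 1)) * φ (K + 1) (τ * t) := by ring
      _ = _ := by rw [hpp, mul_one]
  have hR2 : ∀ t, Ref σ τ φ (K + 2) t = -(s2 * φ (K + 2) (τ * t)) := by
    intro t
    unfold Ref
    rw [hσ]
    calc s1 * τ ^ (K + 1) * (τ ^ (K + 2) * φ (K + 2) (τ * t)) =
        (τ ^ (K + 1) * τ ^ (K + 1)) * (s1 * τ) * φ (K + 2) (τ * t) := by ring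
      _ = s1 * (-(s1 * s2)) * φ (K + 2) (τ * t) := by rw [hpp, one_mul]
      _ = -((s1 * s1) * s2 * φ (K + 2) (τ * t)) := by ring
      _ = _ := by rw [hs11, one_mul]
  -- the new interval
  obtain ⟨A', B', hmem⟩ : ∃ A' B' : ℝ, ((τ = 1 ∧ A' = A ∧ B' = B) ∨ (τ = -1 ∧ A' = -B ∧ B' = -A)) := by
    rcases hτ2 with h | h
    · exact ⟨A, B, Or.inl ⟨h, rfl, rfl⟩⟩
    · exact ⟨-B, -A, Or.inr ⟨h, rfl, rfl⟩⟩
  have hin : ∀ t ∈ Set.Icc A' B', τ * t ∈ Set.Icc A B := by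
    intro t ht
    rcases hmem with ⟨h, rfl, rfl⟩ | ⟨h, rfl, rfl⟩
    · rw [h, one_mul]; exact ht
    · rw [h]
      have := ht.1
      have := ht.2
      constructor <;> linarith
  have hy : Hy K A' B' lo hi (Ref σ τ φ) := by
    constructor
    · intro m _ t ht
      exact ref_der hd σ τ m t (hin t ht)
    · intro t ht
      rw [hR1]
      have h4 := hs1' _ (hin t ht)
      have h5 := h1 _ (hin t ht)
      rcases hs1 with h | h
      · rw [h, one_mul] at h4 ⊢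
        rwa [abs_of_pos h4] at h5
      · rw [h] at h4 ⊢
        rw [abs_of_neg (by linarith)] at h5
        linarith
    · intro t ht
      rw [hR1]
      have h5 := h2 _ (hin t ht)
      refine le_trans ?_ h5
      rcases hs1 with h | h
      · rw [h, one_mul]; exact le_abs_self _
      · rw [h, neg_one_mul]; exact neg_le_abs _
    · intro t ht
      rw [hR2]
      have := hs2' _ (hin t ht)
      linarith
  rcases hmem with ⟨h, hA', hB'⟩ | ⟨h, hA', hB'⟩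
  · have key := hM0 M hM A' B' lo hi _ hlo hy |θ| u L hL (by rw [hA']; linarith)
      (by rw [hB']; exact huL) hθ' hhi hup hlow
    have e1 : ∀ n : ℕ, Ref σ τ φ 0 (u + n) = σ * φ 0 (u + n) := by
      intro n
      unfold Ref
      rw [h]
      simp
    simp only [e1] at key
    rwa [norm_sum_sign |θ| (fun n => φ 0 (u + n)) L σ hσ2] at key
  · have key := hM0 M hM A' B' lo hi _ hlo hy |θ| (-u - L + 1) L hL (by rw [hA']; linarith)
      (by rw [hB']; linarith) hθ' hhi hup hlow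
    have e1 : ∀ n : ℕ, Ref σ τ φ 0 (-u - L + 1 + n) = σ * φ 0 (u + L - 1 - n) := by
      intro n
      unfold Ref
      rw [h]
      simp only [pow_zero, one_mul]
      congr 2
      ring
    simp only [e1] at key
    rw [norm_sum_sign |θ| (fun n => φ 0 (u + L - 1 - n)) L σ hσ2] at key
    refine le_trans (le_of_eq ?_) key
    congr 1
    rw [← Finset.sum_range_reflect]
    refine sum_congr rfl fun n hn => ?_
    have hn' := Finset.mem_range.1 hn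
    congr 3
    rw [Nat.sub_sub, Nat.cast_sub (by omega)]
    push_cast
    ring

end Pool.Agent.Y933.KG
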