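import Pool.Agent.Y933.KG.Cnt2

/-!
# Few integral polynomials of given degree are reducible (helper933)
-/

set_option autoImplicit false

namespace Pool.Agent.Y933.KG

open Finset Polynomial

/-- an inequality of Gelfond -/
lemma gelfond (n : ℕ) (Q R : ℤ[X]) (hn : (Q * R).natDegree ≤ n) (hQR : Q * R ≠ 0) {H : ℝ}
    (hH : ∀ i, |((Q * R).coeff i : ℝ)| ≤ H) (i k : ℕ) :
    |(Q.coeff i : ℝ)| * |(R.coeff k : ℝ)| ≤ 2 ^ n * ((n + 1) * H) := by
  have hQ : Q ≠ 0 := left_ne_zero_of_mul hQR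
  have hR : R ≠ 0 := right_ne_zero_of_mul hQR
  have hH0 : 0 ≤ H := (abs_nonneg _).trans (hH 0)
  have hinj : Function.Injective (Int.castRingHom ℂ) := RingHom.injective_int _
  have key : ∀ (S : ℤ[X]) (i : ℕ), |(S.coeff i : ℝ)| ≤
      2 ^ S.natDegree * (S.map (Int.castRingHom ℂ)).mahlerMeasure := by
    intro S i
    have h1 := norm_coeff_le_choose_mul_mahlerMeasure i (S.map (Int.castRingHom ℂ))
    rw [coeff_map, eq_intCast, Complex.norm_intCast, natDegree_map_eq_of_injective hinj] at h1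
    refine h1.trans ?_
    have h2 : ((S.natDegree.choose i : ℕ) : ℝ) ≤ 2 ^ S.natDegree := by
      exact_mod_cast Nat.choose_le_two_pow _ _
    exact mul_le_mul_of_nonneg_right h2 (mahlerMeasure_nonneg _)
  have h1 : (Q.map (Int.castRingHom ℂ)).mahlerMeasure * (R.map (Int.castRingHom ℂ)).mahlerMeasure ≤
      (n + 1) * H := by
    rw [← mahlerMeasure_mul, ← Polynomial.map_mul]
    refine (mahlerMeasure_le_sum_norm_coeff _).trans ?_
    rw [Polynomial.sum_def]
    have h2 : ((Q * R).map (Int.castRingHom ℂ)).support ⊆ Finset.range (n + 1) := by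
      intro j hj
      rw [Finset.mem_range]
      have h3 := le_natDegree_of_mem_supp j hj
      rw [natDegree_map_eq_of_injective hinj] at h3
      omega
    calc ∑ j ∈ ((Q * R).map (Int.castRingHom ℂ)).support, ‖((Q * R).map (Int.castRingHom ℂ)).coeff j‖
        ≤ ∑ j ∈ Finset.range (n + 1), ‖((Q * R).map (Int.castRingHom ℂ)).coeff j‖ :=
          Finset.sum_le_sum_of_subset_of_nonneg h2 fun _ _ _ => norm_nonneg _
      _ ≤ ∑ _j ∈ Finset.range (n + 1), H := by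
          refine Finset.sum_le_sum fun j _ => ?_
          rw [coeff_map, eq_intCast, Complex.norm_intCast]
          exact hH j
      _ = _ := by rw [Finset.sum_const, Finset.card_range, nsmul_eq_mul]; push_cast; ring
  have hdeg : Q.natDegree + R.natDegree ≤ n := by
    rw [← natDegree_mul hQ hR]
    exact hn
  calc |(Q.coeff i : ℝ)| * |(R.coeff k : ℝ)| ≤
        (2 ^ Q.natDegree * (Q.map (Int.castRingHom ℂ)).mahlerMeasure) *
        (2 ^ R.natDegree * (R.map (Int.castRingHom ℂ)).mahlerMeasure) := by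
        apply mul_le_mul (key Q i) (key R k) (abs_nonneg _)
        exact mul_nonneg (by positivity) (mahlerMeasure_nonneg _)
    _ = 2 ^ (Q.natDegree + R.natDegree) * ((Q.map (Int.castRingHom ℂ)).mahlerMeasure *
        (R.map (Int.castRingHom ℂ)).mahlerMeasure) := by ring
    _ ≤ 2 ^ n * ((n + 1) * H) := by
        apply mul_le_mul _ h1 _ (by positivity)
        · exact pow_le_pow_right₀ (by norm_num) hdeg
        · exact mul_nonneg (mahlerMeasure_nonneg _) (mahlerMeasure_nonneg _)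

/-- the height -/
noncomputable def ht (Q : ℤ[X]) : ℕ := Q.support.sup fun i => (Q.coeff i).natAbs

lemma le_ht (Q : ℤ[X]) (i : ℕ) : (Q.coeff i).natAbs ≤ ht Q := by
  by_cases h : i ∈ Q.support
  · exact Finset.le_sup (f := fun i => (Q.coeff i).natAbs) h
  · rw [notMem_support_iff.1 h]
    exact Nat.zero_le _

lemma ht_mem {Q : ℤ[X]} (hQ : Q ≠ 0) : ∃ i, (Q.coeff i).natAbs = ht Q := by
  obtain ⟨i, _, hi⟩ := Finset.exists_mem_eq_sup Q.support (nonempty_support_iff.2 hQ)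
    fun i => (Q.coeff i).natAbs
  exact ⟨i, hi.symm⟩

lemma ht_pos {Q : ℤ[X]} (hQ : Q ≠ 0) : 1 ≤ ht Q := by
  obtain ⟨i, hi⟩ := nonempty_support_iff.2 hQ
  have h1 := le_ht Q i
  have h2 : Q.coeff i ≠ 0 := mem_support_iff.1 hi
  have h3 : 1 ≤ (Q.coeff i).natAbs := Int.natAbs_pos.2 h2
  omega

lemma ht_mul (n : ℕ) (Q R : ℤ[X]) (hn : (Q * R).natDegree ≤ n) (hQR : Q * R ≠ 0) {H : ℕ}
    (hH : ∀ i, |(Q * R).coeff i| ≤ H) : ht Q * ht R ≤ 2 ^ n * ((n + 1) * H) := by
  have hQ : Q ≠ 0 := left_ne_zero_of_mul hQR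
  have hR : R ≠ 0 := right_ne_zero_of_mul hQR
  obtain ⟨i, hi⟩ := ht_mem hQ
  obtain ⟨k, hk⟩ := ht_mem hR
  have h1 := gelfond n Q R hn hQR (H := (H : ℝ)) (fun i => by exact_mod_cast hH i) i k
  have h2 : |(Q.coeff i : ℝ)| = ((ht Q : ℕ) : ℝ) := by
    rw [← hi, Nat.cast_natAbs]
    push_cast
    rfl
  have h3 : |(R.coeff k : ℝ)| = ((ht R : ℕ) : ℝ) := by
    rw [← hk, Nat.cast_natAbs]
    push_cast
    rfl
  rw [h2, h3] at h1
  exact_mod_cast h1

open Classical in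
/-- a set which contains the reducible polynomials of degree `n` -/
noncomputable def Rc (n X : ℕ) : Finset ℤ[X] :=
  (Finset.Icc 1 (n - 1)).biUnion fun j => (Finset.Icc 1 (Nat.sqrt X)).biUnion fun h =>
    ((Fs j (h : ℤ)) ×ˢ (Fs (n - j) ((X / h : ℕ) : ℤ))).image fun z => z.1 * z.2

lemma card_Rc (n X : ℕ) : ((Rc n X).card : ℝ) ≤ n * (Nat.sqrt X * (3 ^ (n + 2) * (X : ℝ) ^ n)) := by
  classical
  have h1 : ((Rc n X).card : ℝ) ≤ ∑ j ∈ Finset.Icc 1 (n - 1), ∑ h ∈ Finset.Icc 1 (Nat.sqrt X),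
      ((Fs j (h : ℤ)).card : ℝ) * ((Fs (n - j) ((X / h : ℕ) : ℤ)).card : ℝ) := by
    have h2 : (Rc n X).card ≤ ∑ j ∈ Finset.Icc 1 (n - 1), ∑ h ∈ Finset.Icc 1 (Nat.sqrt X),
      (Fs j (h : ℤ)).card * (Fs (n - j) ((X / h : ℕ) : ℤ)).card := by
      unfold Rc
      refine Finset.card_biUnion_le.trans (Finset.sum_le_sum fun j _ => ?_)
      refine Finset.card_biUnion_le.trans (Finset.sum_le_sum fun h _ => ?_)
      refine Finset.card_image_le.trans ?_
      rw [Finset.card_product]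
    exact_mod_cast h2
  refine h1.trans ?_
  have h3 : ∀ j ∈ Finset.Icc 1 (n - 1), ∀ h ∈ Finset.Icc 1 (Nat.sqrt X),
      ((Fs j (h : ℤ)).card : ℝ) * ((Fs (n - j) ((X / h : ℕ) : ℤ)).card : ℝ) ≤
        3 ^ (n + 2) * (X : ℝ) ^ n := by
    intro j hj h hh
    rw [Finset.mem_Icc] at hj hh
    obtain ⟨hj1, hj2⟩ := hj
    obtain ⟨hh1, hh2⟩ := hh
    have hhX : h * h ≤ X := Nat.le_sqrt.1 hh2
    have hhR : (1 : ℝ) ≤ h := by exact_mod_cast hh1
    have hhp : (0 : ℝ) < h := by linarith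
    obtain ⟨u, hu⟩ : ∃ u : ℝ, u = (X : ℝ) / h := ⟨_, rfl⟩
    have huh : (h : ℝ) ≤ u := by
      rw [hu, le_div_iff₀ hhp]
      exact_mod_cast hhX
    have hu1 : 1 ≤ u := hhR.trans huh
    have hXu : (X : ℝ) = h * u := by
      rw [hu]
      field_simp
    have e1 : ((Fs j (h : ℤ)).card : ℝ) ≤ (3 * (h : ℝ)) ^ (j + 1) := by
      refine (card_Fs j (by omega)).trans ?_
      push_cast
      apply pow_le_pow_left₀ (by positivity)
      linarith
    have e2 : ((Fs (n - j) ((X / h : ℕ) : ℤ)).card : ℝ) ≤ (3 * u) ^ (n - j + 1) := by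
      refine (card_Fs (n - j) (Int.natCast_nonneg _)).trans ?_
      have e3 : ((((X / h : ℕ) : ℤ)) : ℝ) ≤ u := by
        rw [hu, Int.cast_natCast]
        exact Nat.cast_div_le
      apply pow_le_pow_left₀
      · have : (0 : ℝ) ≤ ((((X / h : ℕ) : ℤ)) : ℝ) := by rw [Int.cast_natCast]; positivity
        linarith
      · linarith
    obtain ⟨t, rfl⟩ : ∃ t, j = t + 1 := ⟨j - 1, by omega⟩
    obtain ⟨s, rfl⟩ : ∃ s, n = t + s + 2 := ⟨n - t - 2, by omega⟩
    have e4 : t + s + 2 - (t + 1) + 1 = s + 2 := by omega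
    rw [e4] at e2
    calc ((Fs (t + 1) (h : ℤ)).card : ℝ) * ((Fs (t + s + 2 - (t + 1)) ((X / h : ℕ) : ℤ)).card : ℝ)
        ≤ (3 * (h : ℝ)) ^ (t + 1 + 1) * (3 * u) ^ (s + 2) := by
          apply mul_le_mul e1 e2 (Nat.cast_nonneg _) (by positivity)
      _ = 3 ^ (t + s + 2 + 2) * ((h : ℝ) ^ (t + 2) * u ^ (s + 2)) := by ring
      _ ≤ 3 ^ (t + s + 2 + 2) * ((h : ℝ) ^ (t + s + 2) * u ^ (t + s + 2)) := by
          have f1 : (h : ℝ) ^ (t + 2) ≤ (h : ℝ) ^ (t + s + 2) := pow_le_pow_right₀ hhR (by omega)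
          have f2 : u ^ (s + 2) ≤ u ^ (t + s + 2) := pow_le_pow_right₀ hu1 (by omega)
          gcongr
      _ = _ := by rw [hXu, mul_pow]
  calc ∑ j ∈ Finset.Icc 1 (n - 1), ∑ h ∈ Finset.Icc 1 (Nat.sqrt X),
      ((Fs j (h : ℤ)).card : ℝ) * ((Fs (n - j) ((X / h : ℕ) : ℤ)).card : ℝ)
      ≤ ∑ _j ∈ Finset.Icc 1 (n - 1), ∑ _h ∈ Finset.Icc 1 (Nat.sqrt X),
        3 ^ (n + 2) * (X : ℝ) ^ n :=
        Finset.sum_le_sum fun j hj => Finset.sum_le_sum fun h hh => h3 j hj h hh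
    _ = ((n - 1 : ℕ) : ℝ) * (Nat.sqrt X * (3 ^ (n + 2) * (X : ℝ) ^ n)) := by
        rw [Finset.sum_const, Finset.sum_const, Nat.card_Icc, Nat.card_Icc, nsmul_eq_mul,
          nsmul_eq_mul, Nat.add_sub_cancel, Nat.add_sub_cancel]
    _ ≤ _ := by
        have : ((n - 1 : ℕ) : ℝ) ≤ n := by exact_mod_cast Nat.sub_le _ _
        gcongr

lemma mem_Rc {n H : ℕ} (hn : 1 ≤ n) {P : ℤ[X]} (hPd : P.natDegree = n) (hP : P.IsPrimitive)
    (hPH : ∀ i, |P.coeff i| ≤ H) (hirr : ¬ Irreducible P) : P ∈ Rc n (2 ^ n * ((n + 1) * H)) := by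
  classical
  have hP0 : P ≠ 0 := by
    intro h
    rw [h, natDegree_zero] at hPd
    omega
  have hunit : ¬ IsUnit P := by
    intro h
    have := natDegree_eq_zero_of_isUnit h
    omega
  have hfac : ∃ a b : ℤ[X], P = a * b ∧ ¬ IsUnit a ∧ ¬ IsUnit b := by
    by_contra hcon
    push Not at hcon
    apply hirr
    refine ⟨hunit, fun a b hab => ?_⟩
    by_contra h
    push Not at h
    exact h.2 (hcon a b hab h.1)
  have hpos : ∀ a b : ℤ[X], P = a * b → ¬ IsUnit a → 1 ≤ a.natDegree := by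
    intro a b hab ha
    by_contra h
    have h0 : a.natDegree = 0 := by omega
    rw [natDegree_eq_zero] at h0
    obtain ⟨r, rfl⟩ := h0
    apply ha
    exact isUnit_C.2 (hP r ⟨b, hab⟩)
  have main : ∀ a b : ℤ[X], P = a * b → ¬ IsUnit a → ¬ IsUnit b → ht a ≤ ht b →
      P ∈ Rc n (2 ^ n * ((n + 1) * H)) := by
    intro a b hab ha hb hle
    have hane : a ≠ 0 := by rintro rfl; rw [zero_mul] at hab; exact hP0 hab
    have hbne : b ≠ 0 := by rintro rfl; rw [mul_zero] at hab; exact hP0 hab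
    have h1 := hpos a b hab ha
    have h2 := hpos b a (by rw [hab, mul_comm]) hb
    have h3 : a.natDegree + b.natDegree = n := by
      rw [← natDegree_mul hane hbne, ← hab, hPd]
    have h4 := ht_mul n a b (by rw [← hab, hPd]) (by rw [← hab]; exact hP0) (H := H)
      (by rw [← hab]; exact hPH)
    have h5 := ht_pos hane
    unfold Rc
    rw [Finset.mem_biUnion]
    refine ⟨a.natDegree, by rw [Finset.mem_Icc]; omega, ?_⟩
    rw [Finset.mem_biUnion]
    refine ⟨ht a, ?_, ?_⟩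
    · rw [Finset.mem_Icc]
      refine ⟨h5, Nat.le_sqrt.2 ?_⟩
      calc ht a * ht a ≤ ht a * ht b := Nat.mul_le_mul_left _ hle
        _ ≤ _ := h4
    · rw [Finset.mem_image]
      refine ⟨(a, b), ?_, hab.symm⟩
      rw [Finset.mem_product]
      refine ⟨mem_Fs le_rfl fun i => ?_, mem_Fs (by simp only; omega) fun i => ?_⟩
      · have h6 := le_ht a i
        simp only
        rw [Int.abs_eq_natAbs]
        exact_mod_cast h6
      · have h6 := le_ht b i
        have h7 : ht b ≤ 2 ^ n * ((n + 1) * H) / ht a := by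
          rw [Nat.le_div_iff_mul_le (by omega), mul_comm]
          exact h4
        simp only
        rw [Int.abs_eq_natAbs]
        exact_mod_cast h6.trans h7
  obtain ⟨a, b, hab, ha, hb⟩ := hfac
  rcases le_total (ht a) (ht b) with h | h
  · exact main a b hab ha hb h
  · exact main b a (by rw [hab, mul_comm]) hb ha h

end Pool.Agent.Y933.KG
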