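import Pool.Agent.Y933.KG.Tup3

/-!
# The real roots of all integral polynomials of height at most `H` (helper933)
-/

set_option autoImplicit false

namespace Pool.Agent.Y933.KG

open Finset Polynomial Filter
open Pool.Agent.H469R2.NK (e norm_e e_add)
open Pool.Agent.Y933.KD.VdC (ev_le)

/-- the polynomial `c + a 0 X + ⋯ + a (q + 1) X ^ (q + 2)` -/
noncomputable def pol (q : ℕ) (a : Fin (q + 2) → ℤ) (c : ℤ) : ℝ[X] :=
  ∑ i : Fin (q + 2), C (a i : ℝ) * X ^ ((i : ℕ) + 1) + C (c : ℝ)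

lemma pol_eval (q : ℕ) (a : Fin (q + 2) → ℤ) (c : ℤ) (x : ℝ) :
    (pol q a c).eval x = (pol q a 0).eval x + c := by
  unfold pol
  rw [eval_add, eval_add, eval_C, eval_C]
  push_cast
  ring

lemma pol_coeff_zero (q : ℕ) (a : Fin (q + 2) → ℤ) (c : ℤ) : (pol q a c).coeff 0 = c := by
  unfold pol
  rw [coeff_add, finsetSum_coeff, coeff_C_zero, Finset.sum_eq_zero, zero_add]
  intro i _
  rw [coeff_C_mul, coeff_X_pow, if_neg (by omega), mul_zero]

lemma pol_coeff_succ (q : ℕ) (a : Fin (q + 2) → ℤ) (c : ℤ) (i : Fin (q + 2)) :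
    (pol q a c).coeff ((i : ℕ) + 1) = a i := by
  unfold pol
  rw [coeff_add, finsetSum_coeff, coeff_C, if_neg (by omega), add_zero,
    Finset.sum_eq_single i]
  · rw [coeff_C_mul, coeff_X_pow, if_pos rfl, mul_one]
  · intro j _ hj
    rw [coeff_C_mul, coeff_X_pow, if_neg, mul_zero]
    intro h
    apply hj
    ext
    omega
  · intro h
    exact absurd (Finset.mem_univ i) h

lemma pol_coeff_big (q : ℕ) (a : Fin (q + 2) → ℤ) (c : ℤ) {n : ℕ} (hn : q + 2 < n) :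
    (pol q a c).coeff n = 0 := by
  unfold pol
  rw [coeff_add, finsetSum_coeff, coeff_C, if_neg (by omega), add_zero]
  refine Finset.sum_eq_zero fun i _ => ?_
  rw [coeff_C_mul, coeff_X_pow, if_neg (by omega), mul_zero]

lemma pol_natDegree_le (q : ℕ) (a : Fin (q + 2) → ℤ) (c : ℤ) : (pol q a c).natDegree ≤ q + 2 :=
  natDegree_le_iff_coeff_eq_zero.2 fun _ hn => pol_coeff_big q a c hn

lemma pol_coeff_abs (q : ℕ) (a : Fin (q + 2) → ℤ) (c : ℤ) {H : ℝ} (hH : 0 ≤ H)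
    (ha : ∀ i, |(a i : ℝ)| ≤ H) (hc : |(c : ℝ)| ≤ H) (n : ℕ) : |(pol q a c).coeff n| ≤ H := by
  rcases Nat.eq_zero_or_pos n with rfl | hn
  · rw [pol_coeff_zero]; exact hc
  · rcases le_or_gt n (q + 2) with h | h
    · have h1 := pol_coeff_succ q a c ⟨n - 1, by omega⟩
      simp only at h1
      rw [show n - 1 + 1 = n by omega] at h1
      rw [h1]
      exact ha _
    · rw [pol_coeff_big q a c h, abs_zero]; exact hH

/-- the coefficients other than the constant one -/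
noncomputable def Av (q H : ℕ) : Finset (Fin (q + 2) → ℤ) := Fintype.piFinset fun _ => Finset.Icc (-(H : ℤ)) H

open Classical in
/-- all pairs of an integral polynomial of degree at most `q + 2` and height at most `H`, and one
of its real roots -/
noncomputable def Om (q H : ℕ) : Finset (Σ _ : (Fin (q + 2) → ℤ), Σ _ : ℤ, ℝ) :=
  (Av q H).sigma fun a => (Finset.Icc (-(H : ℤ)) H).sigma fun c => (pol q a c).roots.toFinset

lemma card_Av (q H : ℕ) : (Av q H).card = (2 * H + 1) ^ (q + 2) := by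
  unfold Av
  rw [Fintype.card_piFinset_const, Int.card_Icc]
  congr 1
  omega

lemma mem_Av {q H : ℕ} {a : Fin (q + 2) → ℤ} : a ∈ Av q H ↔ ∀ i, |a i| ≤ H := by
  unfold Av
  rw [Fintype.mem_piFinset]
  refine forall_congr' fun i => ?_
  rw [Finset.mem_Icc, abs_le]

lemma roots_card (q : ℕ) (a : Fin (q + 2) → ℤ) (c : ℤ) [DecidableEq ℝ] :
    (pol q a c).roots.toFinset.card ≤ q + 2 :=
  (Multiset.toFinset_card_le _).trans ((card_roots' _).trans (pol_natDegree_le q a c))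

lemma card_Icc_H (H : ℕ) : (Finset.Icc (-(H : ℤ)) H).card = 2 * H + 1 := by
  rw [Int.card_Icc]
  omega

/-- the number of vectors with a small last coordinate -/
lemma card_small (q H : ℕ) (T : ℝ) (hT : 0 ≤ T) :
    (((Av q H).filter (fun a => |(a (Fin.last (q + 1)) : ℝ)| < T)).card : ℝ) ≤
      (2 * H + 1) ^ (q + 1) * (2 * T + 1) := by
  classical
  have h1 : (Av q H).filter (fun a => |(a (Fin.last (q + 1)) : ℝ)| < T) ⊆
      Fintype.piFinset (fun i : Fin (q + 2) => if i = Fin.last (q + 1) then Finset.Icc (-⌊T⌋) ⌊T⌋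
        else Finset.Icc (-(H : ℤ)) H) := by
    intro a ha
    rw [Finset.mem_filter, mem_Av] at ha
    rw [Fintype.mem_piFinset]
    intro i
    split_ifs with hi
    · rw [hi, Finset.mem_Icc, ← abs_le]
      refine Int.le_floor.2 ?_
      push_cast
      exact ha.2.le
    · rw [Finset.mem_Icc, ← abs_le]
      exact ha.1 i
  have hfl : 0 ≤ ⌊T⌋ := Int.floor_nonneg.2 hT
  have h2 : ((Finset.Icc (-⌊T⌋) ⌊T⌋).card : ℝ) ≤ 2 * T + 1 := by
    have h3 : (((Finset.Icc (-⌊T⌋) ⌊T⌋).card : ℕ) : ℤ) = 2 * ⌊T⌋ + 1 := by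
      rw [Int.card_Icc, Int.toNat_of_nonneg (by omega)]
      ring
    have h4 : ((Finset.Icc (-⌊T⌋) ⌊T⌋).card : ℝ) = 2 * (⌊T⌋ : ℝ) + 1 := by exact_mod_cast h3
    have := Int.floor_le T
    linarith
  calc _ ≤ ((Fintype.piFinset (fun i : Fin (q + 2) =>
        if i = Fin.last (q + 1) then Finset.Icc (-⌊T⌋) ⌊T⌋
        else Finset.Icc (-(H : ℤ)) H)).card : ℝ) := by exact_mod_cast Finset.card_le_card h1
    _ = (2 * H + 1) ^ (q + 1) * ((Finset.Icc (-⌊T⌋) ⌊T⌋).card : ℝ) := by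
        rw [Fintype.card_piFinset, Fin.prod_univ_castSucc]
        push_cast
        simp only [Fin.castSucc_ne_last, if_false, if_true]
        rw [Finset.prod_const, Finset.card_univ, Fintype.card_fin, card_Icc_H]
        push_cast
        ring
    _ ≤ _ := by gcongr

/-- the inner sum as a sum over the points where the polynomial takes integral values -/
lemma inner_eq {q H : ℕ} (a : Fin (q + 2) → ℤ) (h0 : a (Fin.last (q + 1)) ≠ 0) (f : ℝ → ℂ)
    [DecidableEq ℝ] :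
    ∃ X : Finset ℝ, (∀ x, x ∈ X ↔ ∃ c : ℤ, |(c : ℝ)| ≤ H ∧ (pol q a 0).eval x = c) ∧
      ∑ c ∈ Finset.Icc (-(H : ℤ)) H, ∑ x ∈ (pol q a c).roots.toFinset, f x = ∑ x ∈ X, f x := by
  have hne : ∀ c, pol q a c ≠ 0 := by
    intro c h
    have h1 := pol_coeff_succ q a c (Fin.last (q + 1))
    rw [h, coeff_zero] at h1
    exact h0 (by exact_mod_cast h1.symm)
  have hmem : ∀ c x, x ∈ (pol q a c).roots.toFinset ↔ (pol q a 0).eval x = -(c : ℝ) := by
    intro c x
    rw [Multiset.mem_toFinset, mem_roots (hne c), IsRoot, pol_eval]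
    constructor
    · intro h; linarith
    · intro h; linarith
  refine ⟨(Finset.Icc (-(H : ℤ)) H).biUnion fun c => (pol q a c).roots.toFinset, ?_, ?_⟩
  · intro x
    rw [Finset.mem_biUnion]
    constructor
    · rintro ⟨c, hc, hx⟩
      rw [hmem] at hx
      rw [Finset.mem_Icc, ← abs_le] at hc
      refine ⟨-c, ?_, ?_⟩
      · push_cast
        rw [abs_neg]
        exact_mod_cast hc
      · rw [hx]; push_cast; rfl
    · rintro ⟨c, hc, hx⟩
      refine ⟨-c, ?_, ?_⟩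
      · rw [Finset.mem_Icc, ← abs_le, abs_neg]
        exact_mod_cast hc
      · rw [hmem, hx]; push_cast; ring
  · rw [Finset.sum_biUnion]
    intro c _ c' _ hcc
    rw [Function.onFun, Finset.disjoint_left]
    intro x hx hx'
    rw [hmem] at hx hx'
    rw [hx] at hx'
    apply hcc
    have : (c : ℝ) = c' := by linarith
    exact_mod_cast this

/-- **the exponential sum over all real roots of the polynomials of height at most `H`** -/
theorem tot_sum (q K : ℕ) (hK : 1 ≤ K) (δ1 : ℝ) (hδ1 : 0 < δ1) :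
    ∃ κ : ℝ, 0 < κ ∧ ∃ ρ : ℝ, 0 < ρ ∧ ρ ≤ 1 ∧ ∃ Cc : ℝ, 0 ≤ Cc ∧ ∃ H0 : ℕ, ∀ H : ℕ, H0 ≤ H →
      ∀ G : ℝ[X], 1 ≤ G.natDegree → G.natDegree ≤ q + 1 →
      (∀ i, 1 ≤ i → |G.coeff i| ≤ (H : ℝ) ^ κ) → (H : ℝ) ^ (-κ) ≤ |G.leadingCoeff| →
      ∀ θ : ℝ, (H : ℝ) ^ δ1 ≤ |θ| → |θ| ≤ (H : ℝ) ^ (K : ℝ) →
      ‖∑ p ∈ Om q H, e (θ * G.eval p.2.2)‖ ≤ Cc * (H : ℝ) ^ ((q : ℝ) + 3 - ρ) := by
  classical
  obtain ⟨δ, hδ, hδ2, ρ, hρ, hρ1, Cc, hCc, H0, hH0⟩ := tup_sum q K hK δ1 hδ1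
  refine ⟨δ, hδ, min δ ρ, lt_min hδ hρ, (min_le_right _ _).trans hρ1,
    3 ^ (q + 2) * Cc + 3 ^ (q + 1) * 3 * ((q + 2) * 3), by positivity, max H0 1, ?_⟩
  intro H hH G hG1 hG2 hGco hGlead θ hθ1 hθ2
  have hH1 : 1 ≤ H := le_of_max_le_right hH
  have hHR : (1 : ℝ) ≤ H := by exact_mod_cast hH1
  have hHp : (0 : ℝ) < H := by linarith
  have h3H : 2 * (H : ℝ) + 1 ≤ 3 * H := by linarith
  have hadd : ∀ x y : ℝ, (H : ℝ) ^ x * (H : ℝ) ^ y = (H : ℝ) ^ (x + y) :=
    fun x y => (Real.rpow_add hHp x y).symm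
  set T : ℝ := (H : ℝ) ^ (1 - δ) with hT
  have hT1 : 1 ≤ T := Real.one_le_rpow hHR (by linarith)
  have hTle : T ≤ (H : ℝ) := by
    calc T ≤ (H : ℝ) ^ (1 : ℝ) := Real.rpow_le_rpow_of_exponent_le hHR (by linarith)
      _ = H := Real.rpow_one _
  set F : (Fin (q + 2) → ℤ) → ℂ := fun a =>
    ∑ c ∈ Finset.Icc (-(H : ℤ)) H, ∑ x ∈ (pol q a c).roots.toFinset, e (θ * G.eval x) with hF
  have hsum : ∑ p ∈ Om q H, e (θ * G.eval p.2.2) = ∑ a ∈ Av q H, F a := by
    unfold Om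
    rw [Finset.sum_sigma]
    refine sum_congr rfl fun a _ => ?_
    rw [Finset.sum_sigma]
  have htriv : ∀ a, ‖F a‖ ≤ (q + 2) * (2 * H + 1) := by
    intro a
    calc ‖F a‖ ≤ ∑ c ∈ Finset.Icc (-(H : ℤ)) H, ‖∑ x ∈ (pol q a c).roots.toFinset, e (θ * G.eval x)‖ :=
          norm_sum_le _ _
      _ ≤ ∑ _c ∈ Finset.Icc (-(H : ℤ)) H, ((q : ℝ) + 2) := by
          refine sum_le_sum fun c _ => ?_
          refine (norm_sum_le _ _).trans ?_
          simp only [norm_e, sum_const, nsmul_eq_mul, mul_one]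
          exact_mod_cast roots_card q a c
      _ = _ := by
          rw [sum_const, card_Icc_H, nsmul_eq_mul]
          push_cast
          ring
  have hgood : ∀ a ∈ Av q H, ¬ |(a (Fin.last (q + 1)) : ℝ)| < T → ‖F a‖ ≤ Cc * (H : ℝ) ^ (1 - ρ) := by
    intro a ha hlast
    push Not at hlast
    have h0 : a (Fin.last (q + 1)) ≠ 0 := by
      intro h
      rw [h] at hlast
      simp only [Int.cast_zero, abs_zero] at hlast
      linarith
    obtain ⟨X, hX, hXs⟩ := inner_eq (H := H) a h0 (fun x => e (θ * G.eval x))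
    rw [hF]
    simp only
    rw [hXs]
    have haR : ∀ i, |(a i : ℝ)| ≤ H := by
      intro i
      have := (mem_Av.1 ha) i
      exact_mod_cast this
    have hc2 : (pol q a 0).coeff (q + 2) = a (Fin.last (q + 1)) := pol_coeff_succ q a 0 (Fin.last (q + 1))
    refine hH0 H (le_of_max_le_left hH) (pol q a 0) ?_ ?_ ?_ X hX G hG1 hG2 hGco hGlead θ hθ1 hθ2
    · refine le_antisymm (pol_natDegree_le q a 0) (le_natDegree_of_ne_zero ?_)
      rw [hc2]
      exact_mod_cast h0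
    · exact pol_coeff_abs q a 0 hHp.le haR (by simp)
    · rw [hc2]; exact hlast
  rw [hsum, ← Finset.sum_filter_add_sum_filter_not (Av q H)
    (fun a => |(a (Fin.last (q + 1)) : ℝ)| < T)]
  refine (norm_add_le _ _).trans ?_
  have hA : ‖∑ a ∈ (Av q H).filter (fun a => |(a (Fin.last (q + 1)) : ℝ)| < T), F a‖ ≤
      3 ^ (q + 1) * 3 * ((q + 2) * 3) * (H : ℝ) ^ ((q : ℝ) + 3 - min δ ρ) := by
    calc _ ≤ ∑ a ∈ (Av q H).filter (fun a => |(a (Fin.last (q + 1)) : ℝ)| < T), ‖F a‖ :=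
          norm_sum_le _ _
      _ ≤ ∑ _a ∈ (Av q H).filter (fun a => |(a (Fin.last (q + 1)) : ℝ)| < T),
          (((q : ℝ) + 2) * (2 * H + 1)) := sum_le_sum fun a _ => htriv a
      _ = (((Av q H).filter (fun a => |(a (Fin.last (q + 1)) : ℝ)| < T)).card : ℝ) *
          (((q : ℝ) + 2) * (2 * H + 1)) := by rw [sum_const, nsmul_eq_mul]
      _ ≤ ((2 * H + 1) ^ (q + 1) * (2 * T + 1)) * (((q : ℝ) + 2) * (2 * H + 1)) := by
          have := card_small q H T (by linarith)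
          gcongr
      _ ≤ ((3 * (H : ℝ)) ^ (q + 1) * (3 * T)) * (((q : ℝ) + 2) * (3 * H)) := by
          have : 2 * T + 1 ≤ 3 * T := by linarith
          gcongr
      _ = 3 ^ (q + 1) * 3 * ((q + 2) * 3) * ((H : ℝ) ^ (q + 1) * T * H) := by
          rw [mul_pow]; ring
      _ = 3 ^ (q + 1) * 3 * ((q + 2) * 3) * (H : ℝ) ^ ((q : ℝ) + 3 - δ) := by
          congr 1
          rw [hT, ← Real.rpow_natCast (H : ℝ) (q + 1), hadd]
          nth_rewrite 2 [← Real.rpow_one (H : ℝ)]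
          rw [hadd]
          congr 1
          push_cast
          ring
      _ ≤ _ := by
          refine mul_le_mul_of_nonneg_left (Real.rpow_le_rpow_of_exponent_le hHR ?_) (by positivity)
          linarith [min_le_left δ ρ]
  have hB : ‖∑ a ∈ (Av q H).filter (fun a => ¬ |(a (Fin.last (q + 1)) : ℝ)| < T), F a‖ ≤
      3 ^ (q + 2) * Cc * (H : ℝ) ^ ((q : ℝ) + 3 - min δ ρ) := by
    calc _ ≤ ∑ a ∈ (Av q H).filter (fun a => ¬ |(a (Fin.last (q + 1)) : ℝ)| < T), ‖F a‖ :=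
          norm_sum_le _ _
      _ ≤ ∑ _a ∈ (Av q H).filter (fun a => ¬ |(a (Fin.last (q + 1)) : ℝ)| < T),
          Cc * (H : ℝ) ^ (1 - ρ) := by
          refine sum_le_sum fun a ha => ?_
          rw [Finset.mem_filter] at ha
          exact hgood a ha.1 ha.2
      _ = (((Av q H).filter (fun a => ¬ |(a (Fin.last (q + 1)) : ℝ)| < T)).card : ℝ) *
          (Cc * (H : ℝ) ^ (1 - ρ)) := by rw [sum_const, nsmul_eq_mul]
      _ ≤ (3 * (H : ℝ)) ^ (q + 2) * (Cc * (H : ℝ) ^ (1 - ρ)) := by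
          have h1 : (((Av q H).filter (fun a => ¬ |(a (Fin.last (q + 1)) : ℝ)| < T)).card : ℝ) ≤
              (3 * (H : ℝ)) ^ (q + 2) := by
            calc _ ≤ ((Av q H).card : ℝ) := by exact_mod_cast Finset.card_filter_le _ _
              _ = (2 * (H : ℝ) + 1) ^ (q + 2) := by rw [card_Av]; push_cast; ring
              _ ≤ _ := by gcongr
          gcongr
      _ = 3 ^ (q + 2) * Cc * (H : ℝ) ^ ((q : ℝ) + 3 - ρ) := by
          rw [mul_pow, ← Real.rpow_natCast (H : ℝ) (q + 2)]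
          have e1 : (H : ℝ) ^ ((q : ℝ) + 3 - ρ) = (H : ℝ) ^ (((q + 2 : ℕ) : ℝ)) * (H : ℝ) ^ (1 - ρ) := by
            rw [hadd]
            congr 1
            push_cast
            ring
          rw [e1]
          ring
      _ ≤ _ := by
          refine mul_le_mul_of_nonneg_left (Real.rpow_le_rpow_of_exponent_le hHR ?_) (by positivity)
          linarith [min_le_right δ ρ]
  calc _ ≤ 3 ^ (q + 1) * 3 * ((q + 2) * 3) * (H : ℝ) ^ ((q : ℝ) + 3 - min δ ρ) +
        3 ^ (q + 2) * Cc * (H : ℝ) ^ ((q : ℝ) + 3 - min δ ρ) := add_le_add hA hB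
    _ = _ := by ring

end Pool.Agent.Y933.KG
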