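import Pool.Agent.Y933.KG.Inv

/-!
# One polynomial: the sum over all points where it takes small integral values (helper933)
-/

set_option autoImplicit false

namespace Pool.Agent.Y933.KG

open Finset Polynomial
open Pool.Agent.H469R2.NK (e norm_e e_add)

lemma deriv_bound {P : ℝ[X]} {q : ℕ} (hP : P.natDegree ≤ q + 2) {H R : ℝ} (hH : 0 ≤ H)
    (hco : ∀ i, 1 ≤ i → |P.coeff i| ≤ H) (hR : 1 ≤ R) {x : ℝ} (hx : |x| ≤ R) (r : ℕ) (hr : 1 ≤ r) :
    |(derivative^[r] P).eval x| ≤ ((q + 3).factorial : ℝ) * H * R ^ (q + 2) := by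
  have hdeg : (derivative^[r] P).natDegree < q + 3 :=
    ((natDegree_iterate_derivative P r).trans (by omega : P.natDegree - r ≤ q + 2)).trans_lt
      (by omega)
  rw [eval_eq_sum_range' hdeg]
  have hterm : ∀ i ∈ range (q + 3), |(derivative^[r] P).coeff i * x ^ i| ≤
      ((q + 2).factorial : ℝ) * H * R ^ (q + 2) := by
    intro i hi
    rw [Finset.mem_range] at hi
    rw [abs_mul, abs_pow]
    have h1 : |(derivative^[r] P).coeff i| ≤ ((q + 2).factorial : ℝ) * H := by
      rw [coeff_iterate_derivative, nsmul_eq_mul, abs_mul, abs_of_nonneg (Nat.cast_nonneg _)]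
      rcases le_or_gt (i + r) (q + 2) with h2 | h2
      · have h3 : (i + r).descFactorial r ≤ (q + 2).factorial := by
          have h4 := Nat.factorial_mul_descFactorial (Nat.le_add_left r i)
          have h5 : (i + r).descFactorial r ≤ (i + r).factorial := by
            rw [← h4]
            exact Nat.le_mul_of_pos_left _ (Nat.factorial_pos _)
          exact h5.trans (Nat.factorial_le h2)
        have h6 : (((i + r).descFactorial r : ℕ) : ℝ) ≤ ((q + 2).factorial : ℝ) := by
          exact_mod_cast h3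
        have := hco (i + r) (by omega)
        gcongr
      · rw [coeff_eq_zero_of_natDegree_lt (by omega), abs_zero, mul_zero]
        positivity
    have h2 : |x| ^ i ≤ R ^ (q + 2) := by
      calc |x| ^ i ≤ R ^ i := pow_le_pow_left₀ (abs_nonneg x) hx i
        _ ≤ R ^ (q + 2) := pow_le_pow_right₀ hR (by omega)
    have h3 : 0 ≤ |x| ^ i := by positivity
    exact mul_le_mul h1 h2 h3 (by positivity)
  calc |∑ i ∈ range (q + 3), (derivative^[r] P).coeff i * x ^ i|
      ≤ ∑ i ∈ range (q + 3), |(derivative^[r] P).coeff i * x ^ i| := abs_sum_le_sum_abs _ _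
    _ ≤ ∑ _i ∈ range (q + 3), ((q + 2).factorial : ℝ) * H * R ^ (q + 2) := sum_le_sum hterm
    _ = _ := by
        rw [sum_const, card_range, nsmul_eq_mul, Nat.factorial_succ (q + 2)]
        push_cast
        ring

lemma fiber_card {P : ℝ[X]} {q : ℕ} (hP : P.natDegree = q + 2) (S : Finset ℝ) (c : ℝ) :
    (S.filter (fun x => P.eval x = c)).card ≤ q + 2 := by
  classical
  have h1 : (P - C c).natDegree = q + 2 := by rw [natDegree_sub_C, hP]
  have h0 : P - C c ≠ 0 := by
    intro h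
    rw [h, natDegree_zero] at h1
    omega
  have h2 : S.filter (fun x => P.eval x = c) ⊆ (P - C c).roots.toFinset := by
    intro x hx
    rw [Finset.mem_filter] at hx
    rw [Multiset.mem_toFinset, mem_roots h0, IsRoot, eval_sub, eval_C, hx.2, sub_self]
  calc _ ≤ (P - C c).roots.toFinset.card := Finset.card_le_card h2
    _ ≤ Multiset.card (P - C c).roots := Multiset.toFinset_card_le _
    _ ≤ (P - C c).natDegree := card_roots' _
    _ = q + 2 := h1

/-- the number of points with values in a short interval -/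
lemma count_short {P : ℝ[X]} {q : ℕ} (hP : P.natDegree = q + 2) (S : Finset ℝ) (c0 : ℤ) (T : ℝ)
    (hT : 0 ≤ T) (hS : ∀ x ∈ S, ∃ c : ℤ, P.eval x = c ∧ |(c : ℝ) - c0| ≤ T) :
    (S.card : ℝ) ≤ (q + 2) * (2 * T + 1) := by
  classical
  set Z : Finset ℤ := Finset.Icc (c0 - ⌊T⌋) (c0 + ⌊T⌋) with hZ
  have hfl : 0 ≤ ⌊T⌋ := Int.floor_nonneg.2 hT
  have hZc : (Z.card : ℝ) ≤ 2 * T + 1 := by
    have h1 : ((Z.card : ℕ) : ℤ) = 2 * ⌊T⌋ + 1 := by
      rw [hZ, Int.card_Icc, Int.toNat_of_nonneg (by omega)]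
      ring
    have h2 : (Z.card : ℝ) = 2 * (⌊T⌋ : ℝ) + 1 := by exact_mod_cast h1
    have := Int.floor_le T
    linarith
  have h1 : S ⊆ Z.biUnion (fun c => S.filter (fun x => P.eval x = (c : ℝ))) := by
    intro x hx
    obtain ⟨c, hc, hcT⟩ := hS x hx
    rw [Finset.mem_biUnion]
    refine ⟨c, ?_, ?_⟩
    · rw [hZ, Finset.mem_Icc]
      rw [abs_le] at hcT
      have h3 : c - c0 ≤ ⌊T⌋ := Int.le_floor.2 (by push_cast; linarith)
      have h4 : c0 - c ≤ ⌊T⌋ := Int.le_floor.2 (by push_cast; linarith)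
      constructor <;> omega
    · rw [Finset.mem_filter]
      exact ⟨hx, hc⟩
  have h2 : S.card ≤ Z.card * (q + 2) :=
    (Finset.card_le_card h1).trans (Finset.card_biUnion_le_card_mul _ _ _
      fun c _ => fiber_card hP S c)
  have h3 : (S.card : ℝ) ≤ (Z.card : ℝ) * (q + 2) := by exact_mod_cast h2
  have hq : (0 : ℝ) ≤ (q : ℝ) + 2 := by positivity
  nlinarith

/-- the points in a short interval -/
lemma near_count {P : ℝ[X]} {q : ℕ} (hP : P.natDegree = q + 2) (X : Finset ℝ) {Λ R ρ : ℝ}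
    (hΛ : 0 ≤ Λ) (hρ : 0 ≤ ρ) (hX : ∀ x ∈ X, |x| ≤ R ∧ ∃ c : ℤ, P.eval x = c)
    (hder : ∀ x, |x| ≤ R → |(derivative P).eval x| ≤ Λ) (t : ℝ) :
    ((X.filter (fun x => |x - t| < ρ)).card : ℝ) ≤ (q + 2) * (2 * (Λ * (2 * ρ)) + 1) := by
  classical
  rcases (X.filter (fun x => |x - t| < ρ)).eq_empty_or_nonempty with h | ⟨x0, h0⟩
  · rw [h]
    simp only [card_empty, Nat.cast_zero]
    positivity
  · rw [Finset.mem_filter] at h0
    obtain ⟨hx0R, c0, hc0⟩ := hX x0 h0.1
    refine count_short hP _ c0 (Λ * (2 * ρ)) (by positivity) ?_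
    intro x hx
    rw [Finset.mem_filter] at hx
    obtain ⟨hxR, c, hc⟩ := hX x hx.1
    refine ⟨c, hc, ?_⟩
    rw [← hc, ← hc0]
    have h1 := (convex_uIcc x0 x).norm_image_sub_le_of_norm_hasDerivWithin_le
      (f := fun y => P.eval y) (f' := fun y => (derivative P).eval y) (C := Λ)
      (fun y _ => (P.hasDerivAt y).hasDerivWithinAt)
      (fun y hy => by
        rw [Real.norm_eq_abs]
        refine hder y ?_
        rw [Set.mem_uIcc] at hy
        rw [abs_le] at hxR hx0R ⊢
        rcases hy with ⟨h2, h3⟩ | ⟨h2, h3⟩ <;> constructor <;> linarith)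
      Set.left_mem_uIcc Set.right_mem_uIcc
    rw [Real.norm_eq_abs, Real.norm_eq_abs] at h1
    refine h1.trans ?_
    refine mul_le_mul_of_nonneg_left ?_ hΛ
    have h2 := abs_lt.1 h0.2
    have h3 := abs_lt.1 hx.2
    rw [abs_le]
    constructor <;> linarith

end Pool.Agent.Y933.KG
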