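import Pool.Agent.Y933.KG.Tup

/-!
# One polynomial: power saving (helper933)
-/

set_option autoImplicit false

namespace Pool.Agent.Y933.KG

open Finset Polynomial Filter
open Pool.Agent.H469R2.NK (e norm_e e_add)
open Pool.Agent.Y933.KD.VdC (ev_le)

lemma root_size {P : ℝ[X]} {q : ℕ} (hP : P.natDegree = q + 2) {H : ℝ} (hH : 0 ≤ H)
    (hco : ∀ i, |P.coeff i| ≤ H) {x c : ℝ} (hc : |c| ≤ H) (hx : P.eval x = c) :
    |x| ≤ 2 * H / |P.coeff (q + 2)| + 1 := by
  have h1 : (P - C c).natDegree = q + 2 := by rw [natDegree_sub_C, hP]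
  have h0 : P - C c ≠ 0 := by
    intro h
    rw [h, natDegree_zero] at h1
    omega
  have hroot : (P - C c).IsRoot x := by
    rw [IsRoot, eval_sub, eval_C, hx, sub_self]
  have h2 := IsRoot.norm_lt_cauchyBound h0 hroot
  unfold cauchyBound at h2
  obtain ⟨S, hS⟩ : ∃ S : NNReal, (S : ℝ) = 2 * H := ⟨⟨2 * H, by positivity⟩, rfl⟩
  have h3 : (range (P - C c).natDegree).sup (fun i => ‖(P - C c).coeff i‖₊) ≤ S := by
    refine Finset.sup_le fun i _ => ?_
    rw [← NNReal.coe_le_coe, coe_nnnorm, Real.norm_eq_abs, coeff_sub]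
    refine (abs_sub _ _).trans ?_
    have h4 := hco i
    have h5 : |(C c).coeff i| ≤ H := by
      rw [coeff_C]
      split_ifs
      · exact hc
      · rw [abs_zero]; exact hH
    rw [hS]
    linarith
  have h4 : (P - C c).leadingCoeff = P.coeff (q + 2) := by
    rw [leadingCoeff, h1, coeff_sub, coeff_C]
    simp
  rw [h4] at h2
  have h5 : ‖x‖₊ < S / ‖P.coeff (q + 2)‖₊ + 1 := by
    refine h2.trans_le ?_
    gcongr
  have h6 := NNReal.coe_lt_coe.2 h5
  rw [coe_nnnorm, NNReal.coe_add, NNReal.coe_div, coe_nnnorm, Real.norm_eq_abs, Real.norm_eq_abs,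
    NNReal.coe_one, hS] at h6
  exact h6.le

/-- lower bounds away from finitely many points -/
lemma avoid {P F : ℝ[X]} {q s : ℕ} (hP : P.natDegree = q + 2) (hF : F.natDegree = s + 1)
    (hs : s ≤ q) (K : ℕ) :
    ∃ E : Finset ℝ, E.card ≤ (q + K * q) + (q + (K + 1) * q) + (q + 1) ∧ ∀ x r : ℝ, 0 < r → r ≤ 1 →
      (∀ t ∈ E, r ≤ |x - t|) →
      |F.coeff (s + 1)| * |P.coeff (q + 2)| ^ K * r ^ (q + K * q) ≤ |(Nm P F K).eval x| ∧
      (Nm P F (K + 1)).eval x ≠ 0 ∧
      |P.coeff (q + 2)| * r ^ (q + 1) ≤ |(derivative P).eval x| := by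
  classical
  set a := P.coeff (q + 2) with ha
  set f := F.coeff (s + 1) with hf
  have ha0 : a ≠ 0 := by
    rw [ha, ← hP]
    intro h
    rw [coeff_natDegree, leadingCoeff_eq_zero] at h
    rw [h, natDegree_zero] at hP
    omega
  have hf0 : f ≠ 0 := by
    rw [hf, ← hF]
    intro h
    rw [coeff_natDegree, leadingCoeff_eq_zero] at h
    rw [h, natDegree_zero] at hF
    omega
  have hnu : ∀ j, nu q s f a j ≠ 0 := by
    intro j h
    have := abs_nu hs f a j
    rw [h, abs_zero] at this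
    have h2 : 0 < |f| * |a| ^ j := mul_pos (abs_pos.2 hf0) (pow_pos (abs_pos.2 ha0) j)
    linarith
  have hdeg : ∀ j, (Nm P F j).natDegree = s + j * q ∧ (Nm P F j).leadingCoeff = nu q s f a j := by
    intro j
    obtain ⟨h1, h2⟩ := Nm_deg hP.le hF.le j
    have h3 : (Nm P F j).natDegree = s + j * q := by
      refine le_antisymm h1 (le_natDegree_of_ne_zero ?_)
      rw [h2]
      exact hnu j
    exact ⟨h3, by rw [leadingCoeff, h3, h2]⟩
  have hd1 : (derivative P).coeff (q + 1) = a * (q + 2) := by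
    rw [coeff_derivative, ha]
    push_cast
    ring
  have hd2 : (derivative P).natDegree = q + 1 := by
    refine le_antisymm ((natDegree_derivative_le P).trans (by omega)) (le_natDegree_of_ne_zero ?_)
    rw [hd1]
    exact mul_ne_zero ha0 (by positivity)
  obtain ⟨E1, hE1c, hE1⟩ := root_avoid (Nm P F K)
  obtain ⟨E2, hE2c, hE2⟩ := root_avoid (Nm P F (K + 1))
  obtain ⟨E3, hE3c, hE3⟩ := root_avoid (derivative P)
  rw [(hdeg K).1] at hE1c hE1
  rw [(hdeg (K + 1)).1] at hE2c hE2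
  rw [hd2] at hE3c hE3
  rw [(hdeg K).2] at hE1
  rw [(hdeg (K + 1)).2] at hE2
  refine ⟨E1 ∪ E2 ∪ E3, ?_, ?_⟩
  · calc (E1 ∪ E2 ∪ E3).card ≤ (E1 ∪ E2).card + E3.card := card_union_le _ _
      _ ≤ E1.card + E2.card + E3.card := Nat.add_le_add_right (card_union_le _ _) _
      _ ≤ _ := by omega
  · intro x r hr hr1 h
    have h1 := hE1 x r hr.le (fun t ht => h t (by simp [ht]))
    have h2 := hE2 x r hr.le (fun t ht => h t (by simp [ht]))
    have h3 := hE3 x r hr.le (fun t ht => h t (by simp [ht]))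
    refine ⟨?_, ?_, ?_⟩
    · refine le_trans ?_ h1
      have h4 := abs_nu hs f a K
      have h5 : r ^ (q + K * q) ≤ r ^ (s + K * q) := pow_le_pow_of_le_one hr.le hr1 (by omega)
      exact mul_le_mul h4 h5 (by positivity) (abs_nonneg _)
    · intro h4
      rw [h4, abs_zero] at h2
      have h5 : 0 < |nu q s f a (K + 1)| * r ^ (s + (K + 1) * q) :=
        mul_pos (abs_pos.2 (hnu _)) (by positivity)
      linarith
    · refine le_trans ?_ h3
      have h4 : (derivative P).leadingCoeff = a * (q + 2) := by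
        rw [leadingCoeff, hd2, hd1]
      rw [h4, abs_mul]
      have h5 : (1 : ℝ) ≤ |(q : ℝ) + 2| := by
        rw [abs_of_nonneg (by positivity)]
        have : (0 : ℝ) ≤ q := Nat.cast_nonneg q
        linarith
      have h6 : |a| ≤ |a| * |(q : ℝ) + 2| := le_mul_of_one_le_right (abs_nonneg a) h5
      gcongr

end Pool.Agent.Y933.KG
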